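import Mathlib

set_option autoImplicit false

/-!
Controlled chain maps modulo two: located cell complexes, control structures, extension lemma.
-/

namespace Pool.Agent.H357Z.FDC

open Finsupp

abbrev F : Type := ZMod 2

section lin

variable {E E' D D' : Type} [AddCommGroup D] [Module F D] [AddCommGroup D'] [Module F D']

noncomputable def lin (φ : E → D) : (E →₀ F) →ₗ[F] D := Finsupp.linearCombination F φ

lemma add_self (x : D) : x + x = 0 := by
  have h : (2 : F) • x = 0 := by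
    rw [show (2 : F) = 0 from rfl, zero_smul]
  rwa [two_smul] at h

@[simp] lemma lin_single (φ : E → D) (e : E) : lin φ (single e 1) = φ e := by
  simp [lin]

lemma lin_single' (φ : E → D) (e : E) (a : F) : lin φ (single e a) = a • φ e := by
  simp [lin]

lemma lin_mapDomain (φ : E' → D) (u : E → E') (c : E →₀ F) :
    lin φ (mapDomain u c) = lin (fun e => φ (u e)) c := by
  induction c using Finsupp.induction_linear with
  | zero => simp
  | add a b ha hb => rw [mapDomain_add, map_add, map_add, ha, hb]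
  | single e a => rw [mapDomain_single, lin_single', lin_single']

lemma map_lin (L : D →ₗ[F] D') (φ : E → D) (c : E →₀ F) :
    L (lin φ c) = lin (fun e => L (φ e)) c := by
  induction c using Finsupp.induction_linear with
  | zero => simp
  | add a b ha hb => rw [map_add, map_add, map_add, ha, hb]
  | single e a => rw [lin_single', lin_single', map_smul]

lemma lin_add (φ ψ : E → D) (c : E →₀ F) :
    lin (fun e => φ e + ψ e) c = lin φ c + lin ψ c := by
  induction c using Finsupp.induction_linear with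
  | zero => simp
  | add a b ha hb => rw [map_add, map_add, map_add, ha, hb]; abel
  | single e a => rw [lin_single', lin_single', lin_single', smul_add]

@[simp] lemma lin_zero (c : E →₀ F) : lin (fun _ => (0 : D)) c = 0 := by
  induction c using Finsupp.induction_linear with
  | zero => simp
  | add a b ha hb => rw [map_add, ha, hb, add_zero]
  | single e a => rw [lin_single', smul_zero]

lemma lin_congr {φ ψ : E → D} {c : E →₀ F} (h : ∀ e ∈ c.support, φ e = ψ e) :
    lin φ c = lin ψ c := by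
  simp only [lin, Finsupp.linearCombination_apply]
  exact Finsupp.sum_congr fun e he => by rw [h e he]

lemma lin_mem {φ : E → D} {c : E →₀ F} {W : Submodule F D} (h : ∀ e ∈ c.support, φ e ∈ W) :
    lin φ c ∈ W := by
  simp only [lin, Finsupp.linearCombination_apply]
  exact Submodule.sum_mem _ fun e he => W.smul_mem _ (h e he)

lemma lin_apply {I : Type} (φ : E → I → D) (c : E →₀ F) (i : I) :
    lin φ c i = lin (fun e => φ e i) c :=
  map_lin (LinearMap.proj i : (I → D) →ₗ[F] D) φ c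

lemma lin_comm (φ : E → E' → D) (c : E →₀ F) (c' : E' →₀ F) :
    lin (fun e => lin (φ e) c') c = lin (fun e' => lin (fun e => φ e e') c) c' := by
  induction c using Finsupp.induction_linear with
  | zero => simp
  | add a b ha hb =>
    rw [map_add, ha, hb, ← lin_add]
    simp only [map_add]
  | single e a =>
    rw [lin_single']
    simp only [lin_single']
    exact map_lin (LinearMap.lsmul F D a) (φ e) c'

lemma lin_lin (φ : E' → D) (m : E → (E' →₀ F)) (c : E →₀ F) :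
    lin φ (lin m c) = lin (fun e => lin φ (m e)) c := map_lin _ _ _

lemma lin_single_id (c : E →₀ F) : lin (fun e => single e (1 : F)) c = c := by
  induction c using Finsupp.induction_linear with
  | zero => simp
  | add a b ha hb => rw [map_add, ha, hb]
  | single e a => rw [lin_single']; simp

lemma mapDomain_eq_lin (u : E → E') (c : E →₀ F) :
    mapDomain u c = lin (fun e => single (u e) (1 : F)) c := by
  rw [← lin_mapDomain (fun e' => single e' (1 : F)) u c, lin_single_id]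

lemma mem_support_mapDomain {u : E → E'} {c : E →₀ F} {e' : E'}
    (h : e' ∈ (mapDomain u c).support) : ∃ e ∈ c.support, u e = e' := by
  classical
  have := Finsupp.mapDomain_support h
  simpa using this

lemma mem_support_add' {c c' : E →₀ F} {e : E} (h : e ∈ (c + c').support) :
    e ∈ c.support ∨ e ∈ c'.support := by
  classical
  simpa using Finsupp.support_add h

lemma mem_support_single' {a e : E} (h : e ∈ (single a (1 : F)).support) : e = a := by
  have := Finsupp.support_single_subset h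
  simpa using this

end lin

/-- A space with a natural number valued pseudo-metric. -/
structure NS where
  P : Type
  d : P → P → ℕ
  d_self : ∀ x, d x x = 0
  d_comm : ∀ x y, d x y = d y x
  d_tri : ∀ x y z, d x z ≤ d x y + d y z

@[reducible] def NS.prod (X Y : NS) : NS where
  P := X.P × Y.P
  d p q := X.d p.1 q.1 + Y.d p.2 q.2
  d_self p := by rw [X.d_self, Y.d_self]
  d_comm p q := by rw [X.d_comm, Y.d_comm]
  d_tri p q r := by
    have := X.d_tri p.1 q.1 r.1
    have := Y.d_tri p.2 q.2 r.2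
    omega

@[reducible] def NS.unit : NS where
  P := Unit
  d _ _ := 0
  d_self _ := rfl
  d_comm _ _ := rfl
  d_tri _ _ _ := le_rfl

/-- uniformly bornologous family of maps -/
def Born {I : Type} {Q P : NS} (ι : I → Q.P → P.P) : Prop :=
  ∀ R, ∃ R', ∀ i x y, Q.d x y ≤ R → P.d (ι i x) (ι i y) ≤ R'

/-- uniformly proper family of maps -/
def Prpr {I : Type} {Q P : NS} (ι : I → Q.P → P.P) : Prop :=
  ∀ R', ∃ R, ∀ i x y, P.d (ι i x) (ι i y) ≤ R' → Q.d x y ≤ R

/-- A located cell complex over `P`. -/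
structure LC (P : NS) where
  E : Type
  dim : E → ℕ
  bd : E → (E →₀ F)
  bd_bd : ∀ e, lin bd (bd e) = 0
  bd_dim : ∀ e f, f ∈ (bd e).support → dim f + 1 = dim e
  pt : E → P.P
  sz : E → ℕ
  face_pt : ∀ e f, f ∈ (bd e).support → P.d (pt e) (pt f) ≤ sz e
  face_sz : ∀ e f, f ∈ (bd e).support → sz f ≤ sz e
  dim_le : ∀ e, dim e ≤ sz e

lemma LC.bd_zero {P : NS} (C : LC P) {e : C.E} (h : C.dim e = 0) : C.bd e = 0 := by
  by_contra h0
  obtain ⟨f, hf⟩ := Finsupp.support_nonempty_iff.2 h0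
  have := C.bd_dim e f hf
  omega

lemma LC.lin_bd_bd {P : NS} (C : LC P) (c : C.E →₀ F) : lin C.bd (lin C.bd c) = 0 := by
  rw [lin_lin]
  simp only [C.bd_bd, lin_zero]

@[reducible] noncomputable def LC.prod {P Q : NS} (C : LC P) (R : LC Q) : LC (P.prod Q) where
  E := C.E × R.E
  dim e := C.dim e.1 + R.dim e.2
  bd e := mapDomain (fun a => (a, e.2)) (C.bd e.1) + mapDomain (fun b => (e.1, b)) (R.bd e.2)
  bd_bd e := by
    rw [map_add, lin_mapDomain, lin_mapDomain, lin_add, lin_add]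
    simp only [mapDomain_eq_lin]
    rw [← lin_lin, ← lin_lin, C.bd_bd, R.bd_bd, map_zero, map_zero, zero_add, add_zero,
      lin_comm (fun a b => single (a, b) (1 : F))]
    exact add_self _
  bd_dim e f hf := by
    rcases mem_support_add' hf with h | h
    · obtain ⟨a, ha, rfl⟩ := mem_support_mapDomain h
      have := C.bd_dim _ _ ha
      simp only
      omega
    · obtain ⟨a, ha, rfl⟩ := mem_support_mapDomain h
      have := R.bd_dim _ _ ha
      simp only
      omega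
  pt e := (C.pt e.1, R.pt e.2)
  sz e := C.sz e.1 + R.sz e.2
  face_pt e f hf := by
    rcases mem_support_add' hf with h | h
    · obtain ⟨a, ha, rfl⟩ := mem_support_mapDomain h
      have := C.face_pt _ _ ha
      simp only [Q.d_self]
      omega
    · obtain ⟨a, ha, rfl⟩ := mem_support_mapDomain h
      have := R.face_pt _ _ ha
      simp only [P.d_self]
      omega
  face_sz e f hf := by
    rcases mem_support_add' hf with h | h
    · obtain ⟨a, ha, rfl⟩ := mem_support_mapDomain h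
      have := C.face_sz _ _ ha
      simp only
      omega
    · obtain ⟨a, ha, rfl⟩ := mem_support_mapDomain h
      have := R.face_sz _ _ ha
      simp only
      omega
  dim_le e := Nat.add_le_add (C.dim_le _) (R.dim_le _)

lemma LC.lin_prod_bd {P Q : NS} (C : LC P) (R : LC Q) {D : Type} [AddCommGroup D] [Module F D]
    (φ : (C.prod R).E → D) (a : C.E) (b : R.E) :
    lin φ ((C.prod R).bd (a, b)) =
      lin (fun a' => φ (a', b)) (C.bd a) + lin (fun b' => φ (a, b')) (R.bd b) := by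
  show lin φ (mapDomain (fun a' => (a', b)) (C.bd a) + mapDomain (fun b' => (a, b')) (R.bd b)) = _
  rw [map_add, lin_mapDomain, lin_mapDomain]

@[reducible] noncomputable def LC.unit : LC NS.unit where
  E := Unit
  dim _ := 0
  bd _ := 0
  bd_bd _ := map_zero _
  bd_dim _ _ h := by simp at h
  pt _ := ()
  sz _ := 0
  face_pt _ _ h := by simp at h
  face_sz _ _ h := by simp at h
  dim_le _ := le_rfl

/-- A control structure on a module: graded submodules of the elements near a point. -/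
structure Ctrl (D : Type) [AddCommGroup D] [Module F D] (P : NS) where
  Dg : ℕ → P.P → ℕ → Submodule F D
  mono : ∀ R ρ, ∃ ρ', ∀ k x x', P.d x x' ≤ R → Dg k x ρ ≤ Dg k x' ρ'
  mono' : ∀ k x ρ ρ', ρ ≤ ρ' → Dg k x ρ ≤ Dg k x ρ'

section maps

variable {D : Type} [AddCommGroup D] [Module F D] {P Q : NS}

def Ctl (C : LC P) (T : Ctrl D P) (j : ℕ) (φ : C.E → D) : Prop :=
  ∀ s, ∃ ρ, ∀ e, C.sz e ≤ s → φ e ∈ T.Dg (C.dim e + j) (C.pt e) ρ

def IsChain (C : LC P) (δ : D →ₗ[F] D) (φ : C.E → D) : Prop :=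
  ∀ e, δ (φ e) = lin φ (C.bd e)

def Null (C : LC P) (T : Ctrl D P) (δ : D →ₗ[F] D) (j : ℕ) (φ : C.E → D) : Prop :=
  ∃ h : C.E → D, Ctl C T (j + 1) h ∧ ∀ e, φ e = δ (h e) + lin h (C.bd e)

lemma Ctl.add {C : LC P} {T : Ctrl D P} {j : ℕ} {φ ψ : C.E → D} (h1 : Ctl C T j φ)
    (h2 : Ctl C T j ψ) : Ctl C T j (fun e => φ e + ψ e) := by
  intro s
  obtain ⟨ρ1, h1⟩ := h1 s
  obtain ⟨ρ2, h2⟩ := h2 s
  exact ⟨max ρ1 ρ2, fun e he => Submodule.add_mem _
    (T.mono' _ _ _ _ (le_max_left _ _) (h1 e he)) (T.mono' _ _ _ _ (le_max_right _ _) (h2 e he))⟩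

/-- the image of the boundary of a cell is controlled -/
lemma lin_bd_mem {C : LC P} {T : Ctrl D P} {j k s ρ : ℕ} {φ : C.E → D}
    (h : ∀ e, C.dim e ≤ k → C.sz e ≤ s → φ e ∈ T.Dg (C.dim e + j) (C.pt e) ρ) :
    ∃ ρ', ∀ e, C.dim e = k + 1 → C.sz e ≤ s → lin φ (C.bd e) ∈ T.Dg (k + j) (C.pt e) ρ' := by
  obtain ⟨ρ', hρ⟩ := T.mono s ρ
  refine ⟨ρ', fun e he hs => lin_mem fun f hf => ?_⟩
  have h1 := C.bd_dim e f hf
  have h2 := C.face_pt e f hf
  have h3 := C.face_sz e f hf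
  have h4 := h f (by omega) (by omega)
  rw [show C.dim f = k by omega] at h4
  exact hρ _ _ _ (by rw [P.d_comm]; omega) h4

def Ctrl.comap (T : Ctrl D P) (g : Q.P → P.P) (hg : Born (fun _ : Unit => g)) : Ctrl D Q where
  Dg k x ρ := T.Dg k (g x) ρ
  mono R ρ := by
    obtain ⟨R', hR⟩ := hg R
    obtain ⟨ρ', hρ⟩ := T.mono R' ρ
    exact ⟨ρ', fun k x x' h => hρ _ _ _ (hR () _ _ h)⟩
  mono' k x ρ ρ' h := T.mono' _ _ _ _ h

def Ctrl.pull (T : Ctrl D P) {I : Type} (ι : I → Q.P → P.P) (hι : Born ι) : Ctrl (I → D) Q where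
  Dg k x ρ := Submodule.pi Set.univ fun i => T.Dg k (ι i x) ρ
  mono R ρ := by
    obtain ⟨R', hR⟩ := hι R
    obtain ⟨ρ', hρ⟩ := T.mono R' ρ
    exact ⟨ρ', fun k x x' h ψ hψ i _ => hρ _ _ _ (hR i _ _ h) (hψ i trivial)⟩
  mono' k x ρ ρ' h := fun ψ hψ i _ => T.mono' _ _ _ _ h (hψ i trivial)

lemma Ctrl.mem_pull (T : Ctrl D P) {I : Type} (ι : I → Q.P → P.P) (hι : Born ι) (k : ℕ) (x : Q.P)
    (ρ : ℕ) (ψ : I → D) : ψ ∈ (T.pull ι hι).Dg k x ρ ↔ ∀ i, ψ i ∈ T.Dg k (ι i x) ρ :=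
  ⟨fun h i => h i trivial, fun h i _ => h i⟩

def piBd (δ : D →ₗ[F] D) (I : Type) : (I → D) →ₗ[F] (I → D) where
  toFun ψ i := δ (ψ i)
  map_add' a b := by ext i; simp
  map_smul' a b := by ext i; simp

@[simp] lemma piBd_apply (δ : D →ₗ[F] D) (I : Type) (ψ : I → D) (i : I) :
    piBd δ I ψ i = δ (ψ i) := rfl

def Ctrl.hom (T : Ctrl D (P.prod Q)) (R : LC Q) : Ctrl (R.E → D) P where
  Dg k x ρ := Submodule.pi Set.univ fun r => T.Dg (R.dim r + k) (x, R.pt r) ρ
  mono R' ρ := by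
    obtain ⟨ρ', hρ⟩ := T.mono R' ρ
    exact ⟨ρ', fun k x x' h ψ hψ r _ => hρ _ _ _
      (by simpa [NS.prod, Q.d_self] using h) (hψ r trivial)⟩
  mono' k x ρ ρ' h := fun ψ hψ i _ => T.mono' _ _ _ _ h (hψ i trivial)

lemma Ctrl.mem_hom (T : Ctrl D (P.prod Q)) (R : LC Q) (k : ℕ) (x : P.P)
    (ρ : ℕ) (ψ : R.E → D) :
    ψ ∈ (T.hom R).Dg k x ρ ↔ ∀ r, ψ r ∈ T.Dg (R.dim r + k) (x, R.pt r) ρ :=
  ⟨fun h i => h i trivial, fun h i _ => h i⟩

noncomputable def homBd (δ : D →ₗ[F] D) (R : LC Q) : (R.E → D) →ₗ[F] (R.E → D) where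
  toFun ψ r := δ (ψ r) + lin ψ (R.bd r)
  map_add' a b := by
    ext r
    simp only [Pi.add_apply, map_add]
    rw [show lin (a + b) (R.bd r) = lin a (R.bd r) + lin b (R.bd r) from lin_add a b _]
    abel
  map_smul' a b := by
    ext r
    simp only [Pi.smul_apply, map_smul, RingHom.id_apply, smul_add]
    congr 1
    exact (map_lin (LinearMap.lsmul F D a) b (R.bd r)).symm

lemma homBd_apply (δ : D →ₗ[F] D) (R : LC Q) (ψ : R.E → D) (r : R.E) :
    homBd δ R ψ r = δ (ψ r) + lin ψ (R.bd r) := rfl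

lemma homBd_sq {δ : D →ₗ[F] D} (hδ : ∀ x, δ (δ x) = 0) (R : LC Q) (ψ : R.E → D) :
    homBd δ R (homBd δ R ψ) = 0 := by
  ext r
  rw [homBd_apply, homBd_apply, map_add, hδ, zero_add, map_lin]
  have : lin (homBd δ R ψ) (R.bd r) =
      lin (fun e => δ (ψ e)) (R.bd r) + lin (fun e => lin ψ (R.bd e)) (R.bd r) := lin_add _ _ _
  rw [this, ← lin_lin, R.bd_bd, map_zero, add_zero]
  exact add_self _

lemma piBd_sq {δ : D →ₗ[F] D} (hδ : ∀ x, δ (δ x) = 0) (I : Type) (ψ : I → D) :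
    piBd δ I (piBd δ I ψ) = 0 := by
  ext i
  simp [hδ]

/-- uniform filling of cycles of degree `m` -/
def Fill (T : Ctrl D P) (δ : D →ₗ[F] D) (m : ℕ) : Prop :=
  ∀ ρ, ∃ ρ', ∀ x, ∀ z ∈ T.Dg m x ρ, δ z = 0 → ∃ w ∈ T.Dg (m + 1) x ρ', δ w = z

omit [AddCommGroup D] [Module F D] in
lemma stagewise {E : Type} (dim : E → ℕ) (k0 : ℕ) (S : ℕ → (E → D) → Prop) (φ0 : E → D)
    (h0 : S k0 φ0)
    (hs : ∀ k φ, k0 ≤ k → S k φ → ∃ φ', S (k + 1) φ' ∧ ∀ e, dim e ≤ k → φ' e = φ e) :
    ∃ φ : E → D, (∀ e, dim e ≤ k0 → φ e = φ0 e) ∧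
      ∀ k, k0 ≤ k → ∃ φ', S k φ' ∧ ∀ e, dim e ≤ k → φ e = φ' e := by
  choose! nx hnx using hs
  let sq : ℕ → E → D := fun n => Nat.rec φ0 (fun m ψ => nx (k0 + m) ψ) n
  have hsq : ∀ n, S (k0 + n) (sq n) := by
    intro n
    induction n with
    | zero => exact h0
    | succ n ih => exact (hnx (k0 + n) (sq n) (by omega) ih).1
  have hst : ∀ n m e, dim e ≤ k0 + n → sq (n + m) e = sq n e := by
    intro n m e he
    induction m with
    | zero => rfl
    | succ m ih =>
      rw [← ih]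
      exact (hnx (k0 + (n + m)) (sq (n + m)) (by omega) (hsq _)).2 e (by omega)
  refine ⟨fun e => sq (dim e) e, fun e he => ?_, fun k hk => ?_⟩
  · have := hst 0 (dim e) e (by omega)
    rw [zero_add] at this
    exact this
  · obtain ⟨n, rfl⟩ := Nat.exists_eq_add_of_le hk
    refine ⟨sq n, hsq n, fun e he => ?_⟩
    have h1 := hst n (dim e) e he
    have h2 := hst (dim e) n e (by omega)
    rw [add_comm] at h2
    rw [← h1, h2]

/-- Extension over the skeleta when cycles can be filled uniformly. -/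
theorem extend (C : LC P) (T : Ctrl D P) (δ : D →ₗ[F] D) (j k0 : ℕ) (φ0 : C.E → D)
    (hc : ∀ s, ∃ ρ, ∀ e, C.dim e ≤ k0 → C.sz e ≤ s → φ0 e ∈ T.Dg (C.dim e + j) (C.pt e) ρ)
    (hch : ∀ e, C.dim e ≤ k0 → δ (φ0 e) = lin φ0 (C.bd e))
    (hf : ∀ a, k0 ≤ a → Fill T δ (a + j)) :
    ∃ φ : C.E → D, Ctl C T j φ ∧ IsChain C δ φ ∧ ∀ e, C.dim e ≤ k0 → φ e = φ0 e := by
  classical
  let S : ℕ → (C.E → D) → Prop := fun k φ =>
    (∀ s, ∃ ρ, ∀ e, C.dim e ≤ k → C.sz e ≤ s → φ e ∈ T.Dg (C.dim e + j) (C.pt e) ρ) ∧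
      ∀ e, C.dim e ≤ k → δ (φ e) = lin φ (C.bd e)
  have hs : ∀ k φ, k0 ≤ k → S k φ → ∃ φ', S (k + 1) φ' ∧ ∀ e, C.dim e ≤ k → φ' e = φ e := by
    rintro k φ hk ⟨h1, h2⟩
    have key : ∀ s, ∃ ρ', ∀ e, C.dim e = k + 1 → C.sz e ≤ s →
        ∃ w ∈ T.Dg (k + j + 1) (C.pt e) ρ', δ w = lin φ (C.bd e) := by
      intro s
      obtain ⟨ρ, hρ⟩ := h1 s
      obtain ⟨ρ1, hρ1⟩ := lin_bd_mem (k := k) hρ
      obtain ⟨ρ2, hρ2⟩ := hf k hk ρ1
      refine ⟨ρ2, fun e he hs => hρ2 _ _ (hρ1 e he hs) ?_⟩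
      rw [map_lin, lin_congr (ψ := fun f => lin φ (C.bd f)), ← lin_lin, C.bd_bd, map_zero]
      intro f hf
      have := C.bd_dim e f hf
      exact h2 f (by omega)
    choose ρ' hρ' using key
    have key2 : ∀ e, ∃ w, C.dim e = k + 1 →
        w ∈ T.Dg (k + j + 1) (C.pt e) (ρ' (C.sz e)) ∧ δ w = lin φ (C.bd e) := by
      intro e
      by_cases he : C.dim e = k + 1
      · obtain ⟨w, hw, hw2⟩ := hρ' (C.sz e) e he le_rfl
        exact ⟨w, fun _ => ⟨hw, hw2⟩⟩
      · exact ⟨0, fun h => absurd h he⟩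
    choose w hw using key2
    have hbd : ∀ e, C.dim e ≤ k + 1 →
        lin (fun e => if C.dim e = k + 1 then w e else φ e) (C.bd e) = lin φ (C.bd e) := by
      intro e he
      refine lin_congr fun f hf => ?_
      have := C.bd_dim e f hf
      rw [if_neg (by omega)]
    refine ⟨fun e => if C.dim e = k + 1 then w e else φ e, ⟨fun s => ?_, fun e he => ?_⟩,
      fun e he => if_neg (by omega)⟩
    · obtain ⟨ρ, hρ⟩ := h1 s
      refine ⟨max ρ ((Finset.range (s + 1)).sup ρ'), fun e he hs => ?_⟩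
      by_cases h : C.dim e = k + 1
      · simp only [if_pos h]
        rw [show C.dim e + j = k + j + 1 by omega]
        refine T.mono' _ _ _ _ (le_trans ?_ (le_max_right _ _)) (hw e h).1
        exact Finset.le_sup (f := ρ') (Finset.mem_range.2 (by omega))
      · simp only [if_neg h]
        exact T.mono' _ _ _ _ (le_max_left _ _) (hρ e (by omega) hs)
    · rw [hbd e he]
      by_cases h : C.dim e = k + 1
      · simp only [if_pos h]
        exact (hw e h).2
      · simp only [if_neg h]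
        exact h2 e (by omega)
  obtain ⟨φ, h1, h2⟩ := stagewise C.dim k0 S φ0 ⟨hc, hch⟩ hs
  refine ⟨φ, fun s => ?_, fun e => ?_, h1⟩
  · obtain ⟨φ', ⟨h3, -⟩, h4⟩ := h2 (k0 + s) (by omega)
    obtain ⟨ρ, hρ⟩ := h3 s
    refine ⟨ρ, fun e he => ?_⟩
    have := C.dim_le e
    rw [h4 e (by omega)]
    exact hρ e (by omega) he
  · obtain ⟨φ', ⟨-, h3⟩, h4⟩ := h2 (k0 + C.dim e) (by omega)
    rw [h4 e (by omega), h3 e (by omega)]
    refine lin_congr fun f hf => ?_
    have := C.bd_dim e f hf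
    exact (h4 f (by omega)).symm

section curry

variable {C : LC P} {R : LC Q} {T : Ctrl D (P.prod Q)} {δ : D →ₗ[F] D} {j : ℕ}

lemma ctl_curry {s0 : ℕ} (hR : ∀ r, R.sz r ≤ s0) (φ : C.E → R.E → D) :
    Ctl (C.prod R) T j (fun e => φ e.1 e.2) ↔ Ctl C (T.hom R) j φ := by
  constructor
  · intro h s
    obtain ⟨ρ, hρ⟩ := h (s + s0)
    refine ⟨ρ, fun e he => (T.mem_hom R _ _ _ _).2 fun r => ?_⟩
    have := hρ (e, r) (by have := hR r; simp only; omega)
    rw [show R.dim r + (C.dim e + j) = C.dim e + R.dim r + j by omega]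
    exact this
  · intro h s
    obtain ⟨ρ, hρ⟩ := h s
    refine ⟨ρ, fun e he => ?_⟩
    have := (T.mem_hom R _ _ _ _).1 (hρ e.1 (by simp only at he; omega)) e.2
    rw [show R.dim e.2 + (C.dim e.1 + j) = C.dim e.1 + R.dim e.2 + j by omega] at this
    exact this

lemma eq_add_iff {a b c : D} : a = b + c ↔ a + c = b := by
  constructor
  · rintro rfl
    rw [add_assoc, add_self, add_zero]
  · rintro rfl
    rw [add_assoc, add_self, add_zero]

lemma chain_curry (φ : C.E → R.E → D) :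
    IsChain (C.prod R) δ (fun e => φ e.1 e.2) ↔ IsChain C (homBd δ R) φ := by
  constructor
  · intro h e
    ext r
    have := h (e, r)
    rw [LC.lin_prod_bd] at this
    rw [homBd_apply, lin_apply, ← eq_add_iff]
    exact this
  · rintro h ⟨e, r⟩
    have := congrFun (h e) r
    rw [homBd_apply, lin_apply, ← eq_add_iff] at this
    rw [LC.lin_prod_bd]
    exact this

lemma null_curry {s0 : ℕ} (hR : ∀ r, R.sz r ≤ s0) (φ : C.E → R.E → D) :
    Null (C.prod R) T δ j (fun e => φ e.1 e.2) ↔ Null C (T.hom R) (homBd δ R) j φ := by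
  constructor
  · rintro ⟨h, h1, h2⟩
    refine ⟨fun e r => h (e, r), (ctl_curry hR (fun e r => h (e, r))).1 h1, fun e => ?_⟩
    ext r
    have := h2 (e, r)
    rw [LC.lin_prod_bd] at this
    rw [Pi.add_apply, homBd_apply, lin_apply]
    simp only at this
    rw [this]
    abel
  · rintro ⟨h, h1, h2⟩
    refine ⟨fun e => h e.1 e.2, (ctl_curry hR h).2 h1, ?_⟩
    rintro ⟨e, r⟩
    have := congrFun (h2 e) r
    rw [Pi.add_apply, homBd_apply, lin_apply] at this
    rw [LC.lin_prod_bd]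
    simp only
    rw [this]
    abel

end curry

/-- a cell complex controls its own chains -/
def LC.ctrl (C : LC P) : Ctrl (C.E →₀ F) P where
  Dg k x ρ := Finsupp.supported F F {e | C.dim e = k ∧ P.d x (C.pt e) ≤ ρ ∧ C.sz e ≤ ρ}
  mono R ρ := ⟨R + ρ, fun k x x' h => Finsupp.supported_mono fun e he => by
    obtain ⟨h1, h2, h3⟩ := he
    have := P.d_tri x' x (C.pt e)
    rw [P.d_comm x' x] at this
    exact ⟨h1, by omega, by omega⟩⟩
  mono' k x ρ ρ' h := Finsupp.supported_mono fun e he => by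
    obtain ⟨h1, h2, h3⟩ := he
    exact ⟨h1, by omega, by omega⟩

lemma LC.mem_ctrl (C : LC P) (k : ℕ) (x : P.P) (ρ : ℕ) (c : C.E →₀ F) :
    c ∈ C.ctrl.Dg k x ρ ↔
      ∀ e ∈ c.support, C.dim e = k ∧ P.d x (C.pt e) ≤ ρ ∧ C.sz e ≤ ρ := by
  show c ∈ Finsupp.supported F F _ ↔ _
  rw [Finsupp.mem_supported]
  exact ⟨fun h e he => h he, fun h e he => h e he⟩

lemma LC.single_mem_ctrl (C : LC P) {k : ℕ} {x : P.P} {ρ : ℕ} {e : C.E} (h1 : C.dim e = k)
    (h2 : P.d x (C.pt e) ≤ ρ) (h3 : C.sz e ≤ ρ) : single e (1 : F) ∈ C.ctrl.Dg k x ρ := by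
  rw [C.mem_ctrl]
  intro f hf
  rw [mem_support_single' hf]
  exact ⟨h1, h2, h3⟩

/-- a controlled map applied to controlled chains -/
lemma Ctl.lin_mem {C : LC P} {T : Ctrl D P} {j : ℕ} {φ : C.E → D} (h : Ctl C T j φ) (ρ : ℕ) :
    ∃ ρ', ∀ k x, ∀ c ∈ C.ctrl.Dg k x ρ, lin φ c ∈ T.Dg (k + j) x ρ' := by
  obtain ⟨ρ1, h1⟩ := h ρ
  obtain ⟨ρ2, h2⟩ := T.mono ρ ρ1
  refine ⟨ρ2, fun k x c hc => FDC.lin_mem fun e he => ?_⟩
  obtain ⟨h3, h4, h5⟩ := (C.mem_ctrl _ _ _ _).1 hc e he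
  rw [← h3]
  exact h2 _ _ _ (by rw [P.d_comm]; exact h4) (h1 e h5)

lemma IsChain.lin {C : LC P} {δ : D →ₗ[F] D} {φ : C.E → D} (h : IsChain C δ φ) (c : C.E →₀ F) :
    δ (lin φ c) = lin φ (lin C.bd c) := by
  rw [map_lin, lin_lin]
  exact lin_congr fun e _ => h e

end maps

end Pool.Agent.H357Z.FDC
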