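import Mathlib

set_option autoImplicit false

/-!
Decomposition complexity of families of subspaces of a space with distance function `d`,
word metrics, proper left-invariant metrics, property A, and the Grigorchuk generators.
-/

namespace Pool.Agent.H357Z.FDC

section Metric

variable {X : Type}

/-- The diameters of the members of the family are uniformly bounded. -/
def BoundedFamily (d : X → X → ℝ) (𝒳 : Set (Set X)) : Prop :=
  ∃ B : ℝ, ∀ U ∈ 𝒳, ∀ x ∈ U, ∀ y ∈ U, d x y ≤ B

/-- Points of different members of the family are more than `r` apart. -/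
def RDisjoint (d : X → X → ℝ) (r : ℝ) (𝒰 : Set (Set X)) : Prop :=
  ∀ U ∈ 𝒰, ∀ V ∈ 𝒰, U ≠ V → ∀ x ∈ U, ∀ y ∈ V, r < d x y

/-- Every member of `𝒳` is a union of `n + 1` sets, each an `r`-disjoint union of members
of `𝒴`. -/
def DecomposableOver (d : X → X → ℝ) (r : ℝ) (n : ℕ) (𝒳 𝒴 : Set (Set X)) : Prop :=
  ∀ U ∈ 𝒳, ∃ 𝒰 : Fin (n + 1) → Set (Set X),
    (∀ i, 𝒰 i ⊆ 𝒴 ∧ RDisjoint d r (𝒰 i)) ∧ U = ⋃ i, ⋃₀ 𝒰 i

/-- Membership in the smallest collection of families that contains all bounded families and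
contains `𝒴` whenever, for some `n ∈ A`, for every `r > 0` the family `𝒴` is
`(r, n)`-decomposable over a member of the collection. `A = {1}` is finite decomposition
complexity; `A = Set.univ` (or the set of `n ≥ 1`) is weak finite decomposition complexity. -/
def DecClass (A : Set ℕ) (d : X → X → ℝ) (𝒳 : Set (Set X)) : Prop :=
  ∀ ℭ : Set (Set (Set X)), (∀ 𝒴, BoundedFamily d 𝒴 → 𝒴 ∈ ℭ) →
    (∀ 𝒴, (∃ n ∈ A, ∀ r : ℝ, 0 < r → ∃ 𝒵 ∈ ℭ, DecomposableOver d r n 𝒴 𝒵) → 𝒴 ∈ ℭ) → 𝒳 ∈ ℭ

end Metric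

/-- Word length: the least length of a word in `S ∪ S⁻¹` with product `g`. -/
noncomputable def wordLength {G : Type} [Group G] (S : Finset G) (g : G) : ℕ :=
  sInf {n : ℕ | ∃ l : List G, l.length = n ∧ (∀ s ∈ l, s ∈ S ∨ s⁻¹ ∈ S) ∧ l.prod = g}

/-- The word metric of `S`. -/
noncomputable def wordDist {G : Type} [Group G] (S : Finset G) (g h : G) : ℝ :=
  (wordLength S (g⁻¹ * h) : ℝ)

/-- `d` is a proper left-invariant metric on the group `G`. -/
structure IsProperInvMetric {G : Type} [Group G] (d : G → G → ℝ) : Prop where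
  eq_zero_iff : ∀ x y, d x y = 0 ↔ x = y
  symm : ∀ x y, d x y = d y x
  triangle : ∀ x y z, d x z ≤ d x y + d y z
  invariant : ∀ g x y, d (g * x) (g * y) = d x y
  proper : ∀ (x : G) (R : ℝ), {y | d x y ≤ R}.Finite

/-- Yu's property A: unit vectors of `ℓ¹` with uniformly bounded supports that vary slowly. -/
def PropertyA {X : Type} (d : X → X → ℝ) : Prop :=
  ∀ R : ℝ, 0 < R → ∀ ε : ℝ, 0 < ε → ∃ S : ℝ, 0 < S ∧ ∃ ξ : X → lp (fun _ : X => ℝ) 1,
    (∀ x, ‖ξ x‖ = 1) ∧ (∀ x y, ξ x y ≠ 0 → d x y ≤ S) ∧ ∀ x y, d x y ≤ R → ‖ξ x - ξ y‖ < ε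

/-- The binary sequence with first letter `x` followed by `w`. -/
def scons (x : Bool) (w : ℕ → Bool) : ℕ → Bool
  | 0 => x
  | n + 1 => w n

/-- The defining recursion of the generators of the first Grigorchuk group, as permutations of
the binary sequences (`false` is the letter 0 and `true` is the letter 1). -/
structure IsGrigGens (a b c d : Equiv.Perm (ℕ → Bool)) : Prop where
  a0 : ∀ w, a (scons false w) = scons true w
  a1 : ∀ w, a (scons true w) = scons false w
  b0 : ∀ w, b (scons false w) = scons false (a w)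
  b1 : ∀ w, b (scons true w) = scons true (c w)
  c0 : ∀ w, c (scons false w) = scons false (a w)
  c1 : ∀ w, c (scons true w) = scons true (d w)
  d0 : ∀ w, d (scons false w) = scons false w
  d1 : ∀ w, d (scons true w) = scons true (b w)

end Pool.Agent.H357Z.FDC
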