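import Mathlib
import Pool.Agent.H357Z.FDC.Basic

set_option autoImplicit false

/-!
The graph complex and the full simplicial complex of a geodesic space.
-/

namespace Pool.Agent.H357Z.FDC

open Finsupp

def Geo (X : NS) : Prop :=
  ∀ n x y, X.d x y ≤ n + 1 → ∃ z, X.d x z ≤ 1 ∧ X.d z y ≤ n

abbrev Edge (X : NS) : Type := {p : X.P × X.P // X.d p.1 p.2 ≤ 1}

noncomputable def sbd (X : NS) : X.P ⊕ Edge X → (X.P ⊕ Edge X →₀ F)
  | Sum.inl _ => 0
  | Sum.inr p => single (Sum.inl p.1.1) 1 + single (Sum.inl p.1.2) 1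

def sdim (X : NS) : X.P ⊕ Edge X → ℕ
  | Sum.inl _ => 0
  | Sum.inr _ => 1

def spt (X : NS) : X.P ⊕ Edge X → X.P
  | Sum.inl x => x
  | Sum.inr p => p.1.1

lemma sbd_support {X : NS} {p : Edge X} {f : X.P ⊕ Edge X} (h : f ∈ (sbd X (Sum.inr p)).support) :
    f = Sum.inl p.1.1 ∨ f = Sum.inl p.1.2 := by
  rcases mem_support_add' h with h | h
  exacts [Or.inl (mem_support_single' h), Or.inr (mem_support_single' h)]

/-- the graph complex -/
@[reducible] noncomputable def Sg (X : NS) : LC X where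
  E := X.P ⊕ Edge X
  dim := sdim X
  bd := sbd X
  bd_bd e := by
    rcases e with x | p
    · simp [sbd]
    · simp [sbd]
  bd_dim e f hf := by
    rcases e with x | p
    · simp [sbd] at hf
    · rcases sbd_support hf with rfl | rfl <;> rfl
  pt := spt X
  sz _ := 1
  face_pt e f hf := by
    rcases e with x | p
    · simp [sbd] at hf
    · rcases sbd_support hf with rfl | rfl
      · simp [spt, X.d_self]
      · exact p.2
  face_sz _ _ _ := le_rfl
  dim_le e := by rcases e with x | p <;> simp [sdim]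

lemma lin_sbd {X : NS} {D : Type} [AddCommGroup D] [Module F D] (φ : X.P ⊕ Edge X → D)
    (p : Edge X) : lin φ (sbd X (Sum.inr p)) = φ (Sum.inl p.1.1) + φ (Sum.inl p.1.2) := by
  simp [sbd]

lemma exists_path {X : NS} (hX : Geo X) (n : ℕ) (x y : X.P) (h : X.d x y ≤ n) :
    ∃ c ∈ (Sg X).ctrl.Dg 1 x (n + 1),
      lin (sbd X) c = single (Sum.inl x) 1 + single (Sum.inl y) 1 := by
  induction n generalizing x with
  | zero =>
    refine ⟨single (Sum.inr ⟨(x, y), by simp only; omega⟩) 1,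
      (Sg X).single_mem_ctrl rfl (by simp [spt, X.d_self]) le_rfl, by simp [sbd]⟩
  | succ n ih =>
    obtain ⟨z, h1, h2⟩ := hX n x y h
    obtain ⟨c, hc, hc2⟩ := ih z h2
    refine ⟨single (Sum.inr ⟨(x, z), h1⟩) 1 + c, Submodule.add_mem _
      ((Sg X).single_mem_ctrl rfl (by simp [spt, X.d_self]) (by simp)) ?_, ?_⟩
    · rw [LC.mem_ctrl] at hc ⊢
      intro e he
      obtain ⟨h3, h4, h5⟩ := hc e he
      have := X.d_tri x z ((Sg X).pt e)
      exact ⟨h3, by omega, by omega⟩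
    · rw [map_add, hc2, lin_single]
      simp only [sbd]
      rw [add_assoc, ← add_assoc (single (Sum.inl z) (1 : F)), add_self, zero_add]

section full

variable {P : Type}

noncomputable def cone (a : P) (c : List P →₀ F) : List P →₀ F := mapDomain (fun l => a :: l) c

noncomputable def abd : List P → (List P →₀ F)
  | [] => 0
  | a :: l => single l 1 + cone a (abd l)

noncomputable def cbd (l : List P) : List P →₀ F := if l.length ≤ 1 then 0 else abd l

lemma abd_support {l f : List P} (h : f ∈ (abd l).support) :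
    f.length + 1 = l.length ∧ ∀ x ∈ f, x ∈ l := by
  induction l generalizing f with
  | nil => simp [abd] at h
  | cons a l ih =>
    rcases mem_support_add' h with h | h
    · rw [mem_support_single' h]
      exact ⟨rfl, fun x hx => List.mem_cons_of_mem _ hx⟩
    · obtain ⟨g, hg, rfl⟩ := mem_support_mapDomain h
      obtain ⟨h1, h2⟩ := ih hg
      refine ⟨by simp [h1], fun x hx => ?_⟩
      rcases List.mem_cons.1 hx with rfl | hx
      exacts [List.mem_cons_self, List.mem_cons_of_mem _ (h2 x hx)]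

lemma lin_abd_cone (a : P) (c : List P →₀ F) :
    lin abd (cone a c) = c + cone a (lin abd c) := by
  rw [cone, lin_mapDomain]
  simp only [abd]
  rw [lin_add, lin_single_id]
  congr 1
  exact (map_lin (Finsupp.lmapDomain F F (fun l => a :: l)) abd c).symm

lemma lin_abd_abd (l : List P) : lin abd (abd l) = 0 := by
  induction l with
  | nil => simp [abd]
  | cons a l ih =>
    rw [abd, map_add, lin_single, lin_abd_cone, ih, ← add_assoc, add_self]
    simp [cone]

lemma lin_cbd_of_ge {c : List P →₀ F} (h : ∀ l ∈ c.support, 2 ≤ l.length) :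
    lin cbd c = lin abd c :=
  lin_congr fun l hl => by rw [cbd, if_neg (by have := h l hl; omega)]

lemma lin_cbd_of_le {c : List P →₀ F} (h : ∀ l ∈ c.support, l.length ≤ 1) :
    lin cbd c = 0 := by
  rw [lin_congr (ψ := fun _ => 0) fun l hl => by rw [cbd, if_pos (h l hl)], lin_zero]

lemma cbd_support {l f : List P} (h : f ∈ (cbd l).support) :
    2 ≤ l.length ∧ f.length + 1 = l.length ∧ ∀ x ∈ f, x ∈ l := by
  unfold cbd at h
  split_ifs at h with h1
  · simp at h
  · exact ⟨by omega, abd_support h⟩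

lemma lin_cbd_cbd (l : List P) : lin cbd (cbd l) = 0 := by
  by_cases h : l.length ≤ 2
  · exact lin_cbd_of_le fun f hf => by have := cbd_support hf; omega
  · rw [lin_cbd_of_ge fun f hf => by have := cbd_support hf; omega, cbd, if_neg (by omega),
      lin_abd_abd]

lemma cbd_pair (a b : P) : cbd [a, b] = single [a] 1 + single [b] 1 := by
  simp [cbd, abd, cone, add_comm]

end full

open Classical in
noncomputable def ldiam (X : NS) (l : List X.P) : ℕ :=
  (l.toFinset ×ˢ l.toFinset).sup fun p => X.d p.1 p.2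

lemma ldiam_le {X : NS} {l : List X.P} {R : ℕ} :
    ldiam X l ≤ R ↔ ∀ x ∈ l, ∀ y ∈ l, X.d x y ≤ R := by
  classical
  simp only [ldiam, Finset.sup_le_iff, Finset.mem_product, List.mem_toFinset]
  exact ⟨fun h x hx y hy => h (x, y) ⟨hx, hy⟩, fun h p hp => h _ hp.1 _ hp.2⟩

lemma le_ldiam {X : NS} {l : List X.P} {x y : X.P} (hx : x ∈ l) (hy : y ∈ l) :
    X.d x y ≤ ldiam X l := ldiam_le.1 le_rfl x hx y hy

lemma headD_mem {P : Type} {l : List P} (x0 : P) (h : 1 ≤ l.length) : l.headD x0 ∈ l := by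
  rcases l with _ | ⟨a, l⟩
  · simp at h
  · simp

/-- the full simplicial complex -/
@[reducible] noncomputable def Cf (X : NS) (x0 : X.P) : LC X where
  E := List X.P
  dim l := l.length - 1
  bd := cbd
  bd_bd := lin_cbd_cbd
  bd_dim e f hf := by
    have := cbd_support hf
    omega
  pt l := l.headD x0
  sz l := l.length + ldiam X l
  face_pt e f hf := by
    obtain ⟨h1, h2, h3⟩ := cbd_support hf
    have := le_ldiam (headD_mem (l := e) x0 (by omega)) (h3 _ (headD_mem (l := f) x0 (by omega)))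
    omega
  face_sz e f hf := by
    obtain ⟨h1, h2, h3⟩ := cbd_support hf
    have : ldiam X f ≤ ldiam X e := ldiam_le.2 fun x hx y hy => le_ldiam (h3 x hx) (h3 y hy)
    omega
  dim_le e := by omega

lemma cone_mem {X : NS} (x0 : X.P) {m ρ : ℕ} {x : X.P} {z : List X.P →₀ F}
    (hz : z ∈ (Cf X x0).ctrl.Dg m x ρ) (hl : ∀ l ∈ z.support, 1 ≤ l.length) :
    cone x z ∈ (Cf X x0).ctrl.Dg (m + 1) x (3 * ρ + 1) := by
  rw [LC.mem_ctrl] at hz ⊢
  intro e he
  obtain ⟨l, hl', rfl⟩ := mem_support_mapDomain he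
  obtain ⟨h1, h2, h3⟩ := hz l hl'
  have h4 := hl l hl'
  simp only at h1 h2 h3
  refine ⟨by simp only [List.length_cons]; omega, by simp [X.d_self], ?_⟩
  have h5 : ∀ y ∈ l, X.d x y ≤ 2 * ρ := fun y hy => by
    have h6 := le_ldiam (headD_mem (l := l) x0 h4) hy
    have := X.d_tri x (l.headD x0) y
    omega
  have : ldiam X (x :: l) ≤ 2 * ρ := by
    refine ldiam_le.2 fun a ha b hb => ?_
    rcases List.mem_cons.1 ha with ha' | ha' <;> rcases List.mem_cons.1 hb with hb' | hb'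
    · simp [ha', hb', X.d_self]
    · rw [ha']; exact h5 _ hb'
    · rw [hb', X.d_comm]; exact h5 _ ha'
    · have := le_ldiam ha' hb'
      omega
  simp only [List.length_cons]
  omega

lemma lin_cbd_cone {P : Type} (x : P) {z : List P →₀ F} (hl : ∀ l ∈ z.support, 1 ≤ l.length)
    (h : lin abd z = 0) : lin cbd (cone x z) = z := by
  rw [lin_cbd_of_ge, lin_abd_cone, h]
  · simp [cone]
  · intro l hl'
    obtain ⟨l', h1, rfl⟩ := mem_support_mapDomain hl'
    have := hl l' h1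
    simp only [List.length_cons]
    omega

lemma fill_full (X : NS) (x0 : X.P) (m : ℕ) (hm : 1 ≤ m) :
    Fill (Cf X x0).ctrl (lin cbd) m := by
  intro ρ
  refine ⟨3 * ρ + 1, fun x z hz h0 => ?_⟩
  have hl : ∀ l ∈ z.support, 2 ≤ l.length := fun l hl => by
    have := (((Cf X x0).mem_ctrl _ _ _ _).1 hz l hl).1
    simp only at this
    omega
  have hl' : ∀ l ∈ z.support, 1 ≤ l.length := fun l h => by have := hl l h; omega
  exact ⟨cone x z, cone_mem x0 hz hl', lin_cbd_cone x hl' (by rw [← lin_cbd_of_ge hl, h0])⟩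

lemma Fill.comap {D : Type} [AddCommGroup D] [Module F D] {P Q : NS} {T : Ctrl D P}
    {δ : D →ₗ[F] D} {m : ℕ} (h : Fill T δ m) (g : Q.P → P.P) (hg : Born (fun _ : Unit => g)) :
    Fill (T.comap g hg) δ m := fun ρ => by
  obtain ⟨ρ', hρ⟩ := h ρ
  exact ⟨ρ', fun x z hz h0 => hρ (g x) z hz h0⟩

def incl {X : NS} : X.P ⊕ Edge X → List X.P
  | Sum.inl x => [x]
  | Sum.inr p => [p.1.1, p.1.2]

lemma lin_cbd_incl {X : NS} {D : Type} [AddCommGroup D] [Module F D] (φ : List X.P → D)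
    (e : X.P ⊕ Edge X) : lin φ (cbd (incl e)) = lin (fun f => φ (incl f)) (sbd X e) := by
  rcases e with x | p
  · simp [incl, cbd, sbd]
  · simp [incl, cbd_pair, sbd]

lemma incl_dim {X : NS} (e : X.P ⊕ Edge X) : (incl e).length - 1 = sdim X e := by
  rcases e with x | p <;> rfl

lemma incl_pt {X : NS} (x0 : X.P) (e : X.P ⊕ Edge X) : (incl e).headD x0 = spt X e := by
  rcases e with x | p <;> rfl

lemma incl_sz {X : NS} (e : X.P ⊕ Edge X) : (incl e).length + ldiam X (incl e) ≤ 3 := by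
  rcases e with x | p
  · have : ldiam X [x] ≤ 0 := ldiam_le.2 (by simp [X.d_self])
    simp only [incl, List.length_singleton]
    omega
  · have : ldiam X [p.1.1, p.1.2] ≤ 1 := ldiam_le.2 (by
      have h1 := p.2
      have h2 := X.d_comm p.1.2 p.1.1
      simp [X.d_self, h1, h2])
    simp only [incl, List.length_cons, List.length_nil]
    omega

section ext

variable {D : Type} [AddCommGroup D] [Module F D] {X : NS}

lemma ctl_incl (x0 : X.P) {T : Ctrl D X} {j : ℕ} {φ : List X.P → D} (h : Ctl (Cf X x0) T j φ) :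
    Ctl (Sg X) T j (fun e => φ (incl e)) := by
  intro _
  obtain ⟨ρ, hρ⟩ := h 3
  refine ⟨ρ, fun e _ => ?_⟩
  have := hρ (incl e) (incl_sz e)
  simp only [incl_dim, incl_pt] at this
  exact this

lemma chain_incl (x0 : X.P) {δ : D →ₗ[F] D} {φ : List X.P → D} (h : IsChain (Cf X x0) δ φ) :
    IsChain (Sg X) δ (fun e => φ (incl e)) := by
  intro e
  rw [h (incl e)]
  exact lin_cbd_incl φ e

theorem ext_full (hX : Geo X) (x0 : X.P) (T : Ctrl D X) (δ : D →ₗ[F] D) (j : ℕ)
    (φ : (Sg X).E → D) (hc : Ctl (Sg X) T j φ) (hch : IsChain (Sg X) δ φ)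
    (hf : ∀ a, 1 ≤ a → Fill T δ (a + j)) :
    ∃ ψ : List X.P → D, Ctl (Cf X x0) T j ψ ∧ IsChain (Cf X x0) δ ψ ∧
      ∀ e, ψ (incl e) = φ e := by
  classical
  choose pth hp1 hp2 using fun x y : X.P => exists_path hX (X.d x y) x y le_rfl
  let w : List X.P → ((Sg X).E →₀ F) := fun l => match l with
    | [x] => single (Sum.inl x) 1
    | [x, y] => if h : X.d x y ≤ 1 then single (Sum.inr ⟨(x, y), h⟩) 1 else pth x y
    | _ => 0
  have hw1 : ∀ l : List X.P, l.length - 1 ≤ 1 → w l ∈ (Sg X).ctrl.Dg (l.length - 1) (l.headD x0)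
      (l.length + ldiam X l) := by
    intro l hl
    match l, hl with
    | [], _ => exact Submodule.zero_mem _
    | [x], _ => exact (Sg X).single_mem_ctrl rfl (by simp [spt, X.d_self]) (by simp)
    | [x, y], _ =>
      simp only [w]
      split_ifs with h
      · exact (Sg X).single_mem_ctrl rfl (by simp [spt, X.d_self]) (by simp; omega)
      · have : X.d x y ≤ ldiam X [x, y] := le_ldiam (by simp) (by simp)
        exact (Sg X).ctrl.mono' _ _ _ _ (by simp; omega) (hp1 x y)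
    | x :: y :: z :: l, hl => simp at hl
  have hw2 : ∀ l : List X.P, l.length - 1 ≤ 1 → lin (sbd X) (w l) = lin w (cbd l) := by
    intro l hl
    match l, hl with
    | [], _ => simp [w, cbd]
    | [x], _ => simp [w, cbd, sbd]
    | [x, y], _ =>
      rw [cbd_pair]
      simp only [w, map_add, lin_single]
      split_ifs with h
      · simp [sbd]
      · exact hp2 x y
    | x :: y :: z :: l, hl => simp at hl
  obtain ⟨ψ, h1, h2, h3⟩ := extend (Cf X x0) T δ j 1 (fun l => lin φ (w l)) (fun s => by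
      obtain ⟨ρ', hρ⟩ := hc.lin_mem s
      exact ⟨ρ', fun e he hs => hρ _ _ _ ((Sg X).ctrl.mono' _ _ _ _ hs (hw1 e he))⟩)
    (fun e he => by rw [hch.lin, ← lin_lin]; exact congrArg _ (hw2 e he)) hf
  refine ⟨ψ, h1, h2, fun e => ?_⟩
  rw [h3 _ (by show (incl e).length - 1 ≤ 1; rw [incl_dim]; exact (Sg X).dim_le e)]
  rcases e with x | p
  · simp [w, incl]
  · simp [w, incl, p.2]

end ext

def Aug {P : NS} (C : LC P) : Prop := ∀ e, C.dim e ≤ 1 → lin (fun _ => (1 : F)) (C.bd e) = 0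

lemma Aug.prod {P Q : NS} {C : LC P} {R : LC Q} (h1 : Aug C) (h2 : Aug R) : Aug (C.prod R) := by
  rintro ⟨a, b⟩ h
  rw [LC.lin_prod_bd, h1 a (by simp only at h; omega), h2 b (by simp only at h; omega), add_zero]

lemma aug_Sg (X : NS) : Aug (Sg X) := by
  rintro (x | p) _
  · simp [sbd]
  · rw [lin_sbd]; exact add_self _

lemma aug_Cf (X : NS) (x0 : X.P) : Aug (Cf X x0) := by
  intro l hl
  match l, hl with
  | [], _ => simp [cbd]
  | [x], _ => simp [cbd]
  | [x, y], _ =>
    show lin _ (cbd [x, y]) = 0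
    rw [cbd_pair, map_add, lin_single, lin_single]
    exact add_self _
  | x :: y :: z :: l, hl => simp at hl

/-- Acyclic carriers: a controlled chain map to the full complex over a bornologous map. -/
theorem to_full {Q X : NS} (x0 : X.P) (C : LC Q) (hC : Aug C) (g : Q.P → X.P)
    (hg : Born (fun _ : Unit => g)) :
    ∃ ν : C.E → (List X.P →₀ F), Ctl C ((Cf X x0).ctrl.comap g hg) 0 ν ∧ IsChain C (lin cbd) ν ∧
      ∀ e, C.dim e = 0 → ν e = single [g (C.pt e)] 1 := by
  classical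
  let v : C.E → (List X.P →₀ F) := fun e => single [g (C.pt e)] 1
  have hv : ∀ e, v e ∈ ((Cf X x0).ctrl.comap g hg).Dg 0 (C.pt e) 1 := fun e => by
    have : ldiam X [g (C.pt e)] ≤ 0 := ldiam_le.2 (by simp [X.d_self])
    exact (Cf X x0).single_mem_ctrl rfl (by simp [X.d_self]) (by simp; omega)
  have hl : ∀ e, ∀ l ∈ (lin v (C.bd e)).support, 1 ≤ l.length := by
    intro e
    have : lin v (C.bd e) ∈ Finsupp.supported F F {l : List X.P | 1 ≤ l.length} :=
      lin_mem fun f _ => Finsupp.single_mem_supported _ _ (by simp)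
    exact fun l hl => this hl
  let ν0 : C.E → (List X.P →₀ F) := fun e =>
    if C.dim e = 0 then v e else cone (g (C.pt e)) (lin v (C.bd e))
  have hb : ∀ e, C.dim e ≤ 1 → lin ν0 (C.bd e) = lin v (C.bd e) := fun e he =>
    lin_congr fun f hf => by
      have := C.bd_dim e f hf
      exact if_pos (by omega)
  obtain ⟨ν, h1, h2, h3⟩ := extend C ((Cf X x0).ctrl.comap g hg) (lin cbd) 0 1 ν0 (fun s => by
      obtain ⟨ρ, hρ⟩ := lin_bd_mem (C := C) (T := (Cf X x0).ctrl.comap g hg) (j := 0) (k := 0)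
        (s := s) (ρ := 1) (φ := v) (fun e he _ => by
          rw [show C.dim e + 0 = 0 by omega]; exact hv e)
      refine ⟨3 * ρ + 1, fun e he hs => ?_⟩
      by_cases h : C.dim e = 0
      · simp only [ν0, if_pos h]
        rw [h]
        exact Ctrl.mono' _ _ _ _ _ (by omega) (hv e)
      · simp only [ν0, if_neg h]
        rw [show C.dim e + 0 = 0 + 0 + 1 by omega]
        exact cone_mem x0 (hρ e (by omega) hs) (hl e))
    (fun e he => by
      rw [hb e he]
      by_cases h : C.dim e = 0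
      · simp only [ν0, if_pos h]
        rw [C.bd_zero h]
        simp [v, cbd]
      · simp only [ν0, if_neg h]
        refine lin_cbd_cone _ (hl e) ?_
        rw [lin_lin]
        have : ∀ f, lin abd (v f) = (LinearMap.toSpanSingleton F _ (single ([] : List X.P) (1 : F)))
            ((fun _ => (1 : F)) f) := fun f => by simp [v, abd, cone]
        simp only [this]
        rw [← map_lin, hC e he, map_zero])
    (fun a ha => (fill_full X x0 _ (by omega)).comap g hg)
  exact ⟨ν, h1, h2, fun e he => by rw [h3 e (by omega)]; exact if_pos he⟩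

lemma left_mem_ctrl {P Q : NS} (C : LC P) (R : LC Q) {k ρ ρ' : ℕ} {x : P.P} {y : Q.P}
    {c : C.E →₀ F} (hc : c ∈ C.ctrl.Dg k x ρ) {b : R.E} (h1 : R.dim b = 0)
    (h2 : Q.d y (R.pt b) ≤ ρ') (h3 : R.sz b ≤ ρ') :
    mapDomain (fun a => (a, b)) c ∈ (C.prod R).ctrl.Dg k (x, y) (ρ + ρ') := by
  rw [LC.mem_ctrl] at hc ⊢
  intro e he
  obtain ⟨a, ha, rfl⟩ := mem_support_mapDomain he
  obtain ⟨h4, h5, h6⟩ := hc a ha
  simp only
  exact ⟨by omega, by omega, by omega⟩

lemma right_mem_ctrl {P Q : NS} (C : LC P) (R : LC Q) {k ρ ρ' : ℕ} {x : P.P} {y : Q.P}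
    {c : R.E →₀ F} (hc : c ∈ R.ctrl.Dg k y ρ) {a : C.E} (h1 : C.dim a = 0)
    (h2 : P.d x (C.pt a) ≤ ρ') (h3 : C.sz a ≤ ρ') :
    mapDomain (fun b => (a, b)) c ∈ (C.prod R).ctrl.Dg k (x, y) (ρ + ρ') := by
  rw [LC.mem_ctrl] at hc ⊢
  intro e he
  obtain ⟨b, hb, rfl⟩ := mem_support_mapDomain he
  obtain ⟨h4, h5, h6⟩ := hc b hb
  simp only
  exact ⟨by omega, by omega, by omega⟩

/-- the graph maps to the product of graphs -/
theorem to_prod {X X1 X2 : NS} (h1 : Geo X1) (h2 : Geo X2) (f : X.P → (X1.prod X2).P)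
    (hf : Born (fun _ : Unit => f)) :
    ∃ μ : (Sg X).E → (((Sg X1).prod (Sg X2)).E →₀ F),
      Ctl (Sg X) (((Sg X1).prod (Sg X2)).ctrl.comap f hf) 0 μ ∧
      IsChain (Sg X) (lin ((Sg X1).prod (Sg X2)).bd) μ ∧
      ∀ x, μ (Sum.inl x) = single (Sum.inl (f x).1, Sum.inl (f x).2) 1 := by
  obtain ⟨K, hK⟩ := hf 1
  have k1 : ∀ p : Edge X, X1.d (f p.1.1).1 (f p.1.2).1 ≤ K := fun p => by
    have := hK () _ _ p.2
    simp only at this
    omega
  have k2 : ∀ p : Edge X, X2.d (f p.1.1).2 (f p.1.2).2 ≤ K := fun p => by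
    have := hK () _ _ p.2
    simp only at this
    omega
  choose c1 hc1 hb1 using fun p : Edge X => exists_path h1 K _ _ (k1 p)
  choose c2 hc2 hb2 using fun p : Edge X => exists_path h2 K _ _ (k2 p)
  let μ : (Sg X).E → (((Sg X1).prod (Sg X2)).E →₀ F) := fun e => match e with
    | Sum.inl x => single (Sum.inl (f x).1, Sum.inl (f x).2) 1
    | Sum.inr p => mapDomain (fun a => (a, Sum.inl (f p.1.1).2)) (c1 p) +
        mapDomain (fun b => (Sum.inl (f p.1.2).1, b)) (c2 p)
  refine ⟨μ, fun _ => ⟨K + 1 + (K + 2), ?_⟩, ?_, fun x => rfl⟩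
  · rintro (x | p) _
    · exact ((Sg X1).prod (Sg X2)).single_mem_ctrl rfl (by simp [spt, X1.d_self, X2.d_self])
        (by simp; omega)
    · exact Submodule.add_mem _
        (left_mem_ctrl (Sg X1) (Sg X2) (hc1 p) rfl (by simp [spt, X2.d_self]) (by simp))
        (right_mem_ctrl (Sg X1) (Sg X2) (hc2 p) rfl (by have := k1 p; simp [spt]; omega) (by simp))
  · rintro (x | p)
    · simp [μ, sbd]
    · rw [lin_sbd]
      have hs : ∀ (Y : NS) (y : Y.P), sbd Y (Sum.inl y) = 0 := fun _ _ => rfl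
      simp only [μ, map_add, lin_mapDomain, hs, mapDomain_zero, add_zero, zero_add]
      have e1 := (map_lin (Finsupp.lmapDomain F F
        (fun a : (Sg X1).E => (a, (Sum.inl (f p.1.1).2 : (Sg X2).E)))) (sbd X1) (c1 p)).symm
      have e2 := (map_lin (Finsupp.lmapDomain F F
        (fun b : (Sg X2).E => ((Sum.inl (f p.1.2).1 : (Sg X1).E), b))) (sbd X2) (c2 p)).symm
      simp only [Finsupp.lmapDomain_apply] at e1 e2
      rw [e1, e2, hb1, hb2, mapDomain_add, mapDomain_add]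
      simp only [mapDomain_single]
      rw [add_assoc, ← add_assoc (single (Sum.inl (f p.1.2).1, Sum.inl (f p.1.1).2) (1 : F)),
        add_self, zero_add]

/-- Splitting a full factor. -/
theorem split_core {D : Type} [AddCommGroup D] [Module F D] {X X1 X2 : NS} (x0 : X.P) (x1 : X1.P)
    (h1 : Geo X1) (h2 : Geo X2) (f : X.P → (X1.prod X2).P) (hf : Born (fun _ : Unit => f))
    (g : (X1.prod X2).P → X.P) (hg : Born (fun _ : Unit => g)) (K : ℕ)
    (hK : ∀ x, X.d x (g (f x)) ≤ K) (T : Ctrl D X) (δ : D →ₗ[F] D) (j : ℕ)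
    (φ : List X.P → D) (hc : Ctl (Cf X x0) T j φ) (hch : IsChain (Cf X x0) δ φ) :
    ∃ φ1 : ((Cf X1 x1).prod (Sg X2)).E → D,
      Ctl ((Cf X1 x1).prod (Sg X2)) (T.comap g hg) j φ1 ∧
      IsChain ((Cf X1 x1).prod (Sg X2)) δ φ1 ∧
      (Null ((Sg X1).prod (Sg X2)) (T.comap g hg) δ j (fun e => φ1 (incl e.1, e.2)) →
        Null (Sg X) T δ j (fun e => φ (incl e))) := by
  obtain ⟨ν, hν1, hν2, hν3⟩ := to_full x0 ((Cf X1 x1).prod (Sg X2))
    ((aug_Cf X1 x1).prod (aug_Sg X2)) g hg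
  obtain ⟨μ, hμ1, hμ2, hμ3⟩ := to_prod h1 h2 f hf
  refine ⟨fun e => lin φ (ν e), fun s => ?_, fun e => ?_, ?_⟩
  · obtain ⟨ρ, hρ⟩ := hν1 s
    obtain ⟨ρ', hρ'⟩ := hc.lin_mem ρ
    exact ⟨ρ', fun e he => hρ' _ _ _ (hρ e he)⟩
  · rw [hch.lin, ← lin_lin]
    exact congrArg _ (hν2 e)
  rintro ⟨h', hh1, hh2⟩
  let ν' : ((Sg X1).prod (Sg X2)).E → (List X.P →₀ F) := fun e => ν (incl e.1, e.2)
  have hν'1 : Ctl ((Sg X1).prod (Sg X2)) ((Cf X x0).ctrl.comap g hg) 0 ν' := by
    intro _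
    obtain ⟨ρ, hρ⟩ := hν1 4
    refine ⟨ρ, fun e _ => ?_⟩
    have := hρ (incl e.1, e.2) (by have := incl_sz e.1; simp only; omega)
    simp only [incl_dim, incl_pt] at this
    exact this
  have hν'2 : IsChain ((Sg X1).prod (Sg X2)) (lin cbd) ν' := by
    rintro ⟨a, b⟩
    rw [LC.lin_prod_bd]
    have := hν2 (incl a, b)
    rw [LC.lin_prod_bd] at this
    rw [show (Cf X1 x1).bd (incl a) = cbd (incl a) from rfl, lin_cbd_incl] at this
    exact this
  let u : (Sg X).E → (List X.P →₀ F) := fun e => single (incl e) 1 + lin ν' (μ e)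
  have hu2 : IsChain (Sg X) (lin cbd) u := by
    intro e
    simp only [u]
    rw [map_add, lin_single, hν'2.lin, hμ2 e, lin_add, lin_lin]
    congr 1
    rw [← lin_cbd_incl (fun l => single l (1 : F)), lin_single_id]
  have hu1 : Ctl (Sg X) (Cf X x0).ctrl 0 u := by
    refine Ctl.add (fun _ => ⟨3, fun e _ => ?_⟩) (fun _ => ?_)
    · exact (Cf X x0).single_mem_ctrl (incl_dim e) (by simp only [incl_pt, X.d_self]; omega)
        (incl_sz e)
    · obtain ⟨ρ, hρ⟩ := hμ1 1
      obtain ⟨ρ1, hρ1⟩ := hν'1.lin_mem ρ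
      obtain ⟨ρ2, hρ2⟩ := (Cf X x0).ctrl.mono K ρ1
      exact ⟨ρ2, fun e he => hρ2 _ _ _ (by rw [X.d_comm]; exact hK _) (hρ1 _ _ _ (hρ e le_rfl))⟩
  have hu3 : ∀ x, u (Sum.inl x) = cbd [x, g (f x)] := by
    intro x
    simp only [u]
    rw [hμ3, lin_single, cbd_pair]
    simp only [ν']
    rw [hν3 _ rfl]
    rfl
  let H0 : X.P → (List X.P →₀ F) := fun x => single [x, g (f x)] 1
  have hH0 : ∀ x, H0 x ∈ (Cf X x0).ctrl.Dg 1 x (K + 2) := fun x => by
    have : ldiam X [x, g (f x)] ≤ K := ldiam_le.2 (by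
      have h1 := hK x
      have h2 := X.d_comm (g (f x)) x
      simp [X.d_self, h1, h2])
    exact (Cf X x0).single_mem_ctrl rfl (by simp [X.d_self]) (by simp; omega)
  obtain ⟨ρu, hρu⟩ := hu1 1
  obtain ⟨ρ3, hρ3⟩ := (Cf X x0).ctrl.mono 1 (K + 2)
  obtain ⟨ρ4, hρ4⟩ := fill_full X x0 1 le_rfl (max ρu ρ3)
  have key : ∀ p : Edge X, ∃ w ∈ (Cf X x0).ctrl.Dg 2 p.1.1 ρ4,
      lin cbd w = u (Sum.inr p) + (H0 p.1.1 + H0 p.1.2) := by
    intro p
    refine hρ4 _ _ (Submodule.add_mem _ ?_ (Submodule.add_mem _ ?_ ?_)) ?_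
    · exact Ctrl.mono' _ _ _ _ _ (le_max_left _ _) (hρu (Sum.inr p) le_rfl)
    · exact Ctrl.mono' _ _ _ _ _ (le_max_right _ _) (hρ3 _ _ _ (by simp [X.d_self]) (hH0 _))
    · exact Ctrl.mono' _ _ _ _ _ (le_max_right _ _)
        (hρ3 _ _ _ (by rw [X.d_comm]; exact p.2) (hH0 _))
    · rw [map_add, hu2, lin_sbd, hu3, hu3, map_add]
      simp only [H0, lin_single]
      exact add_self _
  choose H1 hH1 hH2 using key
  let H : (Sg X).E → (List X.P →₀ F) := fun e => match e with
    | Sum.inl x => H0 x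
    | Sum.inr p => H1 p
  have hH : ∀ e, u e = lin cbd (H e) + lin H (sbd X e) := by
    rintro (x | p)
    · simp [H, H0, hu3, sbd]
    · rw [lin_sbd]
      simp only [H]
      rw [hH2, add_assoc, add_self, add_zero]
  refine ⟨fun e => lin h' (μ e) + lin φ (H e), Ctl.add (fun _ => ?_) (fun _ => ?_), fun e => ?_⟩
  · obtain ⟨ρ, hρ⟩ := hμ1 1
    obtain ⟨ρ1, hρ1⟩ := hh1.lin_mem ρ
    obtain ⟨ρ2, hρ2⟩ := T.mono K ρ1
    exact ⟨ρ2, fun e he => hρ2 _ _ _ (by rw [X.d_comm]; exact hK _) (hρ1 _ _ _ (hρ e le_rfl))⟩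
  · obtain ⟨ρ1, hρ1⟩ := hc.lin_mem (max (K + 2) ρ4)
    refine ⟨ρ1, ?_⟩
    rintro (x | p) _
    · have := hρ1 _ _ _ (Ctrl.mono' _ _ _ _ _ (le_max_left _ _) (hH0 x))
      rw [add_comm 1 j, ← zero_add (j + 1)] at this
      exact this
    · have := hρ1 _ _ _ (Ctrl.mono' _ _ _ _ _ (le_max_right _ _) (hH1 p))
      rw [show 2 + j = 1 + (j + 1) by omega] at this
      exact this
  · have e1 : lin φ (lin ν' (μ e)) = δ (lin h' (μ e)) + lin (fun e => lin h' (μ e)) (sbd X e) := by
      rw [lin_lin, lin_congr (ψ := fun a => δ (h' a) + lin h' (((Sg X1).prod (Sg X2)).bd a))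
        (fun a _ => hh2 a), lin_add, ← map_lin, ← lin_lin, hμ2 e, lin_lin]
    have e2 : φ (incl e) + lin φ (lin ν' (μ e)) =
        δ (lin φ (H e)) + lin (fun e => lin φ (H e)) (sbd X e) := by
      have := congrArg (lin φ) (hH e)
      simp only [u] at this
      rw [map_add, map_add, lin_single] at this
      rw [this, hch.lin, ← lin_lin]
    rw [map_add, lin_add]
    rw [← eq_add_iff, e1] at e2
    refine e2.trans ?_
    abel

end Pool.Agent.H357Z.FDC
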