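import Mathlib
import Pool.Agent.H357Z.FDC.Graph

set_option autoImplicit false

/-!
Non-null controlled chain maps on products of graphs and their propagation.
-/

namespace Pool.Agent.H357Z.FDC

open Finsupp

@[reducible] def Pt : List NS → NS
  | [] => NS.unit
  | X :: ls => X.prod (Pt ls)

@[reducible] noncomputable def Rl : (ls : List NS) → LC (Pt ls)
  | [] => LC.unit
  | X :: ls => (Sg X).prod (Rl ls)

lemma Rl_sz (ls : List NS) (r : (Rl ls).E) : (Rl ls).sz r ≤ ls.length := by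
  induction ls with
  | nil => exact le_rfl
  | cons X ls ih =>
    have := ih r.2
    show 1 + (Rl ls).sz r.2 ≤ ls.length + 1
    omega

lemma Rl_dim (ls : List NS) (r : (Rl ls).E) : (Rl ls).dim r ≤ ls.length :=
  ((Rl ls).dim_le r).trans (Rl_sz ls r)

/-- A class of geodesic unbounded spaces each of which is coarsely a product of two of them. -/
structure Good (𝒮 : NS → Prop) : Prop where
  geo : ∀ X, 𝒮 X → Geo X
  ne : ∀ X, 𝒮 X → Nonempty X.P
  unb : ∀ X, 𝒮 X → ∀ R, ∃ R', ∀ x, ∃ y, R < X.d x y ∧ X.d x y ≤ R'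
  split : ∀ X, 𝒮 X → ∃ X1 X2, 𝒮 X1 ∧ 𝒮 X2 ∧ ∃ (f : X.P → (X1.prod X2).P)
    (g : (X1.prod X2).P → X.P), Born (fun _ : Unit => f) ∧ Born (fun _ : Unit => g) ∧
      Prpr (fun _ : Unit => g) ∧ ∃ K, ∀ x, X.d x (g (f x)) ≤ K

section

variable {D : Type} [AddCommGroup D] [Module F D] {Z : NS}

def NN (T : Ctrl D Z) (δ : D →ₗ[F] D) (ls : List NS) (j : ℕ) : Prop :=
  ∃ (I : Type) (ι : I → (Pt ls).P → Z.P) (hι : Born ι), Prpr ι ∧
    ∃ φ : (Rl ls).E → I → D, Ctl (Rl ls) (T.pull ι hι) j φ ∧ IsChain (Rl ls) (piBd δ I) φ ∧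
      ¬ Null (Rl ls) (T.pull ι hι) (piBd δ I) j φ

def Full (T : Ctrl D Z) (δ : D →ₗ[F] D) (X : NS) (ls : List NS) (j : ℕ) : Prop :=
  ∃ (x0 : X.P) (I : Type) (ι : I → (X.prod (Pt ls)).P → Z.P) (hι : Born ι), Prpr ι ∧
    ∃ φ : List X.P → (Rl ls).E → I → D,
      Ctl (Cf X x0) ((T.pull ι hι).hom (Rl ls)) j φ ∧
      IsChain (Cf X x0) (homBd (piBd δ I) (Rl ls)) φ ∧
      ¬ Null (Sg X) ((T.pull ι hι).hom (Rl ls)) (homBd (piBd δ I) (Rl ls)) j
        (fun e => φ (incl e))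

variable {T : Ctrl D Z} {δ : D →ₗ[F] D}

lemma Full.nn {X : NS} {ls : List NS} {j : ℕ} (h : Full T δ X ls j) : NN T δ (X :: ls) j := by
  obtain ⟨x0, I, ι, hι, hp, φ, h1, h2, h3⟩ := h
  refine ⟨I, ι, hι, hp, fun e => φ (incl e.1) e.2, ?_, ?_, ?_⟩
  · exact (ctl_curry (C := Sg X) (Rl_sz ls) (fun e => φ (incl e))).2 (ctl_incl x0 h1)
  · exact (chain_curry (C := Sg X) (fun e => φ (incl e))).2 (chain_incl x0 h2)
  · exact fun h => h3 ((null_curry (C := Sg X) (Rl_sz ls) (fun e => φ (incl e))).1 h)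

lemma Full.split {𝒮 : NS → Prop} (hS : Good 𝒮) {X : NS} (hX : 𝒮 X) {ls : List NS} {j : ℕ}
    (h : Full T δ X ls j) : ∃ X1 X2, 𝒮 X1 ∧ 𝒮 X2 ∧ Full T δ X1 (X2 :: ls) j := by
  obtain ⟨x0, I, ι, hι, hp, φ, h1, h2, h3⟩ := h
  obtain ⟨X1, X2, s1, s2, f, g, hf, hg, hg', K, hK⟩ := hS.split X hX
  obtain ⟨x1⟩ := hS.ne X1 s1
  obtain ⟨φ1, k1, k2, k3⟩ := split_core x0 x1 (hS.geo _ s1) (hS.geo _ s2) f hf g hg K hK _ _ j φ
    h1 h2
  let ι' : I → (X1.prod (Pt (X2 :: ls))).P → Z.P := fun i q => ι i (g (q.1, q.2.1), q.2.2)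
  have hι' : Born ι' := by
    intro R
    obtain ⟨R1, hR1⟩ := hg R
    obtain ⟨R2, hR2⟩ := hι (R1 + R)
    refine ⟨R2, fun i x y hxy => hR2 i _ _ ?_⟩
    have hxy' : X1.d x.1 y.1 + (X2.d x.2.1 y.2.1 + (Pt ls).d x.2.2 y.2.2) ≤ R := hxy
    have := hR1 () (x.1, x.2.1) (y.1, y.2.1) (by simp only; omega)
    simp only at this ⊢
    omega
  have hp' : Prpr ι' := by
    intro R
    obtain ⟨R1, hR1⟩ := hp R
    obtain ⟨R2, hR2⟩ := hg' R1
    refine ⟨R2 + R1, fun i x y hxy => ?_⟩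
    have h5 := hR1 i _ _ hxy
    simp only at h5
    have h6 := hR2 () (x.1, x.2.1) (y.1, y.2.1) (by simp only; omega)
    simp only at h6
    show X1.d x.1 y.1 + (X2.d x.2.1 y.2.1 + (Pt ls).d x.2.2 y.2.2) ≤ _
    omega
  refine ⟨X1, X2, s1, s2, x1, I, ι', hι', hp', fun σ cr => φ1 (σ, cr.1) cr.2, ?_, ?_, ?_⟩
  · intro s
    obtain ⟨ρ, hρ⟩ := k1 (s + 1)
    refine ⟨ρ, fun σ hσ => (Ctrl.mem_hom _ _ _ _ _ _).2 fun cr => (Ctrl.mem_pull _ _ _ _ _ _ _).2
      fun i => ?_⟩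
    have h5 := hρ (σ, cr.1) (by simp only at hσ ⊢; omega)
    have h6 := (Ctrl.mem_pull _ _ _ _ _ _ _).1 ((Ctrl.mem_hom _ _ _ _ _ _).1 h5 cr.2) i
    have e : (Rl (X2 :: ls)).dim cr + ((Cf X1 x1).dim σ + j) =
        (Rl ls).dim cr.2 + (((Cf X1 x1).prod (Sg X2)).dim (σ, cr.1) + j) := by
      show sdim X2 cr.1 + (Rl ls).dim cr.2 + (σ.length - 1 + j) =
        (Rl ls).dim cr.2 + (σ.length - 1 + sdim X2 cr.1 + j)
      omega
    rw [e]
    exact h6
  · intro σ
    funext cr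
    obtain ⟨c, r⟩ := cr
    have h5 := congrFun (k2 (σ, c)) r
    rw [LC.lin_prod_bd, homBd_apply, Pi.add_apply, lin_apply, lin_apply] at h5
    rw [homBd_apply, lin_apply]
    have e := LC.lin_prod_bd (Sg X2) (Rl ls) (fun cr => φ1 (σ, cr.1) cr.2) c r
    refine Eq.trans (congrArg _ e) ?_
    refine Eq.trans ?_ (eq_add_iff.1 h5)
    abel
  · rintro ⟨h', hh1, hh2⟩
    refine h3 (k3 ⟨fun ac r => h' ac.1 (ac.2, r), fun s => ?_, ?_⟩)
    · obtain ⟨ρ, hρ⟩ := hh1 1
      refine ⟨ρ, fun ac _ => (Ctrl.mem_hom _ _ _ _ _ _).2 fun r => (Ctrl.mem_pull _ _ _ _ _ _ _).2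
        fun i => ?_⟩
      have h6 := (Ctrl.mem_pull _ _ _ _ _ _ _).1 ((Ctrl.mem_hom _ _ _ _ _ _).1 (hρ ac.1 le_rfl)
        (ac.2, r)) i
      have e : (Rl (X2 :: ls)).dim (ac.2, r) + ((Sg X1).dim ac.1 + (j + 1)) =
          (Rl ls).dim r + (((Sg X1).prod (Sg X2)).dim ac + (j + 1)) := by
        show sdim X2 ac.2 + (Rl ls).dim r + (sdim X1 ac.1 + (j + 1)) =
          (Rl ls).dim r + (sdim X1 ac.1 + sdim X2 ac.2 + (j + 1))
        omega
      rw [e] at h6
      exact h6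
    · rintro ⟨a, c⟩
      funext r
      have h5 := congrFun (hh2 a) (c, r)
      rw [Pi.add_apply, homBd_apply, lin_apply] at h5
      have e := LC.lin_prod_bd (Sg X2) (Rl ls) (h' a) c r
      rw [LC.lin_prod_bd, Pi.add_apply, homBd_apply, Pi.add_apply, lin_apply, lin_apply]
      refine h5.trans ?_
      rw [show lin (h' a) ((Rl (X2 :: ls)).bd (c, r)) = _ from e]
      abel

lemma Full.split_many {𝒮 : NS → Prop} (hS : Good 𝒮) (n : ℕ) {X : NS} (hX : 𝒮 X) {ls : List NS}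
    (hls : ∀ Y ∈ ls, 𝒮 Y) {j : ℕ} (h : Full T δ X ls j) :
    ∃ ls', (∀ Y ∈ ls', 𝒮 Y) ∧ n ≤ ls'.length ∧ NN T δ ls' j := by
  have : ∃ X' ls', 𝒮 X' ∧ (∀ Y ∈ ls', 𝒮 Y) ∧ n ≤ ls'.length ∧ Full T δ X' ls' j := by
    induction n with
    | zero => exact ⟨X, ls, hX, hls, Nat.zero_le _, h⟩
    | succ n ih =>
      obtain ⟨X', ls', h1, h2, h3, h4⟩ := ih
      obtain ⟨X1, X2, s1, s2, h5⟩ := h4.split hS h1
      refine ⟨X1, X2 :: ls', s1, ?_, by simpa using h3, h5⟩
      intro Y hY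
      rcases List.mem_cons.1 hY with rfl | hY
      exacts [s2, h2 Y hY]
  obtain ⟨X', ls', h1, h2, h3, h4⟩ := this
  refine ⟨X' :: ls', ?_, by simp; omega, h4.nn⟩
  intro Y hY
  rcases List.mem_cons.1 hY with rfl | hY
  exacts [h1, h2 Y hY]

/-- the maximal shift argument -/
theorem NN.full {𝒮 : NS → Prop} (hS : Good 𝒮) {M : ℕ}
    (hM : ∀ k x ρ, M < k → T.Dg k x ρ = ⊥) (ls : List NS) (hls : ∀ Y ∈ ls, 𝒮 Y) (j : ℕ)
    (hj : M < ls.length + j) (h : NN T δ ls j) :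
    ∃ X ls' j', 𝒮 X ∧ (∀ Y ∈ ls', 𝒮 Y) ∧ j ≤ j' ∧ Full T δ X ls' j' := by
  induction ls generalizing j with
  | nil =>
    obtain ⟨I, ι, hι, hp, φ, h1, h2, h3⟩ := h
    refine absurd ⟨fun _ => 0, fun s => ⟨0, fun e _ => Submodule.zero_mem _⟩, fun e => ?_⟩ h3
    obtain ⟨ρ, hρ⟩ := h1 0
    rw [map_zero, lin_zero, add_zero]
    funext i
    have := (Ctrl.mem_pull _ _ _ _ _ _ _).1 (hρ e le_rfl) i
    rw [hM _ _ _ (by simp at hj; omega)] at this
    exact this
  | cons X ls ih =>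
    obtain ⟨I, ι, hι, hp, φ, h1, h2, h3⟩ := h
    have hX : 𝒮 X := hls X List.mem_cons_self
    have hls' : ∀ Y ∈ ls, 𝒮 Y := fun Y hY => hls Y (List.mem_cons_of_mem _ hY)
    by_cases hf : ∀ a, 1 ≤ a → Fill ((T.pull (Q := X.prod (Pt ls)) ι hι).hom (Rl ls))
        (homBd (piBd δ I) (Rl ls)) (a + j)
    · obtain ⟨x0⟩ := hS.ne X hX
      obtain ⟨ψ, k1, k2, k3⟩ := ext_full (hS.geo X hX) x0 _ _ j (fun c r => φ (c, r))
        ((ctl_curry (Rl_sz ls) (fun c r => φ (c, r))).1 h1)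
        ((chain_curry (fun c r => φ (c, r))).1 h2) hf
      refine ⟨X, ls, j, hX, hls', le_rfl, x0, I, ι, hι, hp, ψ, k1, k2, fun h => h3 ?_⟩
      simp only [k3] at h
      exact (null_curry (Rl_sz ls) (fun c r => φ (c, r))).2 h
    · simp only [Fill, not_forall, not_exists, not_and] at hf
      obtain ⟨a, ha, ρ, hρ⟩ := hf
      choose x z hz hz0 hz1 using hρ
      let ι' : I × ℕ → (Pt ls).P → Z.P := fun i q => ι i.1 (x i.2, q)
      have hι' : Born ι' := by
        intro R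
        obtain ⟨R1, hR1⟩ := hι R
        refine ⟨R1, fun i p q hpq => hR1 i.1 _ _ ?_⟩
        show X.d _ _ + _ ≤ R
        rw [X.d_self, zero_add]
        exact hpq
      have hp' : Prpr ι' := by
        intro R
        obtain ⟨R1, hR1⟩ := hp R
        refine ⟨R1, fun i p q hpq => ?_⟩
        have : X.d _ _ + (Pt ls).d p q ≤ R1 := hR1 i.1 _ _ hpq
        omega
      obtain ⟨X', ls', j', k1, k2, k3, k4⟩ := ih hls' (a + j) (by simp at hj; omega)
        ⟨I × ℕ, ι', hι', hp', fun r i => z i.2 r i.1, fun s => ⟨ρ, fun r _ =>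
          (Ctrl.mem_pull _ _ _ _ _ _ _).2 fun i =>
            (Ctrl.mem_pull _ _ _ _ _ _ _).1 ((Ctrl.mem_hom _ _ _ _ _ _).1 (hz i.2) r) i.1⟩,
          fun r => by
            funext i
            have := congrFun (congrFun (hz0 i.2) r) i.1
            rw [homBd_apply, Pi.add_apply, lin_apply] at this
            rw [lin_apply, piBd_apply]
            rw [piBd_apply] at this
            exact (eq_add_iff.1 this.symm).symm.trans (zero_add _),
          fun ⟨h, hh1, hh2⟩ => by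
            obtain ⟨ρ0, hρ0⟩ := hh1 ls.length
            refine hz1 ρ0 (fun r i => h r (i, ρ0)) ((Ctrl.mem_hom _ _ _ _ _ _).2 fun r =>
              (Ctrl.mem_pull _ _ _ _ _ _ _).2 fun i => ?_) ?_
            · exact (Ctrl.mem_pull _ _ _ _ _ _ _).1 (hρ0 r (Rl_sz ls r)) (i, ρ0)
            · funext r i
              have := congrFun (hh2 r) (i, ρ0)
              rw [Pi.add_apply, lin_apply] at this
              rw [homBd_apply, Pi.add_apply, lin_apply]
              exact this.symm⟩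
      exact ⟨X', ls', j', k1, k2, by omega, k4⟩

/-- lifting along a local quasi-isomorphism -/
theorem NN.lift {ls : List NS} {j : ℕ} (h : NN T δ ls (j + 1)) :
    ∃ ρ0, ∀ (D' : Type) [AddCommGroup D'] [Module F D'] (T' : Ctrl D' Z) (δ' : D' →ₗ[F] D')
      (p : D' →ₗ[F] D), (∀ k x x' ρ, T'.Dg k x ρ ≤ T'.Dg k x' (ρ + Z.d x x')) →
      (∀ c, p (δ' c) = δ (p c)) → (∀ k x ρ c, c ∈ T'.Dg k x ρ → p c ∈ T.Dg k x ρ) →
      (∀ ρ ≤ ρ0, ∀ k x, ∀ z ∈ T'.Dg k x ρ, ∀ y ∈ T.Dg (k + 1) x ρ, δ' z = 0 → p z = δ y →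
        ∃ w ∈ T'.Dg (k + 1) x ρ, δ' w = z ∧ p w = y) →
      NN T' δ' ls (j + 1) := by
  classical
  obtain ⟨I, ι, hι, hp, φ, h1, h2, h3⟩ := h
  obtain ⟨ρ1, hρ1⟩ := h1 ls.length
  obtain ⟨K, hK⟩ := hι ls.length
  refine ⟨ρ1 + ls.length * K, fun D' _ _ T' δ' p hstd hpc hpT hl => ?_⟩
  have key : ∀ k, ∃ ψ : (Rl ls).E → I → D', ∀ e, (Rl ls).dim e < k → ∀ i,
      ψ e i ∈ T'.Dg ((Rl ls).dim e + (j + 1)) (ι i ((Rl ls).pt e)) (ρ1 + (Rl ls).dim e * K) ∧
      p (ψ e i) = φ e i ∧ δ' (ψ e i) = lin (fun f => ψ f i) ((Rl ls).bd e) := by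
    intro k
    induction k with
    | zero => exact ⟨fun _ _ => 0, fun e he => absurd he (Nat.not_lt_zero _)⟩
    | succ k ih =>
      obtain ⟨ψ, hψ⟩ := ih
      have k2 : ∀ e i, ∃ w, (Rl ls).dim e = k →
          w ∈ T'.Dg ((Rl ls).dim e + (j + 1)) (ι i ((Rl ls).pt e)) (ρ1 + (Rl ls).dim e * K) ∧
          p w = φ e i ∧ δ' w = lin (fun f => ψ f i) ((Rl ls).bd e) := by
        intro e i
        by_cases he : (Rl ls).dim e = k
        swap
        · exact ⟨0, fun h => absurd h he⟩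
        have hd := Rl_dim ls e
        obtain ⟨w, hw1, hw2, hw3⟩ := hl (ρ1 + (Rl ls).dim e * K)
          (by have := Nat.mul_le_mul_right K hd; omega) ((Rl ls).dim e + j) (ι i ((Rl ls).pt e))
          (lin (fun f => ψ f i) ((Rl ls).bd e)) (lin_mem fun f hf => by
            have b1 := (Rl ls).bd_dim e f hf
            have b2 := (Rl ls).face_pt e f hf
            have b3 := hK i _ _ (b2.trans (Rl_sz ls e))
            have b4 := hstd _ _ (ι i ((Rl ls).pt e)) _ (hψ f (by omega) i).1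
            rw [show (Rl ls).dim f + (j + 1) = (Rl ls).dim e + j by omega] at b4
            refine T'.mono' _ _ _ _ ?_ b4
            rw [Z.d_comm, ← b1, add_mul]
            omega)
          (φ e i) (T.mono' _ _ _ _ (Nat.le_add_right _ _)
            ((Ctrl.mem_pull _ _ _ _ _ _ _).1 (hρ1 e (Rl_sz ls e)) i))
          (by
            rw [map_lin, lin_congr (ψ := fun f => lin (fun f => ψ f i) ((Rl ls).bd f)), ← lin_lin,
              (Rl ls).bd_bd, map_zero]
            intro f hf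
            have b1 := (Rl ls).bd_dim e f hf
            exact (hψ f (by omega) i).2.2)
          (by
            have := congrFun (h2 e) i
            rw [piBd_apply, lin_apply] at this
            rw [this, map_lin]
            refine lin_congr fun f hf => ?_
            have b1 := (Rl ls).bd_dim e f hf
            exact (hψ f (by omega) i).2.1)
        exact ⟨w, fun _ => ⟨hw1, hw3, hw2⟩⟩
      choose w hw using k2
      refine ⟨fun e i => if (Rl ls).dim e = k then w e i else ψ e i, fun e he i => ?_⟩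
      have hb : lin (fun f => if (Rl ls).dim f = k then w f i else ψ f i) ((Rl ls).bd e) =
          lin (fun f => ψ f i) ((Rl ls).bd e) := lin_congr fun f hf => by
        have b1 := (Rl ls).bd_dim e f hf
        rw [if_neg (by omega)]
      rw [hb]
      by_cases h : (Rl ls).dim e = k
      · simp only [if_pos h]
        exact hw e i h
      · simp only [if_neg h]
        exact hψ e (by omega) i
  obtain ⟨ψ, hψ⟩ := key (ls.length + 1)
  have hψ' := fun e => hψ e (Nat.lt_succ_of_le (Rl_dim ls e))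
  refine ⟨I, ι, hι, hp, ψ, fun s => ⟨ρ1 + ls.length * K, fun e _ =>
    (Ctrl.mem_pull _ _ _ _ _ _ _).2 fun i => T'.mono' _ _ _ _ ?_ (hψ' e i).1⟩, fun e => ?_, ?_⟩
  · have := Nat.mul_le_mul_right K (Rl_dim ls e)
    omega
  · funext i
    rw [piBd_apply, lin_apply]
    exact (hψ' e i).2.2
  · rintro ⟨h, hh1, hh2⟩
    refine h3 ⟨fun e i => p (h e i), fun s => ?_, fun e => ?_⟩
    · obtain ⟨ρ, hρ⟩ := hh1 s
      exact ⟨ρ, fun e he => (Ctrl.mem_pull _ _ _ _ _ _ _).2 fun i =>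
        hpT _ _ _ _ ((Ctrl.mem_pull _ _ _ _ _ _ _).1 (hρ e he) i)⟩
    · funext i
      have := congrFun (hh2 e) i
      rw [Pi.add_apply, piBd_apply, lin_apply] at this
      rw [Pi.add_apply, piBd_apply, lin_apply, ← (hψ' e i).2.1, this, map_add, hpc, map_lin]

lemma isChain_iff {P : NS} {C : LC P} {φ : C.E → D} : IsChain C δ φ ↔ homBd δ C φ = 0 := by
  constructor
  · intro h
    funext e
    rw [homBd_apply, h e]
    exact add_self _
  · intro h e
    have := congrFun h e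
    rw [homBd_apply] at this
    exact (eq_add_iff.1 this.symm).symm.trans (zero_add _)

lemma ctl_homBd {P : NS} {C : LC P} {T : Ctrl D P} {j : ℕ} {h : C.E → D}
    (hbd : ∀ k x ρ c, c ∈ T.Dg (k + 1) x ρ → δ c ∈ T.Dg k x ρ) (hh : Ctl C T (j + 1) h) :
    Ctl C T j (homBd δ C h) := by
  refine Ctl.add (fun s => ?_) (fun s => ?_)
  · obtain ⟨ρ, hρ⟩ := hh s
    exact ⟨ρ, fun e he => hbd _ _ _ _ (hρ e he)⟩
  · obtain ⟨ρ, hρ⟩ := hh s
    obtain ⟨ρ', hρ'⟩ := T.mono s ρ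
    refine ⟨ρ', fun e he => lin_mem fun f hf => ?_⟩
    have h1 := C.bd_dim e f hf
    have h2 := C.face_pt e f hf
    have h3 := C.face_sz e f hf
    have h4 := hρ f (by omega)
    rw [show C.dim f + (j + 1) = C.dim e + j by omega] at h4
    exact hρ' _ _ _ (by rw [P.d_comm]; omega) h4

/-- chains can be cut according to the location of their simplices -/
def Sep (T : Ctrl D Z) : Prop :=
  ∀ ρ, ∃ ρ', ∀ A : Set Z.P, ∃ π : D →ₗ[F] D,
    (∀ k x r c, c ∈ T.Dg k x r → π c ∈ T.Dg k x r) ∧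
    (∀ k x c, x ∈ A → c ∈ T.Dg k x ρ → π c = c) ∧
    (∀ k x c, (∀ a ∈ A, ρ' < Z.d a x) → c ∈ T.Dg k x ρ → π c = 0)

theorem vanish {𝒮 : NS → Prop} (hS : Good 𝒮) (hδ : ∀ c, δ (δ c) = 0)
    (hbd : ∀ k x ρ c, c ∈ T.Dg (k + 1) x ρ → δ c ∈ T.Dg k x ρ) (hsep : Sep T)
    (ls : List NS) (hls : ∀ Y ∈ ls, 𝒮 Y) (j : ℕ) (I : Type) (ι : I → (Pt ls).P → Z.P)
    (hι : Born ι) (hp : Prpr ι) (φ : (Rl ls).E → I → D) (h1 : Ctl (Rl ls) (T.pull ι hι) j φ)
    (h2 : IsChain (Rl ls) (piBd δ I) φ) (h3 : ∀ r, ls.length ≤ (Rl ls).dim r → φ r = 0) :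
    ∃ h : (Rl ls).E → I → D, Ctl (Rl ls) (T.pull ι hι) (j + 1) h ∧
      φ = homBd (piBd δ I) (Rl ls) h ∧ ∀ r, ls.length ≤ (Rl ls).dim r → h r = 0 := by
  classical
  induction ls generalizing j I with
  | nil =>
    refine ⟨0, fun s => ⟨0, fun e _ => Submodule.zero_mem _⟩, ?_, fun _ _ => rfl⟩
    rw [map_zero]
    funext r
    exact h3 r (Nat.zero_le _)
  | cons X ls ih =>
    have hX : 𝒮 X := hls X List.mem_cons_self
    have hls' : ∀ Y ∈ ls, 𝒮 Y := fun Y hY => hls Y (List.mem_cons_of_mem _ hY)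
    obtain ⟨ρ1, hρ1⟩ := h1 (X :: ls).length
    have hφ : ∀ (c : (Sg X).E) (β : (Rl ls).E) (i : I), φ (c, β) i ∈
        T.Dg (sdim X c + (Rl ls).dim β + j) (ι i (spt X c, (Rl ls).pt β)) ρ1 := fun c β i =>
      (Ctrl.mem_pull _ _ _ _ _ _ _).1 (hρ1 (c, β) (Rl_sz (X :: ls) _)) i
    have hch : ∀ (c : (Sg X).E) (β : (Rl ls).E) (i : I), δ (φ (c, β) i) =
        lin (fun c' => φ (c', β) i) (sbd X c) + lin (fun β' => φ (c, β') i) ((Rl ls).bd β) := by
      intro c β i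
      have := congrFun (h2 (c, β)) i
      rw [piBd_apply, lin_apply] at this
      exact this.trans (LC.lin_prod_bd (Sg X) (Rl ls) (fun e => φ e i) c β)
    obtain ⟨ρ', hρ'⟩ := hsep ρ1
    obtain ⟨R0, hR0⟩ := hp ρ'
    obtain ⟨R1, hR1⟩ := hS.unb X hX R0
    choose w hw1 hw2 using hR1
    choose γ hγ1 hγ2 using fun v : X.P => exists_path (hS.geo X hX) R1 v (w v) (hw2 v)
    choose π hπ1 hπ2 hπ3 using fun iv : I × X.P => hρ' {z | ∃ p, z = ι iv.1 (iv.2, p)}
    have mk : ∀ (J : Type) (a : J → I) (x : J → X.P),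
        Born (Q := Pt ls) (P := Z) (fun (q : J) p => ι (a q) (x q, p)) ∧
        Prpr (Q := Pt ls) (P := Z) (fun (q : J) p => ι (a q) (x q, p)) := by
      intro J a x
      constructor
      · intro R
        obtain ⟨R2, hR2⟩ := hι R
        refine ⟨R2, fun i p q hpq => hR2 _ _ _ ?_⟩
        show X.d _ _ + _ ≤ R
        rw [X.d_self, zero_add]
        exact hpq
      · intro R
        obtain ⟨R2, hR2⟩ := hp R
        refine ⟨R2, fun i p q hpq => ?_⟩
        have : X.d _ _ + (Pt ls).d p q ≤ R2 := hR2 _ _ _ hpq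
        omega
    obtain ⟨hι1, hp1⟩ := mk (I × X.P) Prod.fst Prod.snd
    obtain ⟨hι2, hp2⟩ := mk (I × Edge X) Prod.fst (fun q => q.2.1.1)
    let b : (Rl ls).E → I × X.P → D := fun β iv =>
      if (Rl ls).dim β + 1 = ls.length then π iv (lin (fun c => φ (c, β) iv.1) (γ iv.2)) else 0
    have hb1 : Ctl (Rl ls) (T.pull _ hι1) (j + 1) b := by
      intro _
      obtain ⟨R2, hR2⟩ := hι (R1 + 1)
      obtain ⟨ρ2, hρ2⟩ := T.mono R2 ρ1
      refine ⟨ρ2, fun β _ => (Ctrl.mem_pull _ _ _ _ _ _ _).2 fun iv => ?_⟩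
      simp only [b]
      split_ifs
      · refine hπ1 _ _ _ _ _ (lin_mem fun c hc => ?_)
        obtain ⟨k1, k2, -⟩ := ((Sg X).mem_ctrl _ _ _ _).1 (hγ1 iv.2) c hc
        have k3 := hφ c β iv.1
        have k4 : sdim X c = 1 := k1
        rw [show sdim X c + (Rl ls).dim β + j = (Rl ls).dim β + (j + 1) by omega] at k3
        refine hρ2 _ _ _ (hR2 _ _ _ ?_) k3
        show X.d _ _ + (Pt ls).d _ _ ≤ _
        rw [(Pt ls).d_self, X.d_comm]
        exact k2
      · exact Submodule.zero_mem _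
    have hb2 : ∀ β, ls.length ≤ (Rl ls).dim β → b β = 0 := fun β hβ => by
      funext iv
      exact if_neg (by omega)
    let φv : (Rl ls).E → I × X.P → D := fun β iv => φ (Sum.inl iv.2, β) iv.1
    have hφv1 : Ctl (Rl ls) (T.pull _ hι1) j φv := fun _ => ⟨ρ1, fun β _ =>
      (Ctrl.mem_pull _ _ _ _ _ _ _).2 fun iv => by
        have := hφ (Sum.inl iv.2) β iv.1
        rw [show sdim X (Sum.inl iv.2) + (Rl ls).dim β + j = (Rl ls).dim β + j by simp [sdim]]
          at this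
        exact this⟩
    have hφv2 : homBd (piBd δ (I × X.P)) (Rl ls) φv = 0 := by
      funext β iv
      rw [homBd_apply, Pi.add_apply, piBd_apply, lin_apply]
      simp only [φv]
      rw [hch]
      simp only [sbd, map_zero, zero_add]
      exact add_self _
    have hpull : ∀ (J : Type) (κ : J → (Pt ls).P → Z.P) (hκ : Born κ) k x ρ (c : J → D),
        c ∈ (T.pull κ hκ).Dg (k + 1) x ρ → piBd δ J c ∈ (T.pull κ hκ).Dg k x ρ :=
      fun J κ hκ k x ρ c hc => (Ctrl.mem_pull _ _ _ _ _ _ _).2 fun i =>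
        hbd _ _ _ _ ((Ctrl.mem_pull _ _ _ _ _ _ _).1 hc i)
    obtain ⟨h', k1, k2, k3⟩ := ih hls' j (I × X.P) _ hι1 hp1
      (fun β => φv β + homBd (piBd δ (I × X.P)) (Rl ls) b β)
      (hφv1.add (ctl_homBd (hpull _ _ hι1) hb1))
      (isChain_iff.2 (by
        rw [show (fun β => φv β + homBd (piBd δ (I × X.P)) (Rl ls) b β) =
          φv + homBd (piBd δ (I × X.P)) (Rl ls) b from rfl, map_add, hφv2,
          homBd_sq (piBd_sq hδ _), add_zero]))
      (fun β hβ => by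
        funext iv
        have hd := Rl_dim ls β
        rw [Pi.add_apply, homBd_apply, hb2 β hβ, map_zero, zero_add, lin_apply]
        have e1 : lin (fun β' => b β' iv) ((Rl ls).bd β) =
            π iv (lin (fun c => lin (fun β' => φ (c, β') iv.1) ((Rl ls).bd β)) (γ iv.2)) := by
          rw [lin_comm, map_lin]
          refine lin_congr fun β' hβ' => ?_
          have := (Rl ls).bd_dim β β' hβ'
          exact if_pos (by omega)
        have e2 : lin (fun c => lin (fun β' => φ (c, β') iv.1) ((Rl ls).bd β)) (γ iv.2) =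
            φ (Sum.inl iv.2, β) iv.1 + φ (Sum.inl (w iv.2), β) iv.1 := by
          rw [lin_congr (ψ := fun c => lin (fun c' => φ (c', β) iv.1) (sbd X c)), ← lin_lin, hγ2,
            map_add, lin_single, lin_single]
          intro c hc
          obtain ⟨k1, -, -⟩ := ((Sg X).mem_ctrl _ _ _ _).1 (hγ1 iv.2) c hc
          have k4 : sdim X c = 1 := k1
          have k5 := hch c β iv.1
          rw [h3 (c, β) (by
            show ls.length + 1 ≤ sdim X c + (Rl ls).dim β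
            omega), Pi.zero_apply, map_zero] at k5
          exact ((eq_add_iff.1 k5).symm.trans (zero_add _)).symm
        rw [e1, e2, map_add, hπ2 iv _ _ _ ⟨_, rfl⟩ (hφ (Sum.inl iv.2) β iv.1),
          hπ3 iv _ _ _ ?_ (hφ (Sum.inl (w iv.2)) β iv.1), add_zero]
        · exact add_self _
        · rintro _ ⟨p, rfl⟩
          by_contra hle
          have h7 : X.d _ _ + (Pt ls).d _ _ ≤ R0 := hR0 _ _ _ (not_lt.1 hle)
          have h8 := hw1 iv.2
          simp only [spt] at h7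
          omega)
    let hv : (Rl ls).E → I × X.P → D := fun β => h' β + b β
    have hv1 : Ctl (Rl ls) (T.pull _ hι1) (j + 1) hv := k1.add hb1
    have hv2 : ∀ β i v, φ (Sum.inl v, β) i =
        δ (hv β (i, v)) + lin (fun β' => hv β' (i, v)) ((Rl ls).bd β) := by
      have : φv = homBd (piBd δ (I × X.P)) (Rl ls) hv := by
        rw [show hv = h' + b from rfl, map_add, ← k2]
        funext β
        rw [Pi.add_apply, add_assoc, add_self, add_zero]
      intro β i v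
      have := congrFun (congrFun this β) (i, v)
      rw [homBd_apply, Pi.add_apply, piBd_apply, lin_apply] at this
      exact this
    have hv3 : ∀ β, ls.length ≤ (Rl ls).dim β → hv β = 0 := fun β hβ => by
      simp only [hv]
      rw [k3 β hβ, hb2 β hβ, add_zero]
    obtain ⟨ρv, hρv⟩ := hv1 ls.length
    have hv4 : ∀ β i v, hv β (i, v) ∈ T.Dg ((Rl ls).dim β + (j + 1)) (ι i (v, (Rl ls).pt β)) ρv :=
      fun β i v => (Ctrl.mem_pull _ _ _ _ _ _ _).1 (hρv β (Rl_sz ls β)) (i, v)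
    let ψe : (Rl ls).E → I × Edge X → D := fun β ip =>
      φ (Sum.inr ip.2, β) ip.1 + (hv β (ip.1, ip.2.1.1) + hv β (ip.1, ip.2.1.2))
    obtain ⟨k, l1, l2, l3⟩ := ih hls' (j + 1) (I × Edge X) _ hι2 hp2 ψe
      (fun _ => by
        obtain ⟨R2, hR2⟩ := hι 1
        obtain ⟨ρ2, hρ2⟩ := T.mono R2 ρv
        refine ⟨max ρ1 ρ2, fun β _ => (Ctrl.mem_pull _ _ _ _ _ _ _).2 fun ip =>
          Submodule.add_mem _ ?_ (Submodule.add_mem _ ?_ ?_)⟩
        · have := hφ (Sum.inr ip.2) β ip.1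
          rw [show sdim X (Sum.inr ip.2) + (Rl ls).dim β + j = (Rl ls).dim β + (j + 1) by
            simp only [sdim]; omega] at this
          exact T.mono' _ _ _ _ (le_max_left _ _) this
        · refine T.mono' _ _ _ _ (le_max_right _ _) (hρ2 _ _ _ (hR2 _ _ _ ?_) (hv4 β _ _))
          rw [NS.d_self]
          omega
        · refine T.mono' _ _ _ _ (le_max_right _ _) (hρ2 _ _ _ (hR2 _ _ _ ?_) (hv4 β _ _))
          show X.d _ _ + (Pt ls).d _ _ ≤ _
          rw [(Pt ls).d_self, X.d_comm]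
          exact ip.2.2)
      (fun β => by
        funext ip
        rw [piBd_apply, lin_apply]
        simp only [ψe]
        rw [map_add, map_add, hch, lin_sbd, lin_add, lin_add, hv2, hv2]
        linear_combination (norm := abel) add_self (δ (hv β (ip.1, ip.2.1.1))) +
          add_self (δ (hv β (ip.1, ip.2.1.2))))
      (fun β hβ => by
        funext ip
        simp only [ψe]
        rw [hv3 β hβ, h3 (Sum.inr ip.2, β) (by
          show ls.length + 1 ≤ 1 + (Rl ls).dim β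
          omega)]
        simp)
    obtain ⟨ρk, hρk⟩ := l1 ls.length
    let H : (Rl (X :: ls)).E → I → D := fun e i => match e.1 with
      | Sum.inl v => hv e.2 (i, v)
      | Sum.inr p => k e.2 (i, p)
    refine ⟨H, fun _ => ⟨max ρv ρk, ?_⟩, ?_, ?_⟩
    · rintro ⟨v | p, β⟩ _
      · refine (Ctrl.mem_pull _ _ _ _ _ _ _).2 fun i => T.mono' _ _ _ _ (le_max_left _ _) ?_
        have := hv4 β i v
        rw [← zero_add ((Rl ls).dim β)] at this
        exact this
      · refine (Ctrl.mem_pull _ _ _ _ _ _ _).2 fun i => T.mono' _ _ _ _ (le_max_right _ _) ?_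
        have := (Ctrl.mem_pull _ _ _ _ _ _ _).1 (hρk β (Rl_sz ls β)) (i, p)
        rw [show (Rl ls).dim β + (j + 1 + 1) = 1 + (Rl ls).dim β + (j + 1) by omega] at this
        exact this
    · funext e i
      obtain ⟨c, β⟩ := e
      rw [homBd_apply, Pi.add_apply, piBd_apply, lin_apply]
      rw [show lin (fun e => H e i) ((Rl (X :: ls)).bd (c, β)) = _ from
        LC.lin_prod_bd (Sg X) (Rl ls) (fun e => H e i) c β]
      rcases c with v | p
      · simp only [H, sbd, map_zero, zero_add]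
        exact hv2 β i v
      · have := congrFun (congrFun l2 β) (i, p)
        rw [homBd_apply, Pi.add_apply, piBd_apply, lin_apply] at this
        rw [show (Sg X).bd (Sum.inr p) = sbd X (Sum.inr p) from rfl, lin_sbd]
        simp only [H]
        simp only [ψe] at this
        rw [← eq_add_iff] at this
        rw [this]
        abel
    · rintro ⟨v | p, β⟩ he
      · have := Rl_dim ls β
        have he' : ls.length + 1 ≤ 0 + (Rl ls).dim β := he
        omega
      · have he' : ls.length + 1 ≤ 1 + (Rl ls).dim β := he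
        funext i
        exact congrFun (l3 β (by omega)) (i, p)

theorem not_NN {𝒮 : NS → Prop} (hS : Good 𝒮) (hδ : ∀ c, δ (δ c) = 0)
    (hbd : ∀ k x ρ c, c ∈ T.Dg (k + 1) x ρ → δ c ∈ T.Dg k x ρ) (hsep : Sep T) {M : ℕ}
    (hM : ∀ k x ρ, M < k → T.Dg k x ρ = ⊥)
    (ls : List NS) (hls : ∀ Y ∈ ls, 𝒮 Y) (j : ℕ) (hj : M < ls.length + j) : ¬ NN T δ ls j := by
  rintro ⟨I, ι, hι, hp, φ, h1, h2, h3⟩
  obtain ⟨h, k1, k2, -⟩ := vanish hS hδ hbd hsep ls hls j I ι hι hp φ h1 h2 (fun r hr => by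
    obtain ⟨ρ, hρ⟩ := h1 ls.length
    funext i
    have := (Ctrl.mem_pull _ _ _ _ _ _ _).1 (hρ r (Rl_sz ls r)) i
    rw [hM _ _ _ (by omega)] at this
    exact this)
  exact h3 ⟨h, k1, fun e => congrFun k2 e⟩

end

end Pool.Agent.H357Z.FDC
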