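import Mathlib
import Pool.Agent.H357Z.FDC.States

set_option autoImplicit false

/-!
Simplicial chains modulo two on labelled complexes and the local lifting lemma.
-/

namespace Pool.Agent.H357Z.FDC

open Finsupp

section simp

variable {V V' V'' : Type} [DecidableEq V] [DecidableEq V'] [DecidableEq V'']

noncomputable def fbd (τ : Finset V) : Finset V →₀ F := ∑ v ∈ τ, single (τ.erase v) 1

noncomputable def mv (v : V) (τ : Finset V) : Finset V →₀ F :=
  if v ∈ τ then 0 else single (insert v τ) 1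

lemma fbd_mv (v : V) (τ : Finset V) :
    lin fbd (mv v τ) + lin (mv v) (fbd τ) = single τ 1 := by
  by_cases h : v ∈ τ
  · rw [mv, if_pos h, map_zero, zero_add, fbd, map_sum]
    simp only [lin_single]
    rw [Finset.sum_eq_single v]
    · rw [mv, if_neg (Finset.notMem_erase v τ), Finset.insert_erase h]
    · intro w _ hw
      rw [mv, if_pos (Finset.mem_erase.2 ⟨hw.symm, h⟩)]
    · intro h'
      exact absurd h h'
  · rw [mv, if_neg h, lin_single, fbd, fbd, map_sum, Finset.sum_insert h, Finset.erase_insert h]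
    simp only [lin_single]
    rw [add_assoc, Finset.sum_congr rfl (g := fun w => mv v (τ.erase w)), add_self, add_zero]
    intro w hw
    have hne : v ≠ w := fun e => h (e ▸ hw)
    rw [mv, if_neg (fun h' => h (Finset.mem_of_mem_erase h')), Finset.erase_insert_of_ne hne]

lemma lin_fbd_mv (v : V) (c : Finset V →₀ F) :
    lin fbd (lin (mv v) c) = c + lin (mv v) (lin fbd c) := by
  rw [eq_add_iff, lin_lin, lin_lin, ← lin_add]
  simp only [fbd_mv]
  exact lin_single_id c

lemma fbd_insert {v : V} {τ : Finset V} (h : v ∉ τ) :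
    fbd (insert v τ) = single τ 1 + lin (mv v) (fbd τ) := by
  have := fbd_mv v τ
  rw [mv, if_neg h, lin_single] at this
  exact eq_add_iff.2 this

lemma lin_fbd_fbd (τ : Finset V) : lin fbd (fbd τ) = 0 := by
  induction τ using Finset.induction_on with
  | empty => simp [fbd]
  | insert v τ h ih =>
    rw [fbd_insert h, map_add, lin_single, lin_fbd_mv, ih, map_zero, add_zero, add_self]

lemma fbd_support {τ σ : Finset V} (h : σ ∈ (fbd τ).support) :
    σ ⊆ τ ∧ σ.card + 1 = τ.card := by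
  have : fbd τ ∈ Finsupp.supported F F {σ : Finset V | σ ⊆ τ ∧ σ.card + 1 = τ.card} :=
    Submodule.sum_mem _ fun v hv => Finsupp.single_mem_supported _ _
      ⟨Finset.erase_subset _ _, Finset.card_erase_add_one hv⟩
  exact this h

lemma mv_support {v : V} {τ σ : Finset V} (h : σ ∈ (mv v τ).support) :
    σ = insert v τ ∧ σ.card = τ.card + 1 := by
  unfold mv at h
  split_ifs at h with h1
  · simp at h
  · rw [mem_support_single' h]
    exact ⟨rfl, Finset.card_insert_of_notMem h1⟩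

open Classical in
noncomputable def push (f : V → V') (τ : Finset V) : Finset V' →₀ F :=
  if Set.InjOn f τ then single (τ.image f) 1 else 0

omit [DecidableEq V] in
lemma push_support {f : V → V'} {τ : Finset V} {σ : Finset V'} (h : σ ∈ (push f τ).support) :
    σ = τ.image f ∧ σ.card = τ.card := by
  unfold push at h
  split_ifs at h with h1
  · rw [mem_support_single' h]
    exact ⟨rfl, Finset.card_image_of_injOn h1⟩
  · simp at h

lemma push_mv (f : V → V') (v : V) (τ : Finset V) :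
    lin (push f) (mv v τ) = lin (mv (f v)) (push f τ) := by
  by_cases h : v ∈ τ
  · rw [mv, if_pos h, map_zero, push]
    split_ifs
    · rw [lin_single, mv, if_pos (Finset.mem_image_of_mem f h)]
    · rw [map_zero]
  · have hi : Set.InjOn f (insert v τ : Finset V) ↔ Set.InjOn f τ ∧ f v ∉ f '' τ := by
      rw [Finset.coe_insert, Set.injOn_insert (by simpa using h)]
    rw [mv, if_neg h, lin_single, push, push]
    by_cases h1 : Set.InjOn f τ
    · rw [if_pos h1, lin_single, mv]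
      by_cases h2 : f v ∈ τ.image f
      · rw [if_pos h2, if_neg]
        intro h3
        exact (hi.1 h3).2 (by simpa using h2)
      · rw [if_neg h2, if_pos (hi.2 ⟨h1, by simpa using h2⟩), Finset.image_insert]
    · rw [if_neg h1, map_zero, if_neg fun h2 => h1 (hi.1 h2).1]

lemma lin_push_mv (f : V → V') (v : V) (c : Finset V →₀ F) :
    lin (push f) (lin (mv v) c) = lin (mv (f v)) (lin (push f) c) := by
  rw [lin_lin, lin_lin]
  simp only [push_mv]

lemma push_insert (f : V → V') {v : V} {τ : Finset V} (h : v ∉ τ) :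
    push f (insert v τ) = lin (mv (f v)) (push f τ) := by
  rw [← push_mv, mv, if_neg h, lin_single]

omit [DecidableEq V] in
lemma push_empty (f : V → V') : push f ∅ = single ∅ 1 := by
  simp [push]

lemma fbd_push (f : V → V') (τ : Finset V) : lin fbd (push f τ) = lin (push f) (fbd τ) := by
  induction τ using Finset.induction_on with
  | empty => simp [push_empty, fbd]
  | insert v τ h ih =>
    rw [push_insert f h, lin_fbd_mv, ih, fbd_insert h, map_add, lin_single, lin_push_mv]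

lemma lin_fbd_push (f : V → V') (c : Finset V →₀ F) :
    lin fbd (lin (push f) c) = lin (push f) (lin fbd c) := by
  rw [lin_lin, lin_lin]
  simp only [fbd_push]

lemma push_push (f : V → V') (g : V' → V'') (τ : Finset V) :
    lin (push g) (push f τ) = push (fun v => g (f v)) τ := by
  induction τ using Finset.induction_on with
  | empty => simp [push_empty]
  | insert v τ h ih => rw [push_insert f h, lin_push_mv, ih, push_insert _ h]

omit [DecidableEq V] in
lemma push_congr {f g : V → V'} {τ : Finset V} (h : ∀ v ∈ τ, f v = g v) :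
    push f τ = push g τ := by
  have h1 : Set.EqOn f g τ := fun v hv => h v hv
  rw [push, push, Finset.image_congr h1]
  exact if_congr h1.injOn_iff rfl rfl

lemma push_id (τ : Finset V) : push (fun v => v) τ = single τ 1 := by
  have : Set.InjOn (fun v : V => v) τ := fun _ _ _ _ h => h
  rw [push, if_pos this, Finset.image_id']

noncomputable def ubd (τ : Finset V) : Finset V →₀ F := if τ.card ≤ 1 then 0 else fbd τ

lemma lin_ubd_of_ge {c : Finset V →₀ F} (h : ∀ l ∈ c.support, 2 ≤ l.card) :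
    lin ubd c = lin fbd c :=
  lin_congr fun l hl => by rw [ubd, if_neg (by have := h l hl; omega)]

lemma lin_ubd_of_le {c : Finset V →₀ F} (h : ∀ l ∈ c.support, l.card ≤ 1) :
    lin ubd c = 0 := by
  rw [lin_congr (ψ := fun _ => 0) fun l hl => by rw [ubd, if_pos (h l hl)], lin_zero]

lemma ubd_support {τ σ : Finset V} (h : σ ∈ (ubd τ).support) :
    2 ≤ τ.card ∧ σ ⊆ τ ∧ σ.card + 1 = τ.card := by
  unfold ubd at h
  split_ifs at h with h1
  · simp at h
  · exact ⟨by omega, fbd_support h⟩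

lemma lin_ubd_ubd (c : Finset V →₀ F) : lin ubd (lin ubd c) = 0 := by
  have : ∀ τ : Finset V, lin ubd (ubd τ) = 0 := by
    intro τ
    by_cases h : τ.card ≤ 2
    · exact lin_ubd_of_le fun f hf => by have := ubd_support hf; omega
    · rw [lin_ubd_of_ge fun f hf => by have := ubd_support hf; omega, ubd, if_neg (by omega),
        lin_fbd_fbd]
  rw [lin_lin]
  simp only [this, lin_zero]

lemma lin_ubd_push (f : V → V') (c : Finset V →₀ F) :
    lin (push f) (lin ubd c) = lin ubd (lin (push f) c) := by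
  rw [lin_lin, lin_lin]
  refine lin_congr fun τ _ => ?_
  by_cases h : τ.card ≤ 1
  · rw [ubd, if_pos h, map_zero, lin_ubd_of_le fun σ hσ => by have := push_support hσ; omega]
  · rw [ubd, if_neg h, lin_ubd_of_ge fun σ hσ => by have := push_support hσ; omega, fbd_push]

/-- the prism operator of a self-map `q` -/
noncomputable def prism (q : V → V) (pick : Finset V → V) : ℕ → Finset V → (Finset V →₀ F)
  | 0 => fun _ => 0
  | n + 1 => fun τ => lin (mv (pick τ)) (single τ 1 + push q τ + lin (prism q pick n) (fbd τ))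

lemma prism_bd (q : V → V) (pick : Finset V → V) (n : ℕ) (τ : Finset V) (h : τ.card = n) :
    lin fbd (prism q pick n τ) =
      single τ 1 + push q τ + lin (prism q pick (n - 1)) (fbd τ) := by
  induction n generalizing τ with
  | zero =>
    rw [Finset.card_eq_zero] at h
    subst h
    simp [prism, push_empty, add_self]
  | succ n ih =>
    rw [prism, lin_fbd_mv, map_add (lin fbd), map_add (lin fbd), lin_single, fbd_push, lin_lin,
      lin_congr (ψ := fun σ => single σ 1 + push q σ + lin (prism q pick (n - 1)) (fbd σ))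
        (fun σ hσ => ih σ (by have := fbd_support hσ; omega)), lin_add, lin_add, lin_single_id,
      ← lin_lin, lin_fbd_fbd, map_zero, add_zero, add_self, map_zero, add_zero]
    rfl

lemma prism_push (q : V → V) (pick : Finset V → V) (p : V → V') (n : ℕ) (τ : Finset V)
    (h : ∀ v ∈ τ, p (q v) = p v) : lin (push p) (prism q pick n τ) = 0 := by
  induction n generalizing τ with
  | zero => simp [prism]
  | succ n ih =>
    rw [prism, lin_push_mv, map_add (lin (push p)), map_add (lin (push p)), lin_single, push_push,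
      push_congr h, add_self,
      zero_add, lin_lin (push p), lin_congr (ψ := fun _ => 0)
        (fun σ hσ => ih σ fun v hv => h v ((fbd_support hσ).1 hv)), lin_zero, map_zero]

lemma prism_support (q : V → V) (pick : Finset V → V) (hp : ∀ τ : Finset V, τ.Nonempty → pick τ ∈ τ)
    (n : ℕ) (τ : Finset V) (h : τ.card = n) :
    prism q pick n τ ∈ Finsupp.supported F F
      {σ : Finset V | σ ⊆ τ ∪ τ.image q ∧ σ.card = n + 1} := by
  induction n generalizing τ with
  | zero => exact Submodule.zero_mem _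
  | succ n ih =>
    have h1 : single τ 1 + push q τ + lin (prism q pick n) (fbd τ) ∈ Finsupp.supported F F
        {σ : Finset V | σ ⊆ τ ∪ τ.image q ∧ σ.card = n + 1} := by
      refine Submodule.add_mem _ (Submodule.add_mem _ ?_ ?_) (lin_mem fun σ hσ => ?_)
      · exact Finsupp.single_mem_supported _ _ ⟨Finset.subset_union_left, h⟩
      · intro σ hσ
        obtain ⟨k1, k2⟩ := push_support hσ
        exact ⟨k1 ▸ Finset.subset_union_right, by omega⟩
      · obtain ⟨k1, k2⟩ := fbd_support hσ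
        refine Finsupp.supported_mono ?_ (ih σ (by omega))
        exact fun ρ hρ => ⟨hρ.1.trans
          (Finset.union_subset_union k1 (Finset.image_subset_image k1)), hρ.2⟩
    refine lin_mem fun σ hσ => ?_
    obtain ⟨k1, k2⟩ := h1 hσ
    intro ρ hρ
    obtain ⟨k3, k4⟩ := mv_support hρ
    refine ⟨?_, by omega⟩
    rw [k3]
    exact Finset.insert_subset (Finset.mem_union_left _
      (hp τ (Finset.card_pos.1 (by omega)))) k1

end simp

/-- A finite-dimensional simplicial complex whose vertices are labelled by subsets of `Z`. -/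
structure Cplx (Z : NS) where
  V : Type
  dec : DecidableEq V
  piece : V → Set Z.P
  N : Set (Finset V)
  down : ∀ σ τ, σ ⊆ τ → τ ∈ N → σ ∈ N
  M : ℕ
  card_le : ∀ τ ∈ N, τ.card ≤ M

attribute [instance] Cplx.dec

variable {Z : NS}

def Cplx.near (K : Cplx Z) (x : Z.P) (ρ : ℕ) (v : K.V) : Prop := ∃ u ∈ K.piece v, Z.d x u ≤ ρ

lemma Cplx.near_mono (K : Cplx Z) {x x' : Z.P} {ρ ρ' : ℕ} {v : K.V} (h : K.near x ρ v)
    (h' : ρ + Z.d x x' ≤ ρ') : K.near x' ρ' v := by
  obtain ⟨u, h1, h2⟩ := h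
  refine ⟨u, h1, ?_⟩
  have := Z.d_tri x' x u
  rw [Z.d_comm x' x] at this
  omega

def Cplx.ctrl (K : Cplx Z) : Ctrl (Finset K.V →₀ F) Z where
  Dg k x ρ := Finsupp.supported F F
    {τ | τ ∈ K.N ∧ τ.card = k ∧ τ.Nonempty ∧ ∀ v ∈ τ, K.near x ρ v}
  mono R ρ := ⟨ρ + R, fun k x x' h => Finsupp.supported_mono fun τ hτ =>
    ⟨hτ.1, hτ.2.1, hτ.2.2.1, fun v hv => K.near_mono (hτ.2.2.2 v hv) (by omega)⟩⟩
  mono' k x ρ ρ' h := Finsupp.supported_mono fun τ hτ =>
    ⟨hτ.1, hτ.2.1, hτ.2.2.1, fun v hv => K.near_mono (hτ.2.2.2 v hv) (by rw [Z.d_self]; omega)⟩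

lemma Cplx.mem_ctrl (K : Cplx Z) (k : ℕ) (x : Z.P) (ρ : ℕ) (c : Finset K.V →₀ F) :
    c ∈ K.ctrl.Dg k x ρ ↔
      ∀ τ ∈ c.support, τ ∈ K.N ∧ τ.card = k ∧ τ.Nonempty ∧ ∀ v ∈ τ, K.near x ρ v :=
  ⟨fun h _ hτ => h hτ, fun h τ hτ => h τ hτ⟩

noncomputable def Cplx.bd (K : Cplx Z) : (Finset K.V →₀ F) →ₗ[F] (Finset K.V →₀ F) := lin ubd

lemma Cplx.bd_bd (K : Cplx Z) (c : Finset K.V →₀ F) : K.bd (K.bd c) = 0 :=
  lin_ubd_ubd c

lemma Cplx.std (K : Cplx Z) (k : ℕ) (x x' : Z.P) (ρ : ℕ) :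
    K.ctrl.Dg k x ρ ≤ K.ctrl.Dg k x' (ρ + Z.d x x') :=
  Finsupp.supported_mono fun _ hτ =>
    ⟨hτ.1, hτ.2.1, hτ.2.2.1, fun v hv => K.near_mono (hτ.2.2.2 v hv) le_rfl⟩

lemma Cplx.top (K : Cplx Z) (k : ℕ) (x : Z.P) (ρ : ℕ) (h : K.M < k) : K.ctrl.Dg k x ρ = ⊥ := by
  rw [eq_bot_iff]
  intro c hc
  rw [Submodule.mem_bot]
  by_contra h0
  obtain ⟨τ, hτ⟩ := Finsupp.support_nonempty_iff.2 h0
  obtain ⟨h1, h2, -⟩ := (K.mem_ctrl _ _ _ _).1 hc τ hτ
  have := K.card_le τ h1
  omega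

lemma Cplx.bd_mem (K : Cplx Z) (k : ℕ) (x : Z.P) (ρ : ℕ) (c : Finset K.V →₀ F)
    (hc : c ∈ K.ctrl.Dg (k + 1) x ρ) : K.bd c ∈ K.ctrl.Dg k x ρ := by
  refine lin_mem fun τ hτ => (K.mem_ctrl _ _ _ _).2 fun σ hσ => ?_
  obtain ⟨h1, h2, -, h4⟩ := (K.mem_ctrl _ _ _ _).1 hc τ hτ
  obtain ⟨k1, k2, k3⟩ := ubd_support hσ
  exact ⟨K.down _ _ k2 h1, by omega, Finset.card_pos.1 (by omega), fun v hv => h4 v (k2 hv)⟩

lemma Cplx.sep (K : Cplx Z) (B : ℕ) (hB : ∀ v, ∀ a ∈ K.piece v, ∀ b ∈ K.piece v, Z.d a b ≤ B) :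
    Sep K.ctrl := by
  classical
  intro ρ
  refine ⟨2 * ρ + B, fun A => ?_⟩
  let P : Finset K.V → Prop := fun τ => ∀ v ∈ τ, ∃ a ∈ A, K.near a ρ v
  refine ⟨lin (fun τ => if P τ then single τ 1 else 0), ?_, ?_, ?_⟩
  · intro k x r c hc
    refine lin_mem fun τ hτ => ?_
    split_ifs
    · exact Finsupp.single_mem_supported _ _ (hc hτ)
    · exact Submodule.zero_mem _
  · intro k x c hx hc
    rw [lin_congr (ψ := fun τ => single τ 1), lin_single_id]
    intro τ hτ
    exact if_pos fun v hv => ⟨x, hx, (hc hτ).2.2.2 v hv⟩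
  · intro k x c hx hc
    rw [lin_congr (ψ := fun _ => 0), lin_zero]
    intro τ hτ
    refine if_neg fun hP => ?_
    obtain ⟨-, -, ⟨v, hv⟩, h4⟩ := hc hτ
    obtain ⟨a, ha, u, hu, h5⟩ := hP v hv
    obtain ⟨u', hu', h6⟩ := h4 v hv
    have h7 := hB v u hu u' hu'
    have h8 := hx a ha
    have h9 := Z.d_tri a u x
    have h10 := Z.d_tri u u' x
    rw [Z.d_comm u' x] at h10
    omega

section refine

variable {K K' : Cplx Z} {p : K'.V → K.V}

lemma Cplx.proj_mem (hsub : ∀ t, K'.piece t ⊆ K.piece (p t))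
    (hN1 : ∀ σ ∈ K'.N, σ.image p ∈ K.N) (k : ℕ) (x : Z.P) (ρ : ℕ)
    (c : Finset K'.V →₀ F) (hc : c ∈ K'.ctrl.Dg k x ρ) :
    lin (push p) c ∈ K.ctrl.Dg k x ρ := by
  refine lin_mem fun τ hτ => (K.mem_ctrl _ _ _ _).2 fun σ hσ => ?_
  obtain ⟨h1, h2, h3, h4⟩ := hc hτ
  obtain ⟨k1, k2⟩ := push_support hσ
  refine ⟨by rw [k1]; exact hN1 _ h1, by omega, by rw [k1]; exact h3.image _, fun v hv => ?_⟩
  rw [k1] at hv
  obtain ⟨t, ht, rfl⟩ := Finset.mem_image.1 hv
  obtain ⟨u, hu, h5⟩ := h4 t ht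
  exact ⟨u, hsub _ hu, h5⟩

theorem Cplx.lift_local (hsub : ∀ t, K'.piece t ⊆ K.piece (p t))
    (hcov : ∀ v, ∀ u ∈ K.piece v, ∃ t, p t = v ∧ u ∈ K'.piece t)
    (hN1 : ∀ σ ∈ K'.N, σ.image p ∈ K.N) (ρ : ℕ) (k : ℕ) (x : Z.P)
    (hN : ∀ σ : Finset K'.V, (∀ t ∈ σ, K'.near x ρ t) → σ.image p ∈ K.N → σ ∈ K'.N)
    (z : Finset K'.V →₀ F) (hz : z ∈ K'.ctrl.Dg k x ρ) (y : Finset K.V →₀ F)
    (hy : y ∈ K.ctrl.Dg (k + 1) x ρ) (hz0 : K'.bd z = 0) (hpz : lin (push p) z = K.bd y) :
    ∃ w ∈ K'.ctrl.Dg (k + 1) x ρ, K'.bd w = z ∧ lin (push p) w = y := by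
  have hch : ∀ v, K.near x ρ v → ∃ t : K'.V, p t = v ∧ K'.near x ρ t := by
    rintro v ⟨u, hu, h⟩
    obtain ⟨t, h1, h2⟩ := hcov v u hu
    exact ⟨t, h1, u, h2, h⟩
  rcases isEmpty_or_nonempty K'.V with hV | hV
  · have hz' : z = 0 := by
      by_contra h0
      obtain ⟨τ, hτ⟩ := Finsupp.support_nonempty_iff.2 h0
      obtain ⟨-, -, ⟨t, -⟩, -⟩ := hz hτ
      exact hV.elim t
    have hy' : y = 0 := by
      by_contra h0
      obtain ⟨τ, hτ⟩ := Finsupp.support_nonempty_iff.2 h0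
      obtain ⟨-, -, ⟨v, hv⟩, h4⟩ := hy hτ
      obtain ⟨t, -⟩ := hch v (h4 v hv)
      exact hV.elim t
    exact ⟨0, Submodule.zero_mem _, by rw [map_zero, hz'], by rw [map_zero, hy']⟩
  choose! s hs1 hs2 using hch
  have hpn : ∀ t, K'.near x ρ t → K.near x ρ (p t) := by
    rintro t ⟨u, hu, h⟩
    exact ⟨u, hsub _ hu, h⟩
  let pick : Finset K'.V → K'.V := fun τ =>
    if h : τ.Nonempty then h.choose else Classical.arbitrary _
  have hpick : ∀ τ : Finset K'.V, τ.Nonempty → pick τ ∈ τ := fun τ h => by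
    simp only [pick, dif_pos h]
    exact h.choose_spec
  let q : K'.V → K'.V := fun t => s (p t)
  have hq : ∀ τ ∈ z.support, ∀ t ∈ τ, p (q t) = p t := fun τ hτ t ht =>
    hs1 _ (hpn t ((hz hτ).2.2.2 t ht))
  have hw1 : lin (push s) y ∈ K'.ctrl.Dg (k + 1) x ρ := by
    refine lin_mem fun τ hτ => (K'.mem_ctrl _ _ _ _).2 fun σ hσ => ?_
    obtain ⟨h1, h2, h3, h4⟩ := hy hτ
    obtain ⟨k1, k2⟩ := push_support hσ
    have k3 : ∀ t ∈ σ, K'.near x ρ t := by
      intro t ht
      rw [k1] at ht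
      obtain ⟨v, hv, rfl⟩ := Finset.mem_image.1 ht
      exact hs2 v (h4 v hv)
    refine ⟨hN σ k3 (K.down _ _ ?_ h1), by omega, Finset.card_pos.1 (by omega), k3⟩
    intro v hv
    obtain ⟨t, ht, rfl⟩ := Finset.mem_image.1 hv
    rw [k1] at ht
    obtain ⟨v', hv', rfl⟩ := Finset.mem_image.1 ht
    rw [hs1 v' (h4 v' hv')]
    exact hv'
  have hw2 : lin (prism q pick k) z ∈ K'.ctrl.Dg (k + 1) x ρ := by
    refine lin_mem fun τ hτ => (K'.mem_ctrl _ _ _ _).2 fun σ hσ => ?_
    obtain ⟨h1, h2, h3, h4⟩ := hz hτ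
    obtain ⟨k1, k2⟩ := prism_support q pick hpick k τ h2 hσ
    have k3 : ∀ t ∈ σ, K'.near x ρ t := by
      intro t ht
      rcases Finset.mem_union.1 (k1 ht) with h | h
      · exact h4 t h
      · obtain ⟨t', ht', rfl⟩ := Finset.mem_image.1 h
        exact hs2 _ (hpn t' (h4 t' ht'))
    refine ⟨hN σ k3 (K.down _ (τ.image p) ?_ (hN1 _ h1)), k2,
      Finset.card_pos.1 (by omega), k3⟩
    intro v hv
    obtain ⟨t, ht, rfl⟩ := Finset.mem_image.1 hv
    rcases Finset.mem_union.1 (k1 ht) with h | h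
    · exact Finset.mem_image_of_mem _ h
    · obtain ⟨t', ht', rfl⟩ := Finset.mem_image.1 h
      rw [hq τ hτ t' ht']
      exact Finset.mem_image_of_mem _ ht'
  have hpz' : lin (push p) z = lin ubd y := hpz
  have hz0' : lin ubd z = 0 := hz0
  refine ⟨lin (push s) y + lin (prism q pick k) z, Submodule.add_mem _ hw1 hw2, ?_, ?_⟩
  · show lin ubd (lin (push s) y + lin (prism q pick k) z) = z
    rcases Nat.eq_zero_or_pos k with rfl | hk
    · have hz' : z = 0 := by
        by_contra h0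
        obtain ⟨τ, hτ⟩ := Finsupp.support_nonempty_iff.2 h0
        obtain ⟨-, h2, h3, -⟩ := hz hτ
        have := Finset.card_pos.2 h3
        omega
      rw [lin_ubd_of_le fun σ hσ => ((Submodule.add_mem _ hw1 hw2) hσ).2.1.le, hz']
    · have e1 : lin (prism q pick (k - 1)) (lin fbd z) = 0 := by
        by_cases hk1 : k = 1
        · subst hk1
          simp [prism]
        · rw [← lin_ubd_of_ge fun σ hσ => by have := (hz hσ).2.1; omega, hz0', map_zero]
      rw [map_add, ← lin_ubd_push, ← hpz', lin_lin, lin_ubd_of_ge (c := lin (prism q pick k) z)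
        fun σ hσ => by have := (hw2 hσ).2.1; omega, lin_lin,
        lin_congr (φ := fun τ => lin fbd (prism q pick k τ))
          (fun τ hτ => prism_bd q pick k τ (hz hτ).2.1), lin_add, lin_add, lin_single_id,
        ← lin_lin (prism q pick (k - 1)), e1, add_zero]
      simp only [push_push]
      rw [add_comm z, ← add_assoc, add_self, zero_add]
  · rw [map_add, lin_lin, lin_lin, lin_congr (φ := fun τ => lin (push p) (prism q pick k τ))
      (ψ := fun _ => 0) (fun τ hτ => prism_push q pick p k τ (hq τ hτ)), lin_zero, add_zero,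
      lin_congr (ψ := fun τ => single τ 1), lin_single_id]
    intro τ hτ
    rw [push_push, push_congr (g := fun v => v) fun v hv => hs1 v ((hy hτ).2.2.2 v hv), push_id]

end refine

/-- the refinement of a labelled complex along decompositions of the labels -/
noncomputable def Cplx.refine (K : Cplx Z) (d : ℕ) (𝒰 : K.V → Fin (d + 1) → Set (Set Z.P)) :
    Cplx Z where
  V := {t : K.V × Fin (d + 1) × Set Z.P // t.2.2 ∈ 𝒰 t.1 t.2.1}
  dec := Classical.decEq _
  piece t := t.1.2.2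
  N := {σ | σ.image (fun t => t.1.1) ∈ K.N ∧
    ∀ a ∈ σ, ∀ b ∈ σ, a.1.1 = b.1.1 → a.1.2.1 = b.1.2.1 → a = b}
  down σ τ h hτ := ⟨K.down _ (τ.image fun t => t.1.1) (Finset.image_subset_image h) hτ.1,
    fun a ha b hb => hτ.2 a (h ha) b (h hb)⟩
  M := K.M * (d + 1)
  card_le τ hτ := by
    have h1 := K.card_le _ hτ.1
    have h2 : τ.card ≤ ((τ.image fun t => t.1.1) ×ˢ (Finset.univ : Finset (Fin (d + 1)))).card :=
      Finset.card_le_card_of_injOn (fun t => (t.1.1, t.1.2.1))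
        (fun t ht => by
          simp only [Finset.coe_product, Set.mem_prod, Finset.mem_coe, Finset.mem_univ, and_true]
          exact Finset.mem_image_of_mem _ ht)
        (fun a ha b hb h => hτ.2 a ha b hb (Prod.ext_iff.1 h).1 (Prod.ext_iff.1 h).2)
    rw [Finset.card_product, Finset.card_univ, Fintype.card_fin] at h2
    exact h2.trans (Nat.mul_le_mul_right _ h1)

/-- One step of the decomposition game. -/
theorem step {𝒮 : NS → Prop} (hS : Good 𝒮) (K : Cplx Z) (d : ℕ) {X : NS} (hX : 𝒮 X)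
    {ls : List NS} (hls : ∀ Y ∈ ls, 𝒮 Y) {j : ℕ} (h : Full K.ctrl K.bd X ls (j + 1)) :
    ∃ r : ℕ, ∀ 𝒰 : K.V → Fin (d + 1) → Set (Set Z.P),
      (∀ v c, ∀ W ∈ 𝒰 v c, W ⊆ K.piece v) → (∀ v, ∀ u ∈ K.piece v, ∃ c, ∃ W ∈ 𝒰 v c, u ∈ W) →
      (∀ v c, ∀ W ∈ 𝒰 v c, ∀ W' ∈ 𝒰 v c, W ≠ W' → ∀ a ∈ W, ∀ b ∈ W', r < Z.d a b) →
      ∃ X' ls' j', 𝒮 X' ∧ (∀ Y ∈ ls', 𝒮 Y) ∧
        Full (K.refine d 𝒰).ctrl (K.refine d 𝒰).bd X' ls' (j' + 1) := by
  obtain ⟨ls1, h1, h2, h3⟩ := h.split_many hS (K.M * (d + 1)) hX hls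
  obtain ⟨ρ0, hρ0⟩ := h3.lift
  refine ⟨2 * ρ0, fun 𝒰 hsub hcov hdis => ?_⟩
  let p : (K.refine d 𝒰).V → K.V := fun t => t.1.1
  have a1 : ∀ t, (K.refine d 𝒰).piece t ⊆ K.piece (p t) := fun t => hsub _ _ _ t.2
  have a2 : ∀ v, ∀ u ∈ K.piece v, ∃ t, p t = v ∧ u ∈ (K.refine d 𝒰).piece t := by
    intro v u hu
    obtain ⟨c, W, hW, huW⟩ := hcov v u hu
    exact ⟨⟨(v, c, W), hW⟩, rfl, huW⟩
  have a3 : ∀ σ ∈ (K.refine d 𝒰).N, σ.image p ∈ K.N := fun σ hσ => hσ.1
  have h4 := hρ0 _ (K.refine d 𝒰).ctrl (K.refine d 𝒰).bd (lin (push p)) (K.refine d 𝒰).std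
    (lin_ubd_push p) (Cplx.proj_mem a1 a3) (fun ρ hρ k x z hz y hy hz0 hpz =>
      Cplx.lift_local a1 a2 a3 ρ k x (fun σ k1 k2 => ⟨k2, fun a ha b hb e1 e2 => by
        obtain ⟨u, hu, k3⟩ := k1 a ha
        obtain ⟨u', hu', k4⟩ := k1 b hb
        by_contra hne
        have h5 := hdis a.1.1 a.1.2.1 _ a.2 b.1.2.2 (by rw [e1, e2]; exact b.2)
          (fun e3 => hne (Subtype.ext (Prod.ext e1 (Prod.ext e2 e3)))) u hu u' hu'
        have h6 := Z.d_tri u x u'
        rw [Z.d_comm u x] at h6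
        omega⟩) z hz y hy hz0 hpz)
  obtain ⟨X', ls', j', k1, k2, k3, k4⟩ := h4.full hS (M := K.M * (d + 1))
    (K.refine d 𝒰).top ls1 h1 (j + 1) (by omega)
  obtain ⟨j'', rfl⟩ : ∃ j'', j' = j'' + 1 := ⟨j' - 1, by omega⟩
  exact ⟨X', ls', j'', k1, k2, k4⟩

/-- The end of the game. -/
theorem final {𝒮 : NS → Prop} (hS : Good 𝒮) (K : Cplx Z) (B : ℕ)
    (hB : ∀ v, ∀ a ∈ K.piece v, ∀ b ∈ K.piece v, Z.d a b ≤ B) {X : NS} (hX : 𝒮 X)
    {ls : List NS} (hls : ∀ Y ∈ ls, 𝒮 Y) {j : ℕ} : ¬ Full K.ctrl K.bd X ls (j + 1) := by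
  intro h
  obtain ⟨ls1, h1, h2, h3⟩ := h.split_many hS K.M hX hls
  exact not_NN hS K.bd_bd K.bd_mem (K.sep B hB) K.top ls1 h1 (j + 1) (by omega) h3

/-- the complex with one vertex labelled by the whole space -/
@[reducible] def Cplx.init (Z : NS) : Cplx Z where
  V := Unit
  dec := inferInstance
  piece _ := Set.univ
  N := Set.univ
  down _ _ _ _ := trivial
  M := 1
  card_le τ _ := by simpa using τ.card_le_univ

/-- The start of the game. -/
theorem start {X : NS} (x0 : X.P) (ι : X.P → Z.P) (h1 : Born (fun _ : Unit => ι))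
    (h2 : Prpr (fun _ : Unit => ι)) : Full (Cplx.init Z).ctrl (Cplx.init Z).bd X [] (0 + 1) := by
  let ι' : Unit → (X.prod (Pt [])).P → Z.P := fun _ q => ι q.1
  have hι : Born ι' := fun R => by
    obtain ⟨R', hR⟩ := h1 R
    exact ⟨R', fun i x y h => hR () _ _ h⟩
  have hp : Prpr ι' := fun R => by
    obtain ⟨R', hR⟩ := h2 R
    exact ⟨R', fun i x y h => hR () _ _ h⟩
  let u : Finset Unit →₀ F := single {()} 1
  refine ⟨x0, Unit, ι', hι, hp, fun l _ _ => if l.length ≤ 1 then u else 0, fun s => ⟨0, ?_⟩,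
    ?_, ?_⟩
  · intro l _
    refine (Ctrl.mem_hom _ _ _ _ _ _).2 fun r => (Ctrl.mem_pull _ _ _ _ _ _ _).2 fun i => ?_
    beta_reduce
    split_ifs with h
    · refine Finsupp.single_mem_supported _ _ ⟨trivial, ?_, Finset.singleton_nonempty _,
        fun v _ => ⟨_, trivial, by rw [Z.d_self]⟩⟩
      show 1 = 0 + (l.length - 1 + (0 + 1))
      omega
    · exact Submodule.zero_mem _
  · intro l
    funext r i
    rw [homBd_apply, Pi.add_apply, piBd_apply, lin_apply, lin_apply, lin_apply]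
    show lin ubd _ + lin _ 0 = lin _ (cbd l)
    rw [map_zero, add_zero]
    have e1 : lin ubd (if l.length ≤ 1 then u else 0) = 0 := by
      split_ifs
      · simp [u, ubd]
      · simp
    refine e1.trans ?_
    match l with
    | [] => simp [cbd]
    | [x] => simp [cbd]
    | [x, y] => rw [cbd_pair]; simp [add_self]
    | x :: y :: z :: l =>
      rw [lin_congr (ψ := fun _ => 0), lin_zero]
      intro f hf
      have := (cbd_support hf).2.1
      simp only [List.length_cons] at this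
      exact if_neg (by omega)
  · rintro ⟨h, k1, k2⟩
    obtain ⟨ρ, hρ⟩ := k1 1
    have e1 := (Ctrl.mem_pull _ _ _ _ _ _ _).1 ((Ctrl.mem_hom _ _ _ _ _ _).1
      (hρ (Sum.inl x0) le_rfl) ()) ()
    rw [(Cplx.init Z).top _ _ _ (by show 1 < 0 + (0 + (0 + 1 + 1)); omega), Submodule.mem_bot] at e1
    have e2 := congrFun (congrFun (k2 (Sum.inl x0)) ()) ()
    rw [Pi.add_apply, Pi.add_apply, homBd_apply, Pi.add_apply, piBd_apply, e1] at e2
    simp [incl, u, sbd] at e2

end Pool.Agent.H357Z.FDC
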