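import Mathlib
import Pool.Agent.H357Z.FDC.Simp
import Pool.Agent.H357Z.FDC.Defs

set_option autoImplicit false

/-!
Spaces that split coarsely as products forever have no weak finite decomposition complexity.
-/

namespace Pool.Agent.H357Z.FDC

theorem not_decClass {X : Type} (d : X → X → ℝ) (h0 : ∀ x, d x x = 0) (h1 : ∀ x y, d x y = d y x)
    (h2 : ∀ x y z, d x z ≤ d x y + d y z) {𝒮 : NS → Prop} (hS : Good 𝒮) {Y : NS} (hY : 𝒮 Y)
    (ι : Y.P → X) (hb : ∀ R, ∃ R' : ℝ, ∀ y y', Y.d y y' ≤ R → d (ι y) (ι y') ≤ R')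
    (hp : ∀ R' : ℝ, ∃ R, ∀ y y', d (ι y) (ι y') ≤ R' → Y.d y y' ≤ R) (A : Set ℕ) :
    ¬ DecClass A d {Set.univ} := by
  let Z : NS := ⟨X, fun x y => ⌈d x y⌉₊, fun x => by rw [h0]; simp, fun x y => by rw [h1],
    fun x y z => (Nat.ceil_mono (h2 x y z)).trans (Nat.ceil_add_le _ _)⟩
  intro h
  have key := h {𝒴 | ∀ K : Cplx Z, (∀ v, K.piece v ∈ 𝒴) → ∀ X' ls j, 𝒮 X' → (∀ Y ∈ ls, 𝒮 Y) →
    ¬ Full K.ctrl K.bd X' ls (j + 1)} ?_ ?_
  · obtain ⟨y0⟩ := hS.ne Y hY
    refine key (Cplx.init Z) (fun _ => rfl) Y [] 0 hY (by simp) (start y0 ι ?_ ?_)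
    · intro R
      obtain ⟨R', hR⟩ := hb R
      exact ⟨⌈R'⌉₊, fun _ x y hxy => Nat.ceil_mono (hR x y hxy)⟩
    · intro R
      obtain ⟨R', hR⟩ := hp R
      exact ⟨R', fun _ x y hxy => hR x y (Nat.ceil_le.1 hxy)⟩
  · rintro 𝒴 ⟨B, hB⟩ K hK X' ls j k1 k2
    exact final hS K ⌈B⌉₊ (fun v a ha b hb => Nat.ceil_mono (hB _ (hK v) a ha b hb)) k1 k2
  · rintro 𝒴 ⟨n, -, hn⟩ K hK X' ls j k1 k2 k3
    obtain ⟨r, hr⟩ := step hS K n k1 k2 k3
    obtain ⟨𝒵, h𝒵, hdec⟩ := hn (r + 1) (by positivity)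
    choose 𝒰 hU1 hU2 using fun v => hdec _ (hK v)
    obtain ⟨X'', ls', j', l1, l2, l3⟩ := hr 𝒰
      (fun v c W hW x hx => by
        rw [hU2 v]
        exact Set.mem_iUnion.2 ⟨c, W, hW, hx⟩)
      (fun v u hu => by
        rw [hU2 v] at hu
        obtain ⟨c, W, hW, hx⟩ := Set.mem_iUnion.1 hu
        exact ⟨c, W, hW, hx⟩)
      (fun v c W hW W' hW' hne a ha b hb => by
        have := (hU1 v c).2 W hW W' hW' hne a ha b hb
        exact Nat.lt_ceil.2 (by linarith))
    exact h𝒵 (K.refine n 𝒰) (fun t => (hU1 _ _).1 t.2) X'' ls' j' l1 l2 l3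

section word

variable {G : Type} [Group G] {S : Finset G}

lemma wl_spec (hS : Subgroup.closure (S : Set G) = ⊤) (g : G) :
    ∃ l : List G, l.length = wordLength S g ∧ (∀ s ∈ l, s ∈ S ∨ s⁻¹ ∈ S) ∧ l.prod = g := by
  have : {n : ℕ | ∃ l : List G, l.length = n ∧ (∀ s ∈ l, s ∈ S ∨ s⁻¹ ∈ S) ∧ l.prod = g}.Nonempty := by
    have hg : g ∈ Subgroup.closure (S : Set G) := hS ▸ Subgroup.mem_top g
    have := Subgroup.closure_toSubmonoid (S : Set G)
    have h2 : g ∈ Submonoid.closure ((S : Set G) ∪ (S : Set G)⁻¹) := by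
      rw [← this]; exact hg
    obtain ⟨l, hl, rfl⟩ := Submonoid.exists_list_of_mem_closure h2
    exact ⟨l.length, l, rfl, fun s hs => by simpa using hl s hs, rfl⟩
  exact Nat.sInf_mem this

lemma wl_le {l : List G} (h : ∀ s ∈ l, s ∈ S ∨ s⁻¹ ∈ S) : wordLength S l.prod ≤ l.length :=
  Nat.sInf_le ⟨l, rfl, h, rfl⟩

lemma wl_one : wordLength S (1 : G) = 0 :=
  Nat.le_zero.1 (wl_le (l := []) (by simp))

lemma wl_mul (hS : Subgroup.closure (S : Set G) = ⊤) (g h : G) :
    wordLength S (g * h) ≤ wordLength S g + wordLength S h := by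
  obtain ⟨l, h1, h2, rfl⟩ := wl_spec hS g
  obtain ⟨l', h3, h4, rfl⟩ := wl_spec hS h
  rw [← h1, ← h3, ← List.prod_append, ← List.length_append]
  refine wl_le fun s hs => ?_
  rcases List.mem_append.1 hs with h | h
  exacts [h2 s h, h4 s h]

lemma wl_inv_le (hS : Subgroup.closure (S : Set G) = ⊤) (g : G) :
    wordLength S g⁻¹ ≤ wordLength S g := by
  obtain ⟨l, h1, h2, rfl⟩ := wl_spec hS g
  rw [← h1, List.prod_inv_reverse]
  refine (wl_le fun s hs => ?_).trans (by simp)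
  simp only [List.mem_reverse, List.mem_map] at hs
  obtain ⟨t, ht, rfl⟩ := hs
  rw [inv_inv]
  exact (h2 t ht).symm

lemma wl_inv (hS : Subgroup.closure (S : Set G) = ⊤) (g : G) :
    wordLength S g⁻¹ = wordLength S g :=
  le_antisymm (wl_inv_le hS g) (by simpa using wl_inv_le hS g⁻¹)

lemma wl_finite (hS : Subgroup.closure (S : Set G) = ⊤) (n : ℕ) :
    {g : G | wordLength S g ≤ n}.Finite := by
  classical
  have h1 : ((S ∪ S.image (·⁻¹) : Finset G) : Set G).Finite := Finset.finite_toSet _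
  have h2 := (List.finite_length_le (↥(S ∪ S.image (·⁻¹) : Finset G)) n).image
    (fun l => (l.map Subtype.val).prod)
  refine h2.subset fun g hg => ?_
  obtain ⟨l, k1, k2, rfl⟩ := wl_spec hS g
  have k3 : ∀ s ∈ l, s ∈ (S ∪ S.image (·⁻¹) : Finset G) := fun s hs => by
    rcases k2 s hs with h | h
    · exact Finset.mem_union_left _ h
    · exact Finset.mem_union_right _ (Finset.mem_image.2 ⟨_, h, inv_inv s⟩)
  refine ⟨l.attachWith _ k3, ?_, by simp⟩
  simp only [Set.mem_ofPred_eq, List.length_attachWith] at hg ⊢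
  omega

lemma wl_eq_zero (hS : Subgroup.closure (S : Set G) = ⊤) {g : G} (h : wordLength S g = 0) :
    g = 1 := by
  obtain ⟨l, h1, -, rfl⟩ := wl_spec hS g
  rw [h, List.length_eq_zero_iff] at h1
  simp [h1]

lemma wordDist_proper (hS : Subgroup.closure (S : Set G) = ⊤) : IsProperInvMetric (wordDist S) where
  eq_zero_iff x y := by
    constructor
    · intro h
      have : wordLength S (x⁻¹ * y) = 0 := by simpa [wordDist] using h
      exact inv_mul_eq_one.1 (wl_eq_zero hS this)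
    · rintro rfl
      simp [wordDist, wl_one]
  symm x y := by
    rw [wordDist, wordDist, ← wl_inv hS]
    simp
  triangle x y z := by
    have := wl_mul hS (x⁻¹ * y) (y⁻¹ * z)
    rw [show x⁻¹ * y * (y⁻¹ * z) = x⁻¹ * z by group] at this
    simp only [wordDist]
    exact_mod_cast this
  invariant g x y := by
    simp only [wordDist]
    congr 2
    group
  proper x R := by
    refine ((wl_finite hS ⌈R⌉₊).image (fun g => x * g)).subset fun y hy => ⟨x⁻¹ * y, ?_, by simp⟩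
    have : (wordLength S (x⁻¹ * y) : ℝ) ≤ ⌈R⌉₊ := le_trans hy (Nat.le_ceil R)
    exact_mod_cast this

/-- the Cayley graph as a space -/
@[reducible] noncomputable def cay (hS : Subgroup.closure (S : Set G) = ⊤) : NS where
  P := G
  d g h := wordLength S (g⁻¹ * h)
  d_self g := by simp [wl_one]
  d_comm g h := by
    rw [← wl_inv hS]
    simp
  d_tri x y z := by
    have := wl_mul hS (x⁻¹ * y) (y⁻¹ * z)
    rwa [show x⁻¹ * y * (y⁻¹ * z) = x⁻¹ * z by group] at this

lemma cay_geo (hS : Subgroup.closure (S : Set G) = ⊤) : Geo (cay hS) := by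
  intro n x y h
  obtain ⟨l, h1, h2, h3⟩ := wl_spec hS (x⁻¹ * y)
  rcases l with _ | ⟨s, l⟩
  · refine ⟨x, by simp [wl_one], ?_⟩
    show wordLength S (x⁻¹ * y) ≤ n
    rw [← h1]
    simp
  · refine ⟨x * s, ?_, ?_⟩
    · have := wl_le (S := S) (l := [s]) (by simpa using h2 s (by simp))
      simpa using this
    · have h4 := wl_le (S := S) (l := l) fun t ht => h2 t (by simp [ht])
      have h5 : (x * s)⁻¹ * y = l.prod := by
        rw [List.prod_cons] at h3
        rw [mul_inv_rev, mul_assoc, ← h3]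
        simp
      show wordLength S ((x * s)⁻¹ * y) ≤ n
      have h6 : wordLength S (x⁻¹ * y) ≤ n + 1 := h
      rw [h5]
      simp only [List.length_cons] at h1
      omega

lemma bound_of_finite {α : Type} {A : Set α} (h : A.Finite) (f : α → ℕ) :
    ∃ B, ∀ a ∈ A, f a ≤ B := by
  obtain ⟨B, hB⟩ := (h.image f).bddAbove
  exact ⟨B, fun a ha => hB ⟨a, ha, rfl⟩⟩

/-- A group that is commensurable with its square, in the form needed below. -/
theorem good_cay [Infinite G] (hS : Subgroup.closure (S : Set G) = ⊤) (P : Subgroup (G × G))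
    (θ : P →* G) (hθ : Function.Injective θ) (T : Set (G × G)) (hT : T.Finite)
    (hP : ∀ y : G × G, ∃ p : P, ∃ t ∈ T, y = p * t) (U : Set G) (hU : U.Finite)
    (hG : ∀ x : G, ∃ p : P, ∃ u ∈ U, x = θ p * u) : Good (fun X => X = cay hS) where
  geo X hX := hX ▸ cay_geo hS
  ne X hX := hX ▸ ⟨(1 : G)⟩
  unb X hX := by
    subst hX
    intro R
    obtain ⟨g, hg⟩ := (wl_finite hS R).exists_notMem
    simp only [Set.mem_ofPred_eq, not_le] at hg
    exact ⟨wordLength S g, fun x => ⟨x * g, by simpa using hg, by simp⟩⟩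
  split X hX := by
    subst hX
    choose pp tt htt hy using hP
    choose qq uu huu hx using hG
    let ℓ : G × G → ℕ := fun y => wordLength S y.1 + wordLength S y.2
    have ℓmul : ∀ y z, ℓ (y * z) ≤ ℓ y + ℓ z := fun y z => by
      have := wl_mul hS y.1 z.1
      have := wl_mul hS y.2 z.2
      simp only [ℓ, Prod.fst_mul, Prod.snd_mul]
      omega
    have ℓinv : ∀ y, ℓ y⁻¹ = ℓ y := fun y => by
      simp only [ℓ, Prod.fst_inv, Prod.snd_inv, wl_inv hS]
    obtain ⟨BT, hBT⟩ := bound_of_finite hT ℓ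
    obtain ⟨BU, hBU⟩ := bound_of_finite hU (wordLength S)
    have up : ∀ R, ∃ R', ∀ p : P, ℓ p ≤ R → wordLength S (θ p) ≤ R' := by
      intro R
      have h1 : {y : G × G | ℓ y ≤ R}.Finite :=
        ((wl_finite hS R).prod (wl_finite hS R)).subset fun y hy => by
          simp only [ℓ, Set.mem_ofPred_eq, Set.mem_prod] at hy ⊢
          omega
      exact bound_of_finite (h1.preimage Subtype.val_injective.injOn) _
    have down : ∀ R, ∃ R', ∀ p : P, wordLength S (θ p) ≤ R → ℓ p ≤ R' := fun R =>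
      bound_of_finite ((wl_finite hS R).preimage hθ.injOn) (fun p : P => ℓ p)
    have e1 : ∀ y z : G × G, (((pp y)⁻¹ * pp z : P) : G × G) = tt y * (y⁻¹ * z) * (tt z)⁻¹ := by
      intro y z
      have h1 : (pp y : G × G) = y * (tt y)⁻¹ := eq_mul_inv_of_mul_eq (hy y).symm
      have h2 : (pp z : G × G) = z * (tt z)⁻¹ := eq_mul_inv_of_mul_eq (hy z).symm
      rw [Subgroup.coe_mul, Subgroup.coe_inv, h1, h2]
      group
    have e2 : ∀ x x' : G, θ ((qq x)⁻¹ * qq x') = uu x * (x⁻¹ * x') * (uu x')⁻¹ := by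
      intro x x'
      have h1 : θ (qq x) = x * (uu x)⁻¹ := eq_mul_inv_of_mul_eq (hx x).symm
      have h2 : θ (qq x') = x' * (uu x')⁻¹ := eq_mul_inv_of_mul_eq (hx x').symm
      rw [map_mul, map_inv, h1, h2]
      group
    refine ⟨_, _, rfl, rfl, fun x => (qq x : G × G), fun y => θ (pp y), ?_, ?_, ?_, ?_⟩
    · intro R
      obtain ⟨R', hR⟩ := down (BU + R + BU)
      refine ⟨R', fun _ x x' h => hR ((qq x)⁻¹ * qq x') ?_⟩
      have h' : wordLength S (x⁻¹ * x') ≤ R := h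
      rw [e2]
      have a1 := wl_mul hS (uu x * (x⁻¹ * x')) (uu x')⁻¹
      have a2 := wl_mul hS (uu x) (x⁻¹ * x')
      have a3 := hBU _ (huu x)
      have a4 := hBU _ (huu x')
      rw [wl_inv hS] at a1
      omega
    · intro R
      obtain ⟨R', hR⟩ := up (BT + R + BT)
      refine ⟨R', fun _ y z h => ?_⟩
      have h' : ℓ (y⁻¹ * z) ≤ R := h
      have := hR ((pp y)⁻¹ * pp z) (by
        rw [e1]
        have a1 := ℓmul (tt y * (y⁻¹ * z)) (tt z)⁻¹
        have a2 := ℓmul (tt y) (y⁻¹ * z)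
        have a3 := hBT _ (htt y)
        have a4 := hBT _ (htt z)
        rw [ℓinv] at a1
        omega)
      rwa [map_mul, map_inv] at this
    · intro R
      obtain ⟨R', hR⟩ := down R
      refine ⟨BT + R' + BT, fun _ y z h => ?_⟩
      have h1 := hR ((pp y)⁻¹ * pp z) (by rw [map_mul, map_inv]; exact h)
      show ℓ (y⁻¹ * z) ≤ _
      have e3 : y⁻¹ * z = (tt y)⁻¹ * (((pp y)⁻¹ * pp z : P) : G × G) * tt z := by
        rw [e1]; group
      rw [e3]
      have a1 := ℓmul ((tt y)⁻¹ * (((pp y)⁻¹ * pp z : P) : G × G)) (tt z)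
      have a2 := ℓmul (tt y)⁻¹ (((pp y)⁻¹ * pp z : P) : G × G)
      have a3 := hBT _ (htt y)
      have a4 := hBT _ (htt z)
      rw [ℓinv] at a2
      omega
    · obtain ⟨R', hR⟩ := up BT
      refine ⟨BU + R', fun x => ?_⟩
      show wordLength S (x⁻¹ * θ (pp (qq x))) ≤ _
      have h1 := hR ((qq x)⁻¹ * pp (qq x)) (by
        have h2 : (pp (qq x) : G × G) = qq x * (tt (qq x))⁻¹ :=
          eq_mul_inv_of_mul_eq (hy (qq x)).symm
        rw [Subgroup.coe_mul, Subgroup.coe_inv, h2, inv_mul_cancel_left, ℓinv]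
        exact hBT _ (htt _))
      have e3 : x⁻¹ * θ (pp (qq x)) = (uu x)⁻¹ * θ ((qq x)⁻¹ * pp (qq x)) := by
        have h2 : θ (qq x) = x * (uu x)⁻¹ := eq_mul_inv_of_mul_eq (hx x).symm
        rw [map_mul, map_inv, h2]
        group
      rw [e3]
      have a1 := wl_mul hS (uu x)⁻¹ (θ ((qq x)⁻¹ * pp (qq x)))
      have a3 := hBU _ (huu x)
      rw [wl_inv hS] at a1
      omega

theorem not_decClass_group (hS : Subgroup.closure (S : Set G) = ⊤)
    (hG : Good (fun X => X = cay hS)) (d : G → G → ℝ) (hd : IsProperInvMetric d) (A : Set ℕ) :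
    ¬ DecClass A d {Set.univ} := by
  have hinv : ∀ x y, d x y = d 1 (x⁻¹ * y) := fun x y => by
    rw [← hd.invariant x 1 (x⁻¹ * y)]
    simp
  refine not_decClass d (fun x => (hd.eq_zero_iff x x).2 rfl) hd.symm hd.triangle hG rfl
    (fun g => g) (fun R => ?_) (fun R => ?_) A
  · obtain ⟨B, hB⟩ := ((wl_finite hS R).image (d 1)).bddAbove
    exact ⟨B, fun y y' h => by rw [hinv]; exact hB ⟨_, h, rfl⟩⟩
  · obtain ⟨B, hB⟩ := bound_of_finite (hd.proper 1 R) (wordLength S)
    exact ⟨B, fun y y' h => hB _ (by rw [hinv] at h; exact h)⟩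

end word

end Pool.Agent.H357Z.FDC
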