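import Mathlib
import Pool.Agent.H357Z.FDC.Main
import Pool.Agent.H568Z.GrigUp

set_option autoImplicit false

/-!
The first Grigorchuk group is commensurable with its square; property A from slow growth.
-/

namespace Pool.Agent.H357Z.FDC

open Pool.Agent.H568Z Pool.Agent.H568Z.Grig

lemma scons_eq (x : Bool) (w : ℕ → Bool) : scons x w = cons x w := by
  funext n
  cases n <;> rfl

def gb : Equiv.Perm X := pd (true, true)
def gc : Equiv.Perm X := pd (true, false)
def gd : Equiv.Perm X := pd (false, true)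

lemma isGrigGens : IsGrigGens pa gb gc gd where
  a0 w := by simp only [scons_eq]; rfl
  a1 w := by simp only [scons_eq]; rfl
  b0 w := by simp only [scons_eq]; exact dF_false _ _
  b1 w := by simp only [scons_eq]; exact dF_true _ _
  c0 w := by simp only [scons_eq]; exact dF_false _ _
  c1 w := by simp only [scons_eq]; exact dF_true _ _
  d0 w := by simp only [scons_eq]; exact dF_false _ _
  d1 w := by simp only [scons_eq]; exact dF_true _ _

lemma IsGrigGens.unique {a b c d a' b' c' d' : Equiv.Perm (ℕ → Bool)} (h : IsGrigGens a b c d)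
    (h' : IsGrigGens a' b' c' d') : a = a' ∧ b = b' ∧ c = c' ∧ d = d' := by
  have ha : a = a' := by
    ext1 z
    obtain ⟨x, w, rfl⟩ := exists_cons z
    rw [← scons_eq]
    cases x
    · rw [h.a0, h'.a0]
    · rw [h.a1, h'.a1]
  have key : ∀ n z, b z n = b' z n ∧ c z n = c' z n ∧ d z n = d' z n := by
    intro n
    induction n with
    | zero =>
      intro z
      obtain ⟨x, w, rfl⟩ := exists_cons z
      rw [← scons_eq]
      cases x
      · rw [h.b0, h'.b0, h.c0, h'.c0, h.d0, h'.d0]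
        exact ⟨rfl, rfl, rfl⟩
      · rw [h.b1, h'.b1, h.c1, h'.c1, h.d1, h'.d1]
        exact ⟨rfl, rfl, rfl⟩
    | succ n ih =>
      intro z
      obtain ⟨x, w, rfl⟩ := exists_cons z
      rw [← scons_eq]
      cases x
      · rw [h.b0, h'.b0, h.c0, h'.c0, h.d0, h'.d0, ha]
        exact ⟨rfl, rfl, rfl⟩
      · rw [h.b1, h'.b1, h.c1, h'.c1, h.d1, h'.d1]
        exact ⟨(ih w).2.1, (ih w).2.2, (ih w).1⟩
  exact ⟨ha, by ext z n; exact (key n z).1, by ext z n; exact (key n z).2.1,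
    by ext z n; exact (key n z).2.2⟩

def pairF (g h : X → X) (z : X) : X := cons (z 0) (if z 0 then h (tl z) else g (tl z))

lemma pairF_false (g h : X → X) (w : X) : pairF g h (cons false w) = cons false (g w) := rfl
lemma pairF_true (g h : X → X) (w : X) : pairF g h (cons true w) = cons true (h w) := rfl

lemma perm_ext {g h : Equiv.Perm X} (h0 : ∀ w, g (cons false w) = h (cons false w))
    (h1 : ∀ w, g (cons true w) = h (cons true w)) : g = h := by
  ext1 z
  obtain ⟨x, w, rfl⟩ := exists_cons z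
  cases x
  exacts [h0 w, h1 w]

def pairP (p : Equiv.Perm X × Equiv.Perm X) : Equiv.Perm X where
  toFun := pairF p.1 p.2
  invFun := pairF p.1.symm p.2.symm
  left_inv z := by
    obtain ⟨x, w, rfl⟩ := exists_cons z
    cases x <;> simp [pairF_false, pairF_true]
  right_inv z := by
    obtain ⟨x, w, rfl⟩ := exists_cons z
    cases x <;> simp [pairF_false, pairF_true]

lemma pairP_false (p : Equiv.Perm X × Equiv.Perm X) (w : X) :
    pairP p (cons false w) = cons false (p.1 w) := rfl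
lemma pairP_true (p : Equiv.Perm X × Equiv.Perm X) (w : X) :
    pairP p (cons true w) = cons true (p.2 w) := rfl

def pairH : Equiv.Perm X × Equiv.Perm X →* Equiv.Perm X where
  toFun := pairP
  map_one' := perm_ext (fun _ => rfl) (fun _ => rfl)
  map_mul' _ _ := perm_ext (fun _ => rfl) (fun _ => rfl)

lemma pairH_inj : Function.Injective pairH := by
  intro p q h
  refine Prod.ext ?_ ?_
  · ext1 w
    exact congrArg tl (congrArg (fun g : Equiv.Perm X => g (cons false w)) h)
  · ext1 w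
    exact congrArg tl (congrArg (fun g : Equiv.Perm X => g (cons true w)) h)

lemma pa_pa : pa * pa = 1 := Equiv.ext aF_aF
lemma pd_pd (x : Bool × Bool) : pd x * pd x = 1 := Equiv.ext (dF_invol x)
lemma gb_eq : gb = pairH (pa, gc) := perm_ext (dF_false _) (dF_true _)
lemma gc_eq : gc = pairH (pa, gd) := perm_ext (dF_false _) (dF_true _)
lemma gd_eq : gd = pairH (1, gb) := perm_ext (dF_false _) (dF_true _)
lemma gc_eq' : gc = gb * gd := Equiv.ext fun z => (dF_dF (true, true) (false, true) z).symm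
lemma pa_pair (g h : Equiv.Perm X) : pa * pairH (g, h) = pairH (h, g) * pa :=
  perm_ext (fun _ => rfl) (fun _ => rfl)

lemma t_four : (pa * gd) ^ 4 = 1 := by
  have h1 : (pa * gd) ^ 2 = pairH (gb, gb) := by
    have e : pa * pairH (1, gb) * pa = pairH (gb, 1) := by
      rw [pa_pair, mul_assoc, pa_pa, mul_one]
    rw [pow_two, ← mul_assoc, gd_eq, e, ← map_mul]
    simp
  rw [show 4 = 2 * 2 from rfl, pow_mul, h1, pow_two, ← map_mul]
  have : gb * gb = 1 := pd_pd _
  simp only [Prod.mk_mul_mk, this]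
  exact map_one pairH

def Gam : Subgroup (Equiv.Perm X) := Subgroup.closure {pa, gb, gc, gd}

lemma pa_mem : pa ∈ Gam := Subgroup.subset_closure (by simp)
lemma gb_mem : gb ∈ Gam := Subgroup.subset_closure (by simp)
lemma gc_mem : gc ∈ Gam := Subgroup.subset_closure (by simp)
lemma gd_mem : gd ∈ Gam := Subgroup.subset_closure (by simp)

lemma gen_inv {s : Equiv.Perm X} (hs : s ∈ ({pa, gb, gc, gd} : Set (Equiv.Perm X))) : s⁻¹ = s := by
  simp only [Set.mem_insert_iff, Set.mem_singleton_iff] at hs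
  rcases hs with rfl | rfl | rfl | rfl <;> rfl

lemma gam_ind_left {Q : Equiv.Perm X → Prop} (h1 : Q 1) (ha : ∀ g, Q g → Q (pa * g))
    (hb : ∀ g, Q g → Q (gb * g)) (hc : ∀ g, Q g → Q (gc * g)) (hd : ∀ g, Q g → Q (gd * g))
    {g : Equiv.Perm X} (hg : g ∈ Gam) : Q g := by
  have key : ∀ s ∈ ({pa, gb, gc, gd} : Set (Equiv.Perm X)), ∀ g, Q g → Q (s * g) := by
    intro s hs
    simp only [Set.mem_insert_iff, Set.mem_singleton_iff] at hs
    rcases hs with rfl | rfl | rfl | rfl <;> assumption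
  induction hg using Subgroup.closure_induction_left with
  | one => exact h1
  | mul_left s hs g _ ih => exact key s hs g ih
  | inv_mul_cancel s hs g _ ih => rw [gen_inv hs]; exact key s hs g ih

lemma gam_ind_right {Q : Equiv.Perm X → Prop} (h1 : Q 1) (ha : ∀ g, Q g → Q (g * pa))
    (hb : ∀ g, Q g → Q (g * gb)) (hc : ∀ g, Q g → Q (g * gc)) (hd : ∀ g, Q g → Q (g * gd))
    {g : Equiv.Perm X} (hg : g ∈ Gam) : Q g := by
  have key : ∀ s ∈ ({pa, gb, gc, gd} : Set (Equiv.Perm X)), ∀ g, Q g → Q (g * s) := by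
    intro s hs
    simp only [Set.mem_insert_iff, Set.mem_singleton_iff] at hs
    rcases hs with rfl | rfl | rfl | rfl <;> assumption
  induction hg using Subgroup.closure_induction_right with
  | one => exact h1
  | mul_right g _ s hs ih => exact key s hs g ih
  | mul_inv_cancel g _ s hs ih => rw [gen_inv hs]; exact key s hs g ih

lemma gam_decomp {g : Equiv.Perm X} (hg : g ∈ Gam) :
    ∃ g0 ∈ Gam, ∃ g1 ∈ Gam, g = pairH (g0, g1) ∨ g = pairH (g0, g1) * pa := by
  have key : ∀ s0 ∈ Gam, ∀ s1 ∈ Gam, ∀ g,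
      (∃ g0 ∈ Gam, ∃ g1 ∈ Gam, g = pairH (g0, g1) ∨ g = pairH (g0, g1) * pa) →
      ∃ g0 ∈ Gam, ∃ g1 ∈ Gam, pairH (s0, s1) * g = pairH (g0, g1) ∨
        pairH (s0, s1) * g = pairH (g0, g1) * pa := by
    rintro s0 h0 s1 h1 g ⟨g0, k0, g1, k1, rfl | rfl⟩
    · exact ⟨_, mul_mem h0 k0, _, mul_mem h1 k1, Or.inl (map_mul pairH _ _).symm⟩
    · exact ⟨_, mul_mem h0 k0, _, mul_mem h1 k1, Or.inr (by rw [← mul_assoc, ← map_mul]; rfl)⟩
  refine gam_ind_left (Q := fun g =>
    ∃ g0 ∈ Gam, ∃ g1 ∈ Gam, g = pairH (g0, g1) ∨ g = pairH (g0, g1) * pa)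
    ⟨1, one_mem _, 1, one_mem _, Or.inl (map_one pairH).symm⟩ ?_ ?_ ?_ ?_ hg
  · rintro g ⟨g0, k0, g1, k1, rfl | rfl⟩
    · exact ⟨_, k1, _, k0, Or.inr (pa_pair _ _)⟩
    · exact ⟨_, k1, _, k0, Or.inl (by rw [← mul_assoc, pa_pair, mul_assoc, pa_pa, mul_one])⟩
  · rw [gb_eq]; exact key _ pa_mem _ gc_mem
  · rw [gc_eq]; exact key _ pa_mem _ gd_mem
  · rw [gd_eq]; exact key _ (one_mem _) _ gb_mem

lemma swap_mem {g h : Equiv.Perm X} (hp : pairH (g, h) ∈ Gam) : pairH (h, g) ∈ Gam := by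
  have : pairH (h, g) = pa * pairH (g, h) * pa := by
    rw [pa_pair, mul_assoc, pa_pa, mul_one]
  rw [this]
  exact mul_mem (mul_mem pa_mem hp) pa_mem

lemma gam_surj {g : Equiv.Perm X} (hg : g ∈ Gam) : ∃ g', pairH (g', g) ∈ Gam := by
  have key : ∀ s s', pairH (s', s) ∈ Gam → ∀ g, (∃ g', pairH (g', g) ∈ Gam) →
      ∃ g', pairH (g', s * g) ∈ Gam := by
    rintro s s' hs g ⟨g', h⟩
    exact ⟨s' * g', by have := mul_mem hs h; rwa [← map_mul] at this⟩
  refine gam_ind_left (Q := fun g => ∃ g', pairH (g', g) ∈ Gam)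
    ⟨1, by rw [show ((1, 1) : Equiv.Perm X × Equiv.Perm X) = 1 from rfl, map_one]; exact one_mem _⟩
    (key _ gc (swap_mem (gb_eq ▸ gb_mem))) (key _ 1 (gd_eq ▸ gd_mem)) (key _ pa (gb_eq ▸ gb_mem))
    (key _ pa (gc_eq ▸ gc_mem)) hg

lemma conj_mem {g β : Equiv.Perm X} (hg : g ∈ Gam) (hβ : pairH (1, β) ∈ Gam) :
    pairH (1, g * β * g⁻¹) ∈ Gam := by
  obtain ⟨g', h⟩ := gam_surj hg
  have := mul_mem (mul_mem h hβ) (inv_mem h)
  rw [← map_inv, ← map_mul, ← map_mul] at this
  simpa using this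

lemma gam_coset {g : Equiv.Perm X} (hg : g ∈ Gam) : ∃ β, pairH (1, β) ∈ Gam ∧
    ∃ k : ℕ, g = β * (pa * gd) ^ k ∨ g = β * ((pa * gd) ^ k * pa) := by
  have ht : ∀ k : ℕ, (pa * gd) ^ k ∈ Gam := fun k => pow_mem (mul_mem pa_mem gd_mem) k
  have hb : ∀ g, (∃ β, pairH (1, β) ∈ Gam ∧
      ∃ k : ℕ, g = β * (pa * gd) ^ k ∨ g = β * ((pa * gd) ^ k * pa)) →
      ∃ β, pairH (1, β) ∈ Gam ∧
      ∃ k : ℕ, g * gb = β * (pa * gd) ^ k ∨ g * gb = β * ((pa * gd) ^ k * pa) := by
    have key : ∀ β w, pairH (1, β) ∈ Gam → w ∈ Gam → pairH (1, β * (w * gb * w⁻¹)) ∈ Gam := by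
      intro β w h1 h2
      have := mul_mem h1 (conj_mem h2 (gd_eq ▸ gd_mem))
      rw [← map_mul] at this
      simpa using this
    rintro g ⟨β, hβ, k, rfl | rfl⟩
    · exact ⟨_, key β _ hβ (ht k), k, Or.inl (by group)⟩
    · exact ⟨_, key β _ hβ (mul_mem (ht k) pa_mem), k, Or.inr (by group)⟩
  have hd : ∀ g, (∃ β, pairH (1, β) ∈ Gam ∧
      ∃ k : ℕ, g = β * (pa * gd) ^ k ∨ g = β * ((pa * gd) ^ k * pa)) →
      ∃ β, pairH (1, β) ∈ Gam ∧
      ∃ k : ℕ, g * gd = β * (pa * gd) ^ k ∨ g * gd = β * ((pa * gd) ^ k * pa) := by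
    rintro g ⟨β, hβ, k, rfl | rfl⟩
    · refine ⟨β, hβ, k + 3, Or.inr ?_⟩
      have h1 : (pa * gd) ^ 3 * pa * gd = 1 := by rw [← t_four, pow_succ _ 3, mul_assoc]
      have h2 : gd = (pa * gd) ^ 3 * pa := by
        have h3 : gd * gd = 1 := pd_pd _
        exact mul_right_cancel (h3.trans h1.symm)
      rw [pow_add, mul_assoc, mul_assoc, ← h2]
    · exact ⟨β, hβ, k + 1, Or.inl (by rw [pow_succ]; simp only [mul_assoc])⟩
  refine gam_ind_right (Q := fun g => ∃ β, pairH (1, β) ∈ Gam ∧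
    ∃ k : ℕ, g = β * (pa * gd) ^ k ∨ g = β * ((pa * gd) ^ k * pa))
    ⟨1, by rw [show ((1, 1) : Equiv.Perm X × Equiv.Perm X) = 1 from rfl, map_one]; exact one_mem _,
      0, Or.inl (by simp)⟩ ?_ hb ?_ hd hg
  · rintro g ⟨β, hβ, k, rfl | rfl⟩
    · exact ⟨β, hβ, k, Or.inr (mul_assoc _ _ _)⟩
    · exact ⟨β, hβ, k, Or.inl (by rw [mul_assoc, mul_assoc, pa_pa, mul_one])⟩
  · intro g h
    rw [gc_eq', ← mul_assoc]
    exact hd _ (hb _ h)

def spine : ℕ → X
  | 0 => cons false x0
  | n + 1 => cons true (spine n)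

lemma spine_inj : Function.Injective spine := by
  intro n m h
  induction n generalizing m with
  | zero =>
    cases m with
    | zero => rfl
    | succ m => exact absurd (congrFun h 0) (by simp [spine])
  | succ n ih =>
    cases m with
    | zero => exact absurd (congrFun h 0) (by simp [spine])
    | succ m => rw [ih (congrArg tl h)]

instance : Infinite Gam := by
  have key : ∀ n, ∃ g : Gam, g.1 x0 = spine n := by
    intro n
    induction n with
    | zero => exact ⟨⟨pa, pa_mem⟩, by rw [x0_eq]; rfl⟩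
    | succ n ih =>
      obtain ⟨g, hg⟩ := ih
      obtain ⟨g', h⟩ := gam_surj g.2
      refine ⟨⟨_, h⟩, ?_⟩
      rw [x0_eq]
      show cons true (g.1 x0) = _
      rw [hg]
      rfl
  choose g hg using key
  exact Infinite.of_injective g fun n m h => spine_inj (by rw [← hg, ← hg, h])

theorem good_grig {S : Finset Gam} (hS : Subgroup.closure (S : Set Gam) = ⊤) :
    Good (fun Y => Y = cay hS) := by
  let ψ : Gam × Gam →* Equiv.Perm X := pairH.comp (Gam.subtype.prodMap Gam.subtype)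
  have hψ : Function.Injective ψ :=
    pairH_inj.comp (Subtype.val_injective.prodMap Subtype.val_injective)
  let P : Subgroup (Gam × Gam) := Gam.comap ψ
  let θ : P →* Gam := (ψ.comp P.subtype).codRestrict Gam fun p => p.2
  let W : Set Gam := {w | ∃ k < 4, w.1 = (pa * gd) ^ k ∨ w.1 = (pa * gd) ^ k * pa}
  have hW : W.Finite := by
    refine Set.Finite.preimage (f := Subtype.val) Subtype.val_injective.injOn
      (s := {w | ∃ k < 4, w = (pa * gd) ^ k ∨ w = (pa * gd) ^ k * pa}) ?_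
    refine (((Set.finite_lt_nat 4).image fun k => (pa * gd) ^ k).union
      ((Set.finite_lt_nat 4).image fun k => (pa * gd) ^ k * pa)).subset ?_
    rintro w ⟨k, hk, rfl | rfl⟩
    exacts [Or.inl ⟨k, hk, rfl⟩, Or.inr ⟨k, hk, rfl⟩]
  have hcos : ∀ g : Gam, ∃ β : Gam, pairH (1, β.1) ∈ Gam ∧ ∃ w ∈ W, g = β * w := by
    intro g
    obtain ⟨β, hβ, k, hk⟩ := gam_coset g.2
    have e : (pa * gd) ^ k = (pa * gd) ^ (k % 4) := pow_eq_pow_mod k t_four
    have ht : (pa * gd) ^ k ∈ Gam := pow_mem (mul_mem pa_mem gd_mem) k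
    rcases hk with hk | hk
    · refine ⟨g * (⟨_, ht⟩ : Gam)⁻¹, by simpa [hk] using hβ, ⟨_, ht⟩,
        ⟨k % 4, Nat.mod_lt _ (by norm_num), Or.inl e⟩, by simp⟩
    · refine ⟨g * (⟨_, mul_mem ht pa_mem⟩ : Gam)⁻¹, by
        have : g.1 * ((pa * gd) ^ k * pa)⁻¹ = β := by rw [hk]; group
        rw [← this] at hβ
        exact hβ, ⟨_, mul_mem ht pa_mem⟩,
        ⟨k % 4, Nat.mod_lt _ (by norm_num), Or.inr (by rw [← e])⟩, by simp⟩
  refine good_cay hS P θ (fun p q h => Subtype.ext (hψ (congrArg Subtype.val h))) (W ×ˢ W)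
    (hW.prod hW) (fun y => ?_) {1, ⟨pa, pa_mem⟩} (Set.toFinite _) (fun x => ?_)
  · obtain ⟨β, hβ, w, hw, e⟩ := hcos y.1
    obtain ⟨β', hβ', w', hw', e'⟩ := hcos y.2
    refine ⟨⟨(β, β'), ?_⟩, (w, w'), ⟨hw, hw'⟩, Prod.ext e e'⟩
    have := mul_mem (swap_mem hβ) hβ'
    rw [← map_mul] at this
    simp only [Prod.mk_mul_mk, mul_one, one_mul] at this
    exact this
  · obtain ⟨g0, k0, g1, k1, h | h⟩ := gam_decomp x.2
    · exact ⟨⟨(⟨g0, k0⟩, ⟨g1, k1⟩), by show pairH (g0, g1) ∈ Gam; rw [← h]; exact x.2⟩, 1, by simp,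
        Subtype.ext (by rw [mul_one]; exact h)⟩
    · refine ⟨⟨(⟨g0, k0⟩, ⟨g1, k1⟩), ?_⟩, ⟨pa, pa_mem⟩, by simp, Subtype.ext h⟩
      show pairH (g0, g1) ∈ Gam
      have : pairH (g0, g1) = x.1 * pa := by rw [h, mul_assoc, pa_pa, mul_one]
      rw [this]
      exact mul_mem x.2 pa_mem

theorem grig_main (a b c d : Equiv.Perm (ℕ → Bool)) (h : IsGrigGens a b c d)
    (S : Finset (Subgroup.closure ({a, b, c, d} : Set (Equiv.Perm (ℕ → Bool)))))
    (hS : Subgroup.closure (S : Set (Subgroup.closure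
      ({a, b, c, d} : Set (Equiv.Perm (ℕ → Bool))))) = ⊤) (A : Set ℕ) :
    ¬ DecClass A (wordDist S) {Set.univ} := by
  obtain ⟨rfl, rfl, rfl, rfl⟩ := h.unique isGrigGens
  exact not_decClass_group hS (good_grig hS) _ (wordDist_proper hS) A

section propA

variable {G : Type} [Group G] {S : Finset G}

open Classical in
lemma lp_fin {α : Type} (s : Finset α) (f : α → ℝ) : ∃ ξ : lp (fun _ : α => ℝ) 1,
    (∀ y, ξ y = if y ∈ s then f y else 0) ∧ ‖ξ‖ = ∑ y ∈ s, |f y| := by
  refine ⟨∑ y ∈ s, lp.single 1 y (f y), fun y => ?_, ?_⟩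
  · rw [lp.coeFn_sum, Finset.sum_apply]
    simp [lp.single_apply, Pi.single_apply]
  · have := lp.norm_sum_single (E := fun _ : α => ℝ) (p := 1) (by simp) f s
    simpa using this

theorem propertyA_of_subexp (hS : Subgroup.closure (S : Set G) = ⊤)
    (hsub : ∀ ε : ℝ, 0 < ε → ∃ C : ℝ, 0 ≤ C ∧ ∀ n : ℕ,
      (({g : G | wordLength S g ≤ n}.ncard : ℕ) : ℝ) ≤ C * Real.exp (ε * n))
    (d : G → G → ℝ) (hd : IsProperInvMetric d) : PropertyA d := by
  classical
  intro R hR ε hε
  have hinv : ∀ x y, d x y = d 1 (x⁻¹ * y) := fun x y => by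
    rw [← hd.invariant x 1 (x⁻¹ * y)]
    simp
  obtain ⟨k, hk⟩ := bound_of_finite (hd.proper 1 R) (wordLength S)
  let B : ℕ → Finset G := fun n => (wl_finite hS n).toFinset
  have hB : ∀ n g, g ∈ B n ↔ wordLength S g ≤ n := fun n g => by simp [B]
  have hB1 : ∀ n, 1 ≤ (B n).card := fun n =>
    Finset.card_pos.2 ⟨1, (hB n 1).2 (by simp [wl_one])⟩
  have hn : ∃ n, ((B (n + k)).card : ℝ) ≤ (1 + ε / 4) * (B n).card := by
    by_contra hc
    simp only [not_exists, not_le] at hc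
    have h1 : ∀ j : ℕ, (1 + ε / 4) ^ j ≤ ((B (j * k)).card : ℝ) := by
      intro j
      induction j with
      | zero => simpa using hB1 0
      | succ j ih =>
        have := hc (j * k)
        rw [add_mul, one_mul (k : ℕ), pow_succ']
        exact le_trans (mul_le_mul_of_nonneg_left ih (by positivity)) this.le
    have hl : 0 < Real.log (1 + ε / 4) := Real.log_pos (by linarith)
    obtain ⟨C, hC, h2⟩ := hsub (Real.log (1 + ε / 4) / (2 * (k + 1))) (by positivity)
    have h3 : ∀ j : ℕ, Real.exp (Real.log (1 + ε / 4) / 2 * j) ≤ C := by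
      intro j
      have h4 := h2 (j * k)
      rw [Set.ncard_eq_toFinset_card _ (wl_finite hS _)] at h4
      have h5 := (h1 j).trans h4
      have h6 : (1 + ε / 4) ^ j = Real.exp (Real.log (1 + ε / 4) / 2 * j) *
          Real.exp (Real.log (1 + ε / 4) / 2 * j) := by
        rw [← Real.exp_add, show Real.log (1 + ε / 4) / 2 * j + Real.log (1 + ε / 4) / 2 * j =
          j * Real.log (1 + ε / 4) by ring, Real.exp_nat_mul, Real.exp_log (by positivity)]
      have h7 : Real.exp (Real.log (1 + ε / 4) / (2 * (k + 1)) * (j * k : ℕ)) ≤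
          Real.exp (Real.log (1 + ε / 4) / 2 * j) := by
        refine Real.exp_le_exp.2 ?_
        push_cast
        rw [div_mul_eq_mul_div, div_mul_eq_mul_div, div_le_div_iff₀ (by positivity) (by norm_num)]
        have : (0 : ℝ) ≤ j := Nat.cast_nonneg j
        have : (0 : ℝ) ≤ k := Nat.cast_nonneg k
        nlinarith [mul_nonneg hl.le this]
      rw [h6] at h5
      exact le_of_mul_le_mul_right (h5.trans (mul_le_mul_of_nonneg_left h7 hC)) (Real.exp_pos _)
    obtain ⟨j, hj⟩ := exists_nat_gt (C / (Real.log (1 + ε / 4) / 2))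
    have h8 := Real.add_one_le_exp (Real.log (1 + ε / 4) / 2 * j)
    rw [div_lt_iff₀ (by positivity)] at hj
    have := h3 j
    nlinarith
  obtain ⟨n, hn⟩ := hn
  let A : G → Finset G := fun x => (B (n + k)).image (fun g => x * g)
  have hA : ∀ x y, y ∈ A x ↔ wordLength S (x⁻¹ * y) ≤ n + k := fun x y => by
    rw [← hB]
    simp only [A, Finset.mem_image]
    exact ⟨fun ⟨g, h, e⟩ => by rw [← e, inv_mul_cancel_left]; exact h,
      fun h => ⟨_, h, mul_inv_cancel_left x y⟩⟩
  have hAc : ∀ x, (A x).card = (B (n + k)).card := fun x =>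
    Finset.card_image_of_injective _ (mul_right_injective x)
  have hb : (0 : ℝ) < (B (n + k)).card := by exact_mod_cast hB1 _
  choose ξ hξ1 hξ2 using fun x => lp_fin (A x) (fun _ => ((B (n + k)).card : ℝ)⁻¹)
  obtain ⟨S0, hS0⟩ := ((wl_finite hS (n + k)).image (d 1)).bddAbove
  refine ⟨max S0 1, by positivity, ξ, fun x => ?_, fun x y h => ?_, fun x y h => ?_⟩
  · rw [hξ2, Finset.sum_const, hAc, abs_of_pos (inv_pos.2 hb), nsmul_eq_mul,
      mul_inv_cancel₀ hb.ne']
  · rw [hξ1] at h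
    have : y ∈ A x := by
      by_contra h'
      exact h (if_neg h')
    rw [hinv]
    exact le_trans (hS0 ⟨_, (hA x y).1 this, rfl⟩) (le_max_left _ _)
  · have hxy : wordLength S (x⁻¹ * y) ≤ k := hk _ (by rw [hinv] at h; exact h)
    let C : Finset G := (B n).image (fun g => x * g)
    have hCc : C.card = (B n).card := Finset.card_image_of_injective _ (mul_right_injective x)
    have hCx : C ⊆ A x := fun z hz => by
      obtain ⟨g, hg, rfl⟩ := Finset.mem_image.1 hz
      rw [hB] at hg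
      rw [hA]
      simp only [inv_mul_cancel_left]
      omega
    have hCy : C ⊆ A y := fun z hz => by
      obtain ⟨g, hg, rfl⟩ := Finset.mem_image.1 hz
      rw [hB] at hg
      have a1 := wl_mul hS (x⁻¹ * y)⁻¹ g
      rw [wl_inv hS] at a1
      rw [hA, show y⁻¹ * (x * g) = (x⁻¹ * y)⁻¹ * g by group]
      omega
    obtain ⟨η, hη1, hη2⟩ := lp_fin ((A x \ C) ∪ (A y \ C)) (fun z => ξ x z - ξ y z)
    have e : ξ x - ξ y = η := by
      ext z
      rw [hη1, lp.coeFn_sub, Pi.sub_apply]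
      split_ifs with hz
      · rfl
      · simp only [Finset.mem_union, Finset.mem_sdiff, not_or, not_and, not_not] at hz
        rw [hξ1, hξ1]
        by_cases hc : z ∈ C
        · rw [if_pos (hCx hc), if_pos (hCy hc), sub_self]
        · rw [if_neg fun h => hc (hz.1 h), if_neg fun h => hc (hz.2 h), sub_self]
    rw [e, hη2]
    have h1 : ∀ z ∈ (A x \ C) ∪ (A y \ C), |ξ x z - ξ y z| ≤ ((B (n + k)).card : ℝ)⁻¹ := by
      intro z _
      rw [hξ1, hξ1]
      have : (0 : ℝ) < ((B (n + k)).card : ℝ)⁻¹ := inv_pos.2 hb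
      split_ifs
      · rw [sub_self, abs_zero]; exact this.le
      · rw [sub_zero, abs_of_pos this]
      · rw [zero_sub, abs_neg, abs_of_pos this]
      · rw [sub_self, abs_zero]; exact this.le
    refine lt_of_le_of_lt (Finset.sum_le_card_nsmul _ _ _ h1) ?_
    have h2 : (((A x \ C) ∪ (A y \ C)).card : ℝ) ≤ 2 * ((B (n + k)).card - (B n).card) := by
      have a1 := Finset.card_union_le (A x \ C) (A y \ C)
      have a2 := Finset.card_sdiff_add_card_eq_card hCx
      have a3 := Finset.card_sdiff_add_card_eq_card hCy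
      rw [hAc, hCc] at a2 a3
      have a4 : ((A x \ C) ∪ (A y \ C)).card + 2 * (B n).card ≤ 2 * (B (n + k)).card := by omega
      have a5 : ((((A x \ C) ∪ (A y \ C)).card : ℕ) : ℝ) + 2 * (B n).card ≤
          2 * (B (n + k)).card := by exact_mod_cast a4
      linarith
    have h3 : ((B n).card : ℝ) ≤ (B (n + k)).card := by
      have := Finset.card_le_card hCx
      rw [hAc, hCc] at this
      exact_mod_cast this
    rw [nsmul_eq_mul, ← div_eq_mul_inv, div_lt_iff₀ hb]
    nlinarith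

end propA

theorem propA_main : ∃ (G : Type) (_ : Group G), Countable G ∧
    (∃ d : G → G → ℝ, IsProperInvMetric d) ∧
    ∀ d : G → G → ℝ, IsProperInvMetric d →
      PropertyA d ∧ ¬ DecClass Set.univ d {Set.univ} := by
  classical
  let S : Finset Gam := ({pa, gb, gc, gd} : Finset (Equiv.Perm X)).subtype (· ∈ Gam)
  have hS : Subgroup.closure (S : Set Gam) = ⊤ := Conj.closure_subtype (by simp [Gam])
  refine ⟨Gam, inferInstance, ?_, ⟨_, wordDist_proper hS⟩, fun d hd =>
    ⟨propertyA_of_subexp hS (fun ε hε => ?_) d hd, not_decClass_group hS (good_grig hS) d hd _⟩⟩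
  · have : (Set.univ : Set Gam) = ⋃ n : ℕ, {g | wordLength S g ≤ n} := by
      ext g
      simpa using ⟨_, le_rfl⟩
    rw [← Set.countable_univ_iff, this]
    exact Set.countable_iUnion fun n => (wl_finite hS n).countable
  · obtain ⟨C, hC, h⟩ := subexp hε
    refine ⟨C, hC, fun n => le_trans ?_ (h n)⟩
    have : {g : Gam | wordLength S g ≤ n}.ncard ≤ (Conj.ball gens n).ncard := by
      refine Set.ncard_le_ncard_of_injOn Subtype.val (fun g hg => ?_)
        Subtype.val_injective.injOn (Conj.finite_ball _ _)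
      obtain ⟨l, h1, h2, rfl⟩ := wl_spec hS g
      refine ⟨l.map Subtype.val, by rw [List.length_map, h1]; exact hg, fun x hx => ?_, by simp⟩
      obtain ⟨s, hs, rfl⟩ := List.mem_map.1 hx
      have key : ∀ t : Gam, t ∈ S → t.1 ∈ gens := fun t ht => by
        simp only [S, Finset.mem_subtype, Finset.mem_insert, Finset.mem_singleton] at ht
        rcases ht with h | h | h | h <;> simp [gens, h, gb, gc, gd]
      rcases h2 s hs with h | h
      exacts [Or.inl (key _ h), Or.inr (key _ h)]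
    exact_mod_cast this

end Pool.Agent.H357Z.FDC
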